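import Pool.Agent.H35.FC.Stm

/-!
# Basic lemmas on `Star`, cuts and contexts
-/

set_option autoImplicit false

namespace Pool.Agent.H35.FC

variable {α : Type} {C : Set (List α)} {a : α}

theorem star_nil : ([] : List α) ∈ Star C := ⟨[], by simp, rfl⟩

theorem star_append {x y : List α} (hx : x ∈ Star C) (hy : y ∈ Star C) : x ++ y ∈ Star C := by
  obtain ⟨L, hL, rfl⟩ := hx
  obtain ⟨M, hM, rfl⟩ := hy
  refine ⟨L ++ M, fun c hc => ?_, by simp⟩
  rcases List.mem_append.1 hc with h | h
  · exact hL c h
  · exact hM c h

theorem star_of_mem {c : List α} (hc : c ∈ C) : c ∈ Star C :=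
  ⟨[c], by simpa using hc, by simp⟩

theorem rep_star (ha : [a] ∈ C) (n : ℕ) : List.replicate n a ∈ Star C := by
  induction n with
  | zero => exact star_nil
  | succ n ih =>
    rw [List.replicate_succ, ← List.singleton_append]
    exact star_append (star_of_mem ha) ih

theorem rc_mono (ha : [a] ∈ C) {n m : ℕ} (h : n ≤ m) {g : List α}
    (hg : List.replicate n a ++ g ∈ Star C) : List.replicate m a ++ g ∈ Star C := by
  obtain ⟨k, rfl⟩ := Nat.exists_eq_add_of_le' h
  rw [List.replicate_add, List.append_assoc]
  exact star_append (rep_star ha k) hg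

theorem lc_mono (ha : [a] ∈ C) {n m : ℕ} (h : n ≤ m) {f : List α}
    (hf : f ++ List.replicate n a ∈ Star C) : f ++ List.replicate m a ∈ Star C := by
  obtain ⟨k, rfl⟩ := Nat.exists_eq_add_of_le h
  rw [List.replicate_add, ← List.append_assoc]
  exact star_append hf (rep_star ha k)

/-- `RC g → RC (g a^k)`. -/
theorem rc_rep (ha : [a] ∈ C) {g : List α} (hg : RC C a g) (k : ℕ) :
    RC C a (g ++ List.replicate k a) := by
  obtain ⟨n, hn⟩ := hg
  exact ⟨n, by rw [← List.append_assoc]; exact star_append hn (rep_star ha k)⟩

/-- `LC f → LC (a^k f)`. -/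
theorem lc_rep (ha : [a] ∈ C) {f : List α} (hf : LC C a f) (k : ℕ) :
    LC C a (List.replicate k a ++ f) := by
  obtain ⟨n, hn⟩ := hf
  exact ⟨n, by rw [List.append_assoc]; exact star_append (rep_star ha k) hn⟩

theorem split : SSplit := by
  intro α C u v h
  obtain ⟨L, hL, hf⟩ := h
  induction L generalizing u with
  | nil =>
    simp only [List.flatten_nil] at hf
    have h1 := List.append_eq_nil_iff.1 hf.symm
    left
    rw [h1.1, h1.2]
    exact ⟨star_nil, star_nil⟩
  | cons c L ih =>
    rw [List.flatten_cons] at hf
    have hc : c ∈ C := hL c (by simp)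
    have hL' : ∀ c ∈ L, c ∈ C := fun d hd => hL d (by simp [hd])
    rcases List.append_eq_append_iff.1 hf.symm with ⟨t, h1, h2⟩ | ⟨t, h1, h2⟩
    · -- c = u ++ t
      by_cases hu : u = []
      · left
        subst hu
        refine ⟨star_nil, ?_⟩
        rw [h2]
        simp only [List.nil_append] at h1
        rw [← h1]
        exact star_append (star_of_mem hc) ⟨L, hL', rfl⟩
      · by_cases ht : t = []
        · left
          subst ht
          simp only [List.append_nil] at h1
          refine ⟨by rw [← h1]; exact star_of_mem hc, ?_⟩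
          rw [h2, List.nil_append]
          exact ⟨L, hL', rfl⟩
        · right
          exact ⟨[], u, t, L.flatten, star_nil, ⟨L, hL', rfl⟩, hu, ht, by rw [← h1]; exact hc,
            by simp, h2⟩
    · -- u = c ++ t
      rcases ih t hL' h2 with ⟨h3, h4⟩ | ⟨X, p, s, Y, hX, hY, hp, hs, hps, h3, h4⟩
      · left
        exact ⟨by rw [h1]; exact star_append (star_of_mem hc) h3, h4⟩
      · right
        exact ⟨c ++ X, p, s, Y, star_append (star_of_mem hc) hX, hY, hp, hs, hps,
          by rw [h1, h3, List.append_assoc], h4⟩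

theorem cut : SCut := by
  intro α C hC x y X c Y hx hy hX hc hY h
  obtain ⟨Lx, hLx, rfl⟩ := hx
  obtain ⟨Ly, hLy, rfl⟩ := hy
  obtain ⟨LX, hLX, rfl⟩ := hX
  obtain ⟨LY, hLY, rfl⟩ := hY
  have h1 : (Lx ++ Ly).flatten = (LX ++ c :: LY).flatten := by
    rw [List.flatten_append, List.flatten_append, List.flatten_cons, h]
  have h2 := hC.2 (Lx ++ Ly) (LX ++ c :: LY)
    (fun d hd => by
      rcases List.mem_append.1 hd with h | h
      · exact hLx d h
      · exact hLy d h)
    (fun d hd => by
      rcases List.mem_append.1 hd with h | h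
      · exact hLX d h
      · rcases List.mem_cons.1 h with h | h
        · rw [h]; exact hc
        · exact hLY d h) h1
  rcases List.append_eq_append_iff.1 h2 with ⟨M, h3, h4⟩ | ⟨M, h3, h4⟩
  · left
    rw [h3, List.flatten_append, List.length_append]
    omega
  · cases M with
    | nil =>
      left
      rw [h3, List.append_nil]
    | cons d M =>
      right
      rw [List.cons_append] at h4
      have h5 := (List.cons.inj h4).1
      rw [h3, List.flatten_append, List.flatten_cons, List.length_append, List.length_append, h5]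
      omega

/-- In one step: with `RC g`, `LC f`, no codeword crosses the border in `a^n g f a^n`. -/
theorem cut_context (hS : Setup C a) {g f : List α} (hg : RC C a g) (hf : LC C a f) {n m : ℕ}
    {X c Y : List α} (hX : X ∈ Star C) (hc : c ∈ C) (hY : Y ∈ Star C)
    (h : List.replicate n a ++ g ++ (f ++ List.replicate m a) = X ++ (c ++ Y)) :
    (List.replicate n a ++ g).length ≤ X.length ∨
      X.length + c.length ≤ (List.replicate n a ++ g).length := by
  obtain ⟨k, hk⟩ := hg
  obtain ⟨l, hl⟩ := hf
  have h1 : List.replicate (k + n) a ++ g ∈ Star C := rc_mono hS.mem (by omega) hk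
  have h2 : f ++ List.replicate (l + m) a ∈ Star C := lc_mono hS.mem (by omega) hl
  have h3 : (List.replicate (k + n) a ++ g) ++ (f ++ List.replicate (l + m) a)
      = (List.replicate k a ++ X) ++ (c ++ (Y ++ List.replicate l a)) := by
    calc (List.replicate (k + n) a ++ g) ++ (f ++ List.replicate (l + m) a)
        = List.replicate k a ++ (List.replicate n a ++ g ++ (f ++ List.replicate m a)) ++
            List.replicate l a := by
          rw [List.replicate_add, Nat.add_comm l m, List.replicate_add]
          simp only [List.append_assoc]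
      _ = _ := by
          rw [h]
          simp only [List.append_assoc]
  have h4 := cut α C hS.code _ _ _ _ _ h1 h2 (star_append (rep_star hS.mem k) hX) hc
    (star_append hY (rep_star hS.mem l)) h3
  simp only [List.length_append, List.length_replicate] at h4 ⊢
  omega

/-- For large `n` the word `a^n w a^n` is in `C*`. -/
theorem comp_large (hS : Setup C a) (w : List α) :
    ∃ n0 : ℕ, ∀ n, n0 ≤ n → List.replicate n a ++ w ++ List.replicate n a ∈ Star C := by
  obtain ⟨n0, h0⟩ := hS.comp w
  refine ⟨n0, fun n hn => ?_⟩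
  have h1 := rc_mono hS.mem hn (g := w ++ List.replicate n0 a)
    (by rw [← List.append_assoc]; exact h0)
  rw [← List.append_assoc] at h1
  exact lc_mono hS.mem hn h1

/-- `[] ∈ Aset g` iff `RC g`. -/
theorem nil_mem_aset (hS : Setup C a) (g : List α) : [] ∈ Aset C a g ↔ RC C a g := by
  constructor
  · rintro ⟨n, x, p, hx, hp, h, hc⟩
    rw [List.append_nil] at hc
    exact ⟨n, by rw [h]; exact star_append hx (star_of_mem hc)⟩
  · rintro ⟨n, hn⟩
    have h1 : List.replicate (n + 1) a ++ g ∈ Star C := rc_mono hS.mem (by omega) hn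
    obtain ⟨L, hL, hf⟩ := h1
    have hne : L ≠ [] := by
      rintro rfl
      simp [List.replicate_succ] at hf
    refine ⟨n + 1, L.dropLast.flatten, L.getLast hne,
      ⟨L.dropLast, fun c hc => hL c (List.mem_of_mem_dropLast hc), rfl⟩, ?_, ?_, ?_⟩
    · intro h
      exact hS.code.1 (h ▸ hL _ (List.getLast_mem hne))
    · rw [← hf]
      conv_lhs => rw [← List.dropLast_append_getLast hne]
      rw [List.flatten_append]
      simp
    · rw [List.append_nil]
      exact hL _ (List.getLast_mem hne)

/-- `[] ∈ Bset f` iff `LC f`. -/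
theorem nil_mem_bset (hS : Setup C a) (f : List α) : [] ∈ Bset C a f ↔ LC C a f := by
  constructor
  · rintro ⟨n, s, y, hy, hs, h, hc⟩
    rw [List.nil_append] at hc
    exact ⟨n, by rw [h]; exact star_append (star_of_mem hc) hy⟩
  · rintro ⟨n, hn⟩
    have h1 : f ++ List.replicate (n + 1) a ∈ Star C := lc_mono hS.mem (by omega) hn
    obtain ⟨L, hL, hf⟩ := h1
    cases L with
    | nil =>
      exfalso
      have := congrArg List.length hf
      simp at this
    | cons c L =>
      refine ⟨n + 1, c, L.flatten, ⟨L, fun d hd => hL d (by simp [hd]), rfl⟩, ?_, ?_, ?_⟩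
      · intro h
        exact hS.code.1 (h ▸ hL c (by simp))
      · rw [← hf, List.flatten_cons]
      · rw [List.nil_append]
        exact hL c (by simp)

/-- A word of `Aset g` makes the left context complete. -/
theorem rc_of_aset (C : Set (List α)) (a : α) {g v : List α} (hv : v ∈ Aset C a g) :
    RC C a (g ++ v) := by
  obtain ⟨n, x, p, hx, hp, h, hc⟩ := hv
  refine ⟨n, ?_⟩
  rw [← List.append_assoc, h, List.append_assoc]
  exact star_append hx (star_of_mem hc)

/-- A word of `Bset f` makes the right context complete. -/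
theorem lc_of_bset (C : Set (List α)) (a : α) {f v : List α} (hv : v ∈ Bset C a f) :
    LC C a (v ++ f) := by
  obtain ⟨n, s, y, hy, hs, h, hc⟩ := hv
  refine ⟨n, ?_⟩
  rw [List.append_assoc, h, ← List.append_assoc]
  exact star_append (star_of_mem hc) hy

/-- `C*` keeps right contexts complete. -/
theorem lc_star {f c : List α} (hc : c ∈ Star C) (hf : LC C a f) : LC C a (c ++ f) := by
  obtain ⟨n, hn⟩ := hf
  exact ⟨n, by rw [List.append_assoc]; exact star_append hc hn⟩

/-- `C*` keeps left contexts complete. -/
theorem rc_star {g c : List α} (hg : RC C a g) (hc : c ∈ Star C) : RC C a (g ++ c) := by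
  obtain ⟨n, hn⟩ := hg
  exact ⟨n, by rw [← List.append_assoc]; exact star_append hn hc⟩

end Pool.Agent.H35.FC
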