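import Pool.Agent.H35.FC.Stm

/-!
# Assembly
-/

set_option autoImplicit false

namespace Pool.Agent.H35.FC

open MvPolynomial

theorem gf_coeff_nonneg {α : Type} [DecidableEq α] (L : Finset (List α)) (e : α →₀ ℕ) :
    0 ≤ coeff e (gf L) := by
  unfold gf
  rw [coeff_sum]
  refine Finset.sum_nonneg fun w _ => ?_
  have h : ∀ w : List α, ∃ m : α →₀ ℕ, (w.map (X : α → MvPolynomial α ℤ)).prod = monomial m 1 := by
    intro w
    induction w with
    | nil => exact ⟨0, by simp⟩
    | cons x w ih =>
      obtain ⟨m, hm⟩ := ih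
      refine ⟨Finsupp.single x 1 + m, ?_⟩
      rw [List.map_cons, List.prod_cons, hm, X, monomial_mul, one_mul]
  obtain ⟨m, hm⟩ := h w
  rw [hm, coeff_monomial]
  split_ifs <;> norm_num

theorem mul_coeff_nonneg {α : Type} [DecidableEq α] (P Q : MvPolynomial α ℤ)
    (hP : ∀ e, 0 ≤ coeff e P) (hQ : ∀ e, 0 ≤ coeff e Q) (e : α →₀ ℕ) : 0 ≤ coeff e (P * Q) := by
  rw [coeff_mul]
  exact Finset.sum_nonneg fun x _ => mul_nonneg (hP _) (hQ _)

/-- From an unambiguous factorization `A* = S C* P` to the prefix code. -/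
theorem of_tiles (hGf : SGf) (hTree : STree) {α : Type} [Fintype α] [DecidableEq α]
    (C : Finset (List α)) (hC : IsCode (C : Set (List α))) (S P : Set (List α)) (hS : S.Finite)
    (hP : P.Finite) (h : Tiles (C : Set (List α)) S P ∅) :
    ∃ D : Finset (List α), IsPrefixCode (D : Set (List α)) ∧
      ∃ F : List α → List α, Set.BijOn F C D ∧ ∀ w ∈ C, (F w).Perm w := by
  have h1 := hGf α C hS.toFinset hP.toFinset ∅ hC (by
    rw [hS.coe_toFinset, hP.coe_toFinset, Finset.coe_empty]
    exact h)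
  have h2 : gf (∅ : Finset (List α)) = 0 := by simp [gf]
  rw [h2, mul_zero, zero_add] at h1
  exact hTree α C _ (fun h => hC.1 (by exact_mod_cast h))
    (mul_coeff_nonneg _ _ (gf_coeff_nonneg _) (gf_coeff_nonneg _)) h1

theorem one_letter {α : Type} [DecidableEq α] (C : Finset (List α))
    (hC : IsCode (C : Set (List α))) (a : α) (ha : [a] ∈ C) (hall : ∀ b : α, b = a) :
    ∃ D : Finset (List α), IsPrefixCode (D : Set (List α)) ∧
      ∃ F : List α → List α, Set.BijOn F C D ∧ ∀ w ∈ C, (F w).Perm w := by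
  have h1 : ∀ w ∈ C, w = [a] := by
    intro w hw
    have h2 : w = List.replicate w.length a := List.eq_replicate_of_mem fun b _ => hall b
    have h3 : [w] = List.replicate w.length [a] := by
      refine hC.2 _ _ (by simpa using hw) ?_ ?_
      · intro c hc
        rw [List.eq_of_mem_replicate hc]
        exact ha
      · rw [List.flatten_replicate_singleton]
        simpa using h2
    have h4 := congrArg List.length h3
    simp at h4
    rw [h2, ← h4]
    rfl
  refine ⟨C, ⟨hC.1, fun u hu v hv _ => ?_⟩, id, Set.bijOn_id _, fun w _ => List.Perm.refl _⟩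
  rw [h1 u (by exact_mod_cast hu), h1 v (by exact_mod_cast hv)]

theorem assembly (hMax : SMax) (hGf : SGf) (hTree : STree) (hCore : SCore) (hDich : SDich)
    (hEnd : SEnd) (hRev : SRev) {α : Type} [Fintype α] [DecidableEq α] (C : Finset (List α))
    (hC : IsCode (C : Set (List α)))
    (hmax : ∀ D : Set (List α), IsCode D → (C : Set (List α)) ⊆ D → D = C) (a : α)
    (ha : [a] ∈ C) (h5 : ∀ w ∈ C, deg a w ≤ 5) :
    ∃ D : Finset (List α), IsPrefixCode (D : Set (List α)) ∧
      ∃ F : List α → List α, Set.BijOn F C D ∧ ∀ w ∈ C, (F w).Perm w := by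
  by_cases hb : ∃ b : α, b ≠ a
  · obtain ⟨b, hb⟩ := hb
    have hS : Setup (C : Set (List α)) a := hMax α C a C.finite_toSet hC hmax (by exact_mod_cast ha)
    rcases hCore α C a b hb hS (by exact_mod_cast h5) with ⟨S, P, hSf, hPf, hT⟩ | hH
    · exact of_tiles hGf hTree C hC S P hSf hPf hT
    · rcases hDich α C a hS hH with h1 | h2
      · obtain ⟨S, P, hSf, hPf, hT⟩ := hEnd α C a b hb hS hH h1
        exact of_tiles hGf hTree C hC S P hSf hPf hT
      · obtain ⟨hS', hH', h3, h4⟩ := hRev α C a hS hH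
        obtain ⟨S, P, hSf, hPf, hT⟩ := hEnd α _ a b hb hS' hH' (h3 h2)
        exact of_tiles hGf hTree C hC _ _ (hPf.image _) (hSf.image _) (h4 S P hT)
  · push Not at hb
    exact one_letter C hC a ha hb

end Pool.Agent.H35.FC
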