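import Pool.Agent.H35.FC.Base

/-!
# Finite maximal codes containing a letter: the degree arguments
-/

set_option autoImplicit false
set_option linter.unusedSectionVars false

namespace Pool.Agent.H35.FC

section CoreRow

variable {α : Type}

private lemma co_star_append {C : Set (List α)} {x y : List α} (hx : x ∈ Star C)
    (hy : y ∈ Star C) : x ++ y ∈ Star C := by
  obtain ⟨L, hL, rfl⟩ := hx
  obtain ⟨M, hM, rfl⟩ := hy
  refine ⟨L ++ M, ?_, by simp⟩
  intro c hc
  rcases List.mem_append.1 hc with h | h
  · exact hL c h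
  · exact hM c h

private lemma co_star_mem {C : Set (List α)} {c : List α} (hc : c ∈ C) : c ∈ Star C :=
  ⟨[c], by simpa using hc, by simp⟩

private lemma co_star_nil {C : Set (List α)} : [] ∈ Star C := ⟨[], by simp, rfl⟩

private lemma co_star_rep {C : Set (List α)} {a : α} (h : [a] ∈ C) (n : ℕ) :
    List.replicate n a ∈ Star C := by
  induction n with
  | zero => exact co_star_nil
  | succ n ih =>
    rw [List.replicate_succ]
    exact co_star_append (x := [a]) (co_star_mem h) ih

private lemma co_rep_add {a : α} {m n : ℕ} (h : n ≤ m) :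
    List.replicate m a = List.replicate (m - n) a ++ List.replicate n a := by
  rw [List.replicate_append_replicate]
  congr 1
  omega

private lemma co_rep_add' {a : α} {m n : ℕ} (h : n ≤ m) :
    List.replicate m a = List.replicate n a ++ List.replicate (m - n) a := by
  rw [List.replicate_append_replicate]
  congr 1
  omega

private lemma co_rc_mono {C : Set (List α)} {a : α} (h : [a] ∈ C) {g : List α} {m n : ℕ}
    (hn : List.replicate n a ++ g ∈ Star C) (hm : n ≤ m) :
    List.replicate m a ++ g ∈ Star C := by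
  rw [co_rep_add hm, List.append_assoc]
  exact co_star_append (co_star_rep h _) hn

private lemma co_lc_mono {C : Set (List α)} {a : α} (h : [a] ∈ C) {f : List α} {m n : ℕ}
    (hn : f ++ List.replicate n a ∈ Star C) (hm : n ≤ m) :
    f ++ List.replicate m a ∈ Star C := by
  rw [co_rep_add' hm, ← List.append_assoc]
  exact co_star_append hn (co_star_rep h _)

/-! ### Finiteness -/

private lemma co_finA {C : Set (List α)} (hC : C.Finite) (a : α) (g : List α) :
    (Aset C a g).Finite := by
  refine (hC.biUnion fun c _ => List.finite_toSet c.sublists).subset ?_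
  rintro v ⟨n, x, p, -, -, -, hc⟩
  simp only [Set.mem_iUnion, Set.mem_ofPred_eq, List.mem_sublists]
  exact ⟨_, hc, List.sublist_append_right _ _⟩

private lemma co_finB {C : Set (List α)} (hC : C.Finite) (a : α) (f : List α) :
    (Bset C a f).Finite := by
  refine (hC.biUnion fun c _ => List.finite_toSet c.sublists).subset ?_
  rintro v ⟨n, s, y, -, -, -, hc⟩
  simp only [Set.mem_iUnion, Set.mem_ofPred_eq, List.mem_sublists]
  exact ⟨_, hc, List.sublist_append_left _ _⟩

private lemma co_finN {C : Set (List α)} (hC : C.Finite) (a : α) (g f : List α) :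
    (Nset C a g f).Finite := by
  refine (hC.biUnion fun c _ => List.finite_toSet c.sublists).subset ?_
  rintro v ⟨n, x, p, s, y, -, -, -, -, -, -, hc⟩
  simp only [Set.mem_iUnion, Set.mem_ofPred_eq, List.mem_sublists]
  exact ⟨_, hc, (List.sublist_append_right _ _).trans (List.sublist_append_left _ _)⟩

/-! ### One more letter in the context -/

private lemma co_A_snoc {C : Set (List α)} {a x : α} {g v : List α}
    (hv : v ∈ Aset C a (g ++ [x])) :
    x :: v ∈ Aset C a g ∨ (RC C a g ∧ x :: v ∈ C) := by
  obtain ⟨n, X, p, hX, hp, he, hc⟩ := hv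
  rcases List.eq_nil_or_concat p with h | ⟨p', z, h⟩
  · exact absurd h hp
  · rw [List.concat_eq_append] at h
    subst h
    have h1 : (List.replicate n a ++ g) ++ [x] = (X ++ p') ++ [z] := by
      simpa using he
    obtain ⟨h2, h3⟩ := List.append_inj' h1 rfl
    have h4 : x = z := by simpa using h3
    subst h4
    rcases eq_or_ne p' [] with h5 | h5
    · subst h5
      right
      refine ⟨⟨n, ?_⟩, by simpa using hc⟩
      rw [h2, List.append_nil]
      exact hX
    · left
      exact ⟨n, X, p', hX, h5, h2, by simpa using hc⟩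

private lemma co_B_cons {C : Set (List α)} {a x : α} {f v : List α}
    (hv : v ∈ Bset C a (x :: f)) :
    v ++ [x] ∈ Bset C a f ∨ (LC C a f ∧ v ++ [x] ∈ C) := by
  obtain ⟨n, s, y, hy, hs, he, hc⟩ := hv
  cases s with
  | nil => exact absurd rfl hs
  | cons z s' =>
    have h1 : x :: (f ++ List.replicate n a) = z :: (s' ++ y) := by
      simpa using he
    obtain ⟨h2, h3⟩ := List.cons.inj h1
    subst h2
    rcases eq_or_ne s' [] with h5 | h5
    · subst h5
      right
      refine ⟨⟨n, ?_⟩, by simpa using hc⟩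
      rw [h3, List.nil_append]
      exact hy
    · left
      exact ⟨n, s', y, hy, h5, h3, by simpa using hc⟩

/-! ### The sets are not empty -/

private lemma co_A_ne (hspl : SSplit) {C : Set (List α)} {a : α} (hS : Setup C a) (g : List α) :
    (Aset C a g).Nonempty := by
  obtain ⟨n, hn⟩ := hS.comp g
  rcases hspl α C _ _ hn with ⟨h1, -⟩ | ⟨X, p, s, Y, hX, hY, hp, hs, hc, h1, h2⟩
  · have h2 : List.replicate (n + 1) a ++ g ∈ Star C := co_rc_mono hS.mem h1 (Nat.le_succ n)
    obtain ⟨L, hL, he⟩ := h2
    rcases List.eq_nil_or_concat L with h | ⟨L', c, h⟩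
    · subst h
      simp [List.replicate_succ] at he
    · rw [List.concat_eq_append] at h
      subst h
      refine ⟨[], n + 1, L'.flatten, c, ⟨L', fun c hc => hL c (by simp [hc]), rfl⟩, ?_, ?_, ?_⟩
      · intro h
        apply hS.code.1
        rw [← h]
        exact hL c (by simp)
      · rw [← he]
        simp
      · rw [List.append_nil]
        exact hL c (by simp)
  · exact ⟨s, n, X, p, hX, hp, h1, hc⟩

private lemma co_B_ne (hspl : SSplit) {C : Set (List α)} {a : α} (hS : Setup C a) (f : List α) :
    (Bset C a f).Nonempty := by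
  obtain ⟨n, hn⟩ := hS.comp f
  rw [List.append_assoc] at hn
  rcases hspl α C _ _ hn with ⟨-, h1⟩ | ⟨X, p, s, Y, hX, hY, hp, hs, hc, h1, h2⟩
  · have h2 : f ++ List.replicate (n + 1) a ∈ Star C := co_lc_mono hS.mem h1 (Nat.le_succ n)
    obtain ⟨L, hL, he⟩ := h2
    cases L with
    | nil => simp at he
    | cons c L' =>
      refine ⟨[], n + 1, c, L'.flatten, ⟨L', fun c hc => hL c (by simp [hc]), rfl⟩, ?_, ?_, ?_⟩
      · intro h
        apply hS.code.1
        rw [← h]
        exact hL c (by simp)
      · rw [← he]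
        simp
      · rw [List.nil_append]
        exact hL c (by simp)
  · exact ⟨p, n, s, Y, hY, hs, h2, hc⟩

/-! ### Degrees -/

variable [DecidableEq α]

private lemma co_deg_append (a : α) (u v : List α) : deg a (u ++ v) = deg a u + deg a v := by
  unfold deg
  rw [List.countP_append]

private lemma co_deg_cons {a b : α} (h : b ≠ a) (v : List α) : deg a (b :: v) = deg a v + 1 := by
  unfold deg
  rw [List.countP_cons]
  simp [h]

private lemma co_deg_snoc {a b : α} (h : b ≠ a) (v : List α) : deg a (v ++ [b]) = deg a v + 1 := by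
  rw [co_deg_append, co_deg_cons h]
  rfl

private lemma co_deg_zero {a : α} {w : List α} (h : deg a w = 0) :
    w = List.replicate w.length a := by
  apply List.eq_replicate_of_mem
  intro x hx
  unfold deg at h
  rw [List.countP_eq_zero] at h
  simpa using h x hx

private lemma co_last {a : α} {w : List α} (h : deg a w ≠ 0) :
    ∃ (u : List α) (b : α) (t : ℕ), b ≠ a ∧ w = u ++ b :: List.replicate t a := by
  induction w using List.reverseRecOn with
  | nil => exact absurd rfl h
  | append_singleton w x ih =>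
    by_cases hx : x = a
    · subst hx
      have h1 : deg x w ≠ 0 := by
        intro h2
        apply h
        rw [co_deg_append, h2]
        unfold deg
        simp
      obtain ⟨u, b, t, hb, rfl⟩ := ih h1
      refine ⟨u, b, t + 1, hb, ?_⟩
      rw [List.replicate_succ']
      simp
    · exact ⟨w, x, 0, hx, by simp⟩

private lemma co_first {a : α} {w : List α} (h : deg a w ≠ 0) :
    ∃ (u : List α) (b : α) (t : ℕ), b ≠ a ∧ w = List.replicate t a ++ b :: u := by
  induction w with
  | nil => exact absurd rfl h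
  | cons x w ih =>
    by_cases hx : x = a
    · subst hx
      have h1 : deg x w ≠ 0 := by
        intro h2
        apply h
        rw [← List.singleton_append, co_deg_append, h2]
        unfold deg
        simp
      obtain ⟨u, b, t, hb, rfl⟩ := ih h1
      refine ⟨u, b, t + 1, hb, ?_⟩
      rw [List.replicate_succ]
      simp
    · exact ⟨w, x, 0, hx, by simp⟩

private lemma co_A_deg {C : Set (List α)} {a b : α} (hb : b ≠ a) {d : ℕ}
    (hd : ∀ c ∈ C, deg a c ≤ d) {g v : List α} (hv : v ∈ Aset C a (g ++ [b])) :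
    deg a v + 1 ≤ d := by
  rcases co_A_snoc hv with h | ⟨-, h⟩
  · obtain ⟨n, X, p, -, -, -, hc⟩ := h
    have h1 := hd _ hc
    rw [co_deg_append, co_deg_cons hb] at h1
    omega
  · have h1 := hd _ h
    rwa [co_deg_cons hb] at h1

private lemma co_B_deg {C : Set (List α)} {a b : α} (hb : b ≠ a) {d : ℕ}
    (hd : ∀ c ∈ C, deg a c ≤ d) {f v : List α} (hv : v ∈ Bset C a (b :: f)) :
    deg a v + 1 ≤ d := by
  rcases co_B_cons hv with h | ⟨-, h⟩
  · obtain ⟨n, s, y, -, -, -, hc⟩ := h
    have h1 := hd _ hc
    rw [co_deg_append, co_deg_snoc hb] at h1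
    omega
  · have h1 := hd _ h
    rwa [co_deg_snoc hb] at h1

/-- (P3) -/
private lemma co_N_deg (hcut : SCut) {C : Set (List α)} {a : α} (hS : Setup C a) {g f : List α}
    (hr : RC C a g) (hl : LC C a f) {u : List α} (hu : u ∈ Nset C a g f) : deg a u ≠ 0 := by
  intro h0
  obtain ⟨n, x, p, s, y, hx, hy, hp, hs, h1, h2, hc⟩ := hu
  obtain ⟨k, hk⟩ := hr
  obtain ⟨l, hl⟩ := hl
  have hu0 := co_deg_zero h0
  set M := n + k + l with hM
  have e1 : List.replicate M a ++ g ∈ Star C := co_rc_mono hS.mem hk (by omega)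
  have e2 : u ++ (f ++ List.replicate M a) ∈ Star C := by
    apply co_star_append
    · rw [hu0]
      exact co_star_rep hS.mem _
    · exact co_lc_mono hS.mem hl (by omega)
  have e3 : List.replicate (M - n) a ++ x ∈ Star C := co_star_append (co_star_rep hS.mem _) hx
  have e4 : y ++ List.replicate (M - n) a ∈ Star C := co_star_append hy (co_star_rep hS.mem _)
  have e5 : (List.replicate M a ++ g) ++ (u ++ (f ++ List.replicate M a)) =
      (List.replicate (M - n) a ++ x) ++ ((p ++ u ++ s) ++ (y ++ List.replicate (M - n) a)) := by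
    have e6 : List.replicate M a ++ g = List.replicate (M - n) a ++ (x ++ p) := by
      rw [← h1, ← List.append_assoc, ← co_rep_add (by omega)]
    have e7 : f ++ List.replicate M a = (s ++ y) ++ List.replicate (M - n) a := by
      rw [← h2, List.append_assoc, ← co_rep_add' (by omega)]
    rw [e6, e7]
    simp
  have e8 := hcut α C hS.code _ _ _ _ _ e1 e2 e3 hc e4 e5
  have l1 := congrArg List.length h1
  have l2 : 0 < p.length := List.length_pos_iff.2 hp
  have l3 : 0 < s.length := List.length_pos_iff.2 hs
  simp only [List.length_append, List.length_replicate] at e8 l1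
  omega

private lemma co_rep_mem {C : Set (List α)} {a : α} (hS : Setup C a) {k : ℕ}
    (h : List.replicate k a ∈ C) : k = 1 := by
  have h1 := hS.code.2 [List.replicate k a] (List.replicate k [a]) (by simpa using h)
    (by
      intro c hc
      rw [List.eq_of_mem_replicate hc]
      exact hS.mem) (by simp)
  have h2 := congrArg List.length h1
  simpa using h2.symm

private lemma co_rep_left {a : α} {n : ℕ} {x p : List α} (h : List.replicate n a = x ++ p) :
    x = List.replicate x.length a ∧ p = List.replicate p.length a := by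
  constructor
  · apply List.eq_replicate_of_mem
    intro z hz
    apply List.eq_of_mem_replicate (n := n)
    rw [h]
    exact List.mem_append_left _ hz
  · apply List.eq_replicate_of_mem
    intro z hz
    apply List.eq_of_mem_replicate (n := n)
    rw [h]
    exact List.mem_append_right _ hz

/-- If all contexts that end with another letter are complete then one codeword cannot meet both
contexts `a^∞`. -/
private lemma co_N_empty (hcut : SCut) {C : Set (List α)} {a : α} (hS : Setup C a)
    (hr : ∀ (g : List α) (b : α), b ≠ a → RC C a (g ++ [b])) : Nset C a [] [] = ∅ := by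
  rw [Set.eq_empty_iff_forall_notMem]
  rintro u ⟨n, x, p, s, y, hx, hy, hp, hs, h1, h2, hc⟩
  rw [List.append_nil] at h1
  rw [List.nil_append] at h2
  obtain ⟨-, h3⟩ := co_rep_left h1
  obtain ⟨h4, -⟩ := co_rep_left h2
  have l2 : 0 < p.length := List.length_pos_iff.2 hp
  have l3 : 0 < s.length := List.length_pos_iff.2 hs
  by_cases h0 : deg a u = 0
  · have h5 := co_deg_zero h0
    rw [h3, h4, h5, List.replicate_append_replicate, List.replicate_append_replicate] at hc
    have := co_rep_mem hS hc
    omega
  · obtain ⟨u', b, t, hb, rfl⟩ := co_last h0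
    obtain ⟨m, hm⟩ := hr u' b hb
    have e1 : List.replicate (m + p.length) a ++ (u' ++ [b]) ∈ Star C :=
      co_rc_mono hS.mem hm (by omega)
    have e2 : List.replicate t a ++ s ∈ Star C := by
      rw [h4]
      exact co_star_append (co_star_rep hS.mem _) (co_star_rep hS.mem _)
    have e5 : (List.replicate (m + p.length) a ++ (u' ++ [b])) ++ (List.replicate t a ++ s) =
        List.replicate m a ++ ((p ++ (u' ++ b :: List.replicate t a) ++ s) ++ []) := by
      have e6 : List.replicate (m + p.length) a = List.replicate m a ++ p := by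
        rw [List.replicate_add, ← h3]
      rw [e6]
      simp
    have e8 := hcut α C hS.code _ _ _ _ _ e1 e2 (co_star_rep hS.mem m) hc co_star_nil e5
    simp only [List.length_append, List.length_replicate, List.length_cons, List.length_nil] at e8
    omega

private lemma co_N_empty' (hcut : SCut) {C : Set (List α)} {a : α} (hS : Setup C a)
    (hl : ∀ (f : List α) (b : α), b ≠ a → LC C a (b :: f)) : Nset C a [] [] = ∅ := by
  rw [Set.eq_empty_iff_forall_notMem]
  rintro u ⟨n, x, p, s, y, hx, hy, hp, hs, h1, h2, hc⟩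
  rw [List.append_nil] at h1
  rw [List.nil_append] at h2
  obtain ⟨-, h3⟩ := co_rep_left h1
  obtain ⟨h4, -⟩ := co_rep_left h2
  have l2 : 0 < p.length := List.length_pos_iff.2 hp
  have l3 : 0 < s.length := List.length_pos_iff.2 hs
  by_cases h0 : deg a u = 0
  · have h5 := co_deg_zero h0
    rw [h3, h4, h5, List.replicate_append_replicate, List.replicate_append_replicate] at hc
    have := co_rep_mem hS hc
    omega
  · obtain ⟨u', b, t, hb, rfl⟩ := co_first h0
    obtain ⟨m, hm⟩ := hl u' b hb
    have e1 : (b :: u') ++ List.replicate (s.length + m) a ∈ Star C :=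
      co_lc_mono hS.mem hm (by omega)
    have e2 : p ++ List.replicate t a ∈ Star C := by
      rw [h3]
      exact co_star_append (co_star_rep hS.mem _) (co_star_rep hS.mem _)
    have e5 : (p ++ List.replicate t a) ++ ((b :: u') ++ List.replicate (s.length + m) a) =
        [] ++ ((p ++ (List.replicate t a ++ b :: u') ++ s) ++ List.replicate m a) := by
      have e6 : List.replicate (s.length + m) a = s ++ List.replicate m a := by
        rw [List.replicate_add, ← h4]
      rw [e6]
      simp
    have e8 := hcut α C hS.code _ _ _ _ _ e2 e1 co_star_nil hc (co_star_rep hS.mem m) e5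
    simp only [List.length_append, List.length_replicate, List.length_cons, List.length_nil] at e8
    omega

/-- (F1) -/
private lemma co_F1 {C : Set (List α)} {a : α} (hS : Setup C a) (hd : ∀ c ∈ C, deg a c ≤ 5)
    {g : List α} (hg : ¬ RC C a g) {b : α} (hb : b ≠ a) : g ++ [b] ∈ Gmin C a := by
  intro v hv
  rcases co_A_snoc hv with ⟨n, X, p, hX, hp, he, hc⟩ | ⟨h, -⟩
  · have h1 : deg a p ≠ 0 := by
      intro h0
      apply hg
      refine ⟨n, ?_⟩
      rw [he, co_deg_zero h0]
      exact co_star_append hX (co_star_rep hS.mem _)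
    have h2 := hd _ hc
    rw [co_deg_append, co_deg_cons hb] at h2
    omega
  · exact absurd h hg

private lemma co_F1' {C : Set (List α)} {a : α} (hS : Setup C a) (hd : ∀ c ∈ C, deg a c ≤ 5)
    {f : List α} (hf : ¬ LC C a f) {b : α} (hb : b ≠ a) : b :: f ∈ Fmin C a := by
  intro v hv
  rcases co_B_cons hv with ⟨n, s, y, hy, hs, he, hc⟩ | ⟨h, -⟩
  · have h1 : deg a s ≠ 0 := by
      intro h0
      apply hf
      refine ⟨n, ?_⟩
      rw [he, co_deg_zero h0]
      exact co_star_append (co_star_rep hS.mem _) hy
    have h2 := hd _ hc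
    rw [co_deg_append, co_deg_snoc hb] at h2
    omega
  · exact absurd h hf

/-- A left context whose degree is minimal is complete. -/
private lemma co_min_rc (hspl : SSplit) {C : Set (List α)} {a b : α} (hb : b ≠ a)
    (hS : Setup C a) {k : ℕ} (hk : ∀ m < k, ¬ ∃ g, ∀ v ∈ Aset C a g, deg a v ≤ m)
    {g : List α} (hg : ∀ v ∈ Aset C a g, deg a v ≤ k) : RC C a g := by
  by_contra hr
  have h1 : ∀ v ∈ Aset C a (g ++ [b]), deg a v + 1 ≤ k := by
    intro v hv
    rcases co_A_snoc hv with h | ⟨h, -⟩
    · have h2 := hg _ h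
      rwa [co_deg_cons hb] at h2
    · exact absurd h hr
  obtain ⟨v0, hv0⟩ := co_A_ne hspl hS (g ++ [b])
  have h2 := h1 v0 hv0
  refine hk (k - 1) (by omega) ⟨g ++ [b], fun v hv => ?_⟩
  have := h1 v hv
  omega

private lemma co_min_lc (hspl : SSplit) {C : Set (List α)} {a b : α} (hb : b ≠ a)
    (hS : Setup C a) {k : ℕ} (hk : ∀ m < k, ¬ ∃ f, ∀ v ∈ Bset C a f, deg a v ≤ m)
    {f : List α} (hf : ∀ v ∈ Bset C a f, deg a v ≤ k) : LC C a f := by
  by_contra hr
  have h1 : ∀ v ∈ Bset C a (b :: f), deg a v + 1 ≤ k := by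
    intro v hv
    rcases co_B_cons hv with h | ⟨h, -⟩
    · have h2 := hf _ h
      rwa [co_deg_snoc hb] at h2
    · exact absurd h hr
  obtain ⟨v0, hv0⟩ := co_B_ne hspl hS (b :: f)
  have h2 := h1 v0 hv0
  refine hk (k - 1) (by omega) ⟨b :: f, fun v hv => ?_⟩
  have := h1 v hv
  omega

end CoreRow

theorem coreP0 (hcut : SCut) (hspl : SSplit) (hpart : SPart) (hdeg : SDeg) : SCore := by
  classical
  intro α _ _ C a b hb hS h5
  by_cases hN : ∃ g f, Nset C a g f = ∅
  · obtain ⟨g, f, hgf⟩ := hN
    left
    refine ⟨Aset C a g, Bset C a f, co_finA hS.fin a g, co_finB hS.fin a f, ?_⟩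
    rw [← hgf]
    exact hpart α C a hS g f
  right
  have hne : ∀ g f, (Nset C a g f).Nonempty := by
    intro g f
    rw [Set.nonempty_iff_ne_empty]
    exact fun h => hN ⟨g, f, h⟩
  -- the maximal degree
  obtain ⟨c0, hc0, hd⟩ := hS.fin.exists_maximalFor (deg a) C ⟨[a], hS.mem⟩
  have hmax : ∀ c ∈ C, deg a c ≤ deg a c0 := by
    intro c hc
    rcases le_total (deg a c) (deg a c0) with h | h
    · exact h
    · exact hd hc h
  have hd5 := h5 c0 hc0
  set d := deg a c0 with hdd
  -- the minimal degrees
  have hσ : ∃ k, ∃ g, ∀ v ∈ Aset C a g, deg a v ≤ k :=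
    ⟨d, [b], fun v hv => by
      have := co_A_deg (g := []) hb hmax hv
      omega⟩
  have hτ : ∃ k, ∃ f, ∀ v ∈ Bset C a f, deg a v ≤ k :=
    ⟨d, [b], fun v hv => by
      have := co_B_deg (f := []) hb hmax hv
      omega⟩
  set σ := Nat.find hσ with hσd
  set τ := Nat.find hτ with hτd
  have hσm : ∀ m < σ, ¬ ∃ g, ∀ v ∈ Aset C a g, deg a v ≤ m := fun m hm => Nat.find_min hσ hm
  have hτm : ∀ m < τ, ¬ ∃ f, ∀ v ∈ Bset C a f, deg a v ≤ m := fun m hm => Nat.find_min hτ hm
  obtain ⟨g0, hg0⟩ := Nat.find_spec hσ
  obtain ⟨f0, hf0⟩ := Nat.find_spec hτ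
  have hrc : ∀ g, (∀ v ∈ Aset C a g, deg a v ≤ σ) → RC C a g := fun g hg =>
    co_min_rc hspl hb hS hσm hg
  have hlc : ∀ f, (∀ v ∈ Bset C a f, deg a v ≤ τ) → LC C a f := fun f hf =>
    co_min_lc hspl hb hS hτm hf
  have hσd2 : σ + 2 ≤ d := by
    by_contra hcon
    have h1 : Nset C a [] [] = ∅ := by
      apply co_N_empty hcut hS
      intro g b' hb'
      apply hrc
      intro v hv
      have := co_A_deg hb' hmax hv
      omega
    exact hN ⟨[], [], h1⟩
  have hτd2 : τ + 2 ≤ d := by
    by_contra hcon
    have h1 : Nset C a [] [] = ∅ := by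
      apply co_N_empty' hcut hS
      intro f b' hb'
      apply hlc
      intro v hv
      have := co_B_deg hb' hmax hv
      omega
    exact hN ⟨[], [], h1⟩
  have key : ∀ g f, (∀ v ∈ Aset C a g, deg a v ≤ σ) → (∀ v ∈ Bset C a f, deg a v ≤ τ) →
      ∀ u ∈ Nset C a g f, d + deg a u ≤ σ + τ ∧ deg a u ≠ 0 := by
    intro g f hg hf u hu
    refine ⟨?_, co_N_deg hcut hS (hrc g hg) (hlc f hf) hu⟩
    have ht := hpart α C a hS g f
    obtain ⟨s, hs, p, hp, hsp⟩ := hdeg α hS.fin.toFinset (co_finA hS.fin a g).toFinset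
      (co_finB hS.fin a f).toFinset (co_finN hS.fin a g f).toFinset a b hb
      (by rw [Set.Finite.coe_toFinset]; exact hS.code)
      (by simpa only [Set.Finite.coe_toFinset] using ht) u
      ((Set.Finite.mem_toFinset _).2 hu) c0 ((Set.Finite.mem_toFinset _).2 hc0)
    rw [Set.Finite.mem_toFinset] at hs hp
    have h1 := hg s hs
    have h2 := hf p hp
    omega
  obtain ⟨u0, hu0⟩ := hne g0 f0
  have hk0 := key g0 f0 hg0 hf0 u0 hu0
  have h3 : σ = 3 ∧ τ = 3 ∧ d = 5 := by omega
  obtain ⟨hs3, ht3, hd3⟩ := h3
  rw [hs3] at hrc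
  rw [ht3] at hlc
  rw [hs3, ht3, hd3] at key
  refine ⟨hne, ⟨g0, ?_⟩, ⟨f0, ?_⟩, fun g hg => hrc g hg, fun f hf => hlc f hf, ?_, ?_, ?_⟩
  · intro v hv
    have := hg0 v hv
    omega
  · intro v hv
    have := hf0 v hv
    omega
  · intro g hg b' hb'
    exact co_F1 hS h5 hg hb'
  · intro f hf b' hb'
    exact co_F1' hS h5 hf hb'
  · intro g hg f hf u hu
    have := key g f hg hf u hu
    omega

theorem coreP : SPart → SDeg → SCore := coreP0 cut split

end Pool.Agent.H35.FC
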