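import Mathlib

namespace Pool.Agent.H35.FC

open SimpleGraph Finset

variable {V : Type} [Fintype V] [DecidableEq V]

/-- A nonempty set of edges meeting every vertex in an even number of edges contains a cycle. -/
theorem exists_cycle (G : SimpleGraph V)
    (D : Finset (Sym2 V)) (hD : ∀ e ∈ D, e ∈ G.edgeSet) (hne : D.Nonempty)
    (hev : ∀ v : V, Even (D.filter (fun e => v ∈ e)).card) :
    ∃ (v : V) (c : G.Walk v v), c.IsCycle ∧ ∀ e ∈ c.edges, e ∈ D := by
  classical
  set H : SimpleGraph V := SimpleGraph.fromEdgeSet (D : Set (Sym2 V)) with hH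
  have hadj : ∀ a b : V, H.Adj a b ↔ s(a, b) ∈ D := by
    intro a b
    rw [hH, SimpleGraph.fromEdgeSet_adj]
    constructor
    · rintro ⟨h, _⟩
      exact h
    · intro h
      exact ⟨h, (G.mem_edgeSet.1 (hD _ h)).ne⟩
  have hle : H ≤ G := by
    intro a b hab
    exact G.mem_edgeSet.1 (hD _ ((hadj a b).1 hab))
  obtain ⟨e₀, he₀⟩ := hne
  have hnot : ¬ H.IsAcyclic := by
    intro hac
    obtain ⟨a, b, rfl⟩ : ∃ a b, e₀ = s(a, b) := by
      induction e₀ with | _ a b => exact ⟨a, b, rfl⟩
    have : Nonempty V := ⟨a⟩
    obtain ⟨u, v, p, hp, hmax⟩ := SimpleGraph.Walk.exists_isPath_forall_isPath_length_le_length H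
    have hab : H.Adj a b := (hadj a b).2 he₀
    have hlen : 1 ≤ p.length := by
      have := hmax a b hab.toWalk (SimpleGraph.Walk.IsPath.of_adj hab)
      simpa using this
    have hnil : ¬ p.Nil := by
      intro h
      have := SimpleGraph.Walk.length_eq_zero_iff.2 h
      omega
    have hpen : H.Adj p.penultimate v := p.adj_penultimate hnil
    have hmem : s(p.penultimate, v) ∈ D.filter (fun e => v ∈ e) := by
      rw [Finset.mem_filter]
      exact ⟨(hadj _ _).1 hpen, Sym2.mem_mk_right _ _⟩
    have hcard : 1 < (D.filter (fun e => v ∈ e)).card := by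
      have h1 : 0 < (D.filter (fun e => v ∈ e)).card := Finset.card_pos.2 ⟨_, hmem⟩
      obtain ⟨k, hk⟩ := hev v
      omega
    obtain ⟨e', he', hne'⟩ := Finset.exists_mem_ne hcard s(p.penultimate, v)
    rw [Finset.mem_filter] at he'
    obtain ⟨x, rfl⟩ := he'.2
    have hvx : H.Adj v x := (hadj _ _).2 he'.1
    have hxs : x ∉ p.support := by
      intro hx
      have := hac.eq_penultimate_of_adj_end hp hvx hx
      apply hne'
      rw [this, Sym2.eq_swap]
    have := hmax u x (p.concat hvx) (hp.concat hxs hvx)
    rw [SimpleGraph.Walk.length_concat] at this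
    omega
  unfold SimpleGraph.IsAcyclic at hnot
  push Not at hnot
  obtain ⟨v, c, hc⟩ := hnot
  refine ⟨v, c.mapLe hle, hc.mapLe hle, ?_⟩
  intro e he
  have he' : e ∈ c.edges := by
    rw [SimpleGraph.Walk.edges_mapLe_eq_edges] at he
    exact he
  have h2 := c.edges_subset_edgeSet he'
  induction e with
  | _ a b => exact (hadj a b).1 h2

omit [Fintype V] in
/-- The edges of a closed trail meet every vertex an even number of times. -/
theorem even_cycle {G : SimpleGraph V} {v : V} (c : G.Walk v v) (hc : c.IsCycle) (x : V) :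
    Even ((c.edges.toFinset).filter (fun e => x ∈ e)).card := by
  classical
  have hnd : c.edges.Nodup := hc.isTrail.edges_nodup
  have h1 : Even (c.edges.countP fun e => x ∈ e) := by
    rw [hc.isTrail.even_countP_edges_iff]
    intro h
    exact absurd rfl h
  have h2 : ((c.edges.toFinset).filter (fun e => x ∈ e)).card = c.edges.countP fun e => x ∈ e := by
    have h3 : (c.edges.toFinset).filter (fun e => x ∈ e)
        = (c.edges.filter (fun e => decide (x ∈ e))).toFinset := by
      ext e
      simp
    rw [List.countP_eq_length_filter, h3, List.toFinset_card_of_nodup (hnd.filter _)]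
  rw [h2]
  exact h1

theorem cycles_of_even {V : Type} [Fintype V] [DecidableEq V] (G : SimpleGraph V)
    [DecidableRel G.Adj]
    (D : Finset (Sym2 V)) (hD : ∀ e ∈ D, e ∈ G.edgeSet)
    (hev : ∀ v : V, Even (D.filter (fun e => v ∈ e)).card) :
    ∃ (n : ℕ) (c : Fin n → Σ v : V, G.Walk v v), (∀ i, (c i).2.IsCycle) ∧
      ∀ e : Sym2 V, (Finset.univ.filter (fun i => e ∈ (c i).2.edges)).card
        = if e ∈ D then 1 else 0 := by
  induction hk : D.card using Nat.strong_induction_on generalizing D with
  | _ k ih =>
    by_cases hne : D.Nonempty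
    · obtain ⟨v, c, hc, hcD⟩ := exists_cycle G D hD hne hev
      set C : Finset (Sym2 V) := c.edges.toFinset with hC
      have hCD : C ⊆ D := by
        intro e he
        exact hcD e (List.mem_toFinset.1 he)
      have hCne : C.Nonempty := by
        have h3 := hc.three_le_length
        rw [← SimpleGraph.Walk.length_edges] at h3
        obtain ⟨e, he⟩ := List.exists_mem_of_length_pos (by omega : 0 < c.edges.length)
        exact ⟨e, List.mem_toFinset.2 he⟩
      have hlt : (D \ C).card < k := by
        rw [← hk]
        apply Finset.card_lt_card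
        rw [Finset.ssubset_iff_subset_ne]
        refine ⟨Finset.sdiff_subset, ?_⟩
        intro h
        obtain ⟨e, he⟩ := hCne
        have := hCD he
        rw [← h, Finset.mem_sdiff] at this
        exact this.2 he
      have hev' : ∀ x : V, Even ((D \ C).filter (fun e => x ∈ e)).card := by
        intro x
        have h1 : ((D \ C).filter (fun e => x ∈ e)).card
            + (C.filter (fun e => x ∈ e)).card = (D.filter (fun e => x ∈ e)).card := by
          rw [← Finset.card_union_of_disjoint]
          · rw [← Finset.filter_union, Finset.sdiff_union_of_subset hCD]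
          · apply Finset.disjoint_filter_filter
            exact Finset.sdiff_disjoint
        have h2 := even_cycle c hc x
        rw [← hC] at h2
        have h3 := hev x
        rw [← h1] at h3
        exact (Nat.even_add.1 h3).2 h2
      obtain ⟨n, c', hc', hcount⟩ := ih _ hlt (D \ C)
        (fun e he => hD e (Finset.mem_sdiff.1 he).1) hev' rfl
      obtain ⟨cc, h0, hs⟩ : ∃ cc : Fin (n + 1) → Σ v : V, G.Walk v v,
          cc 0 = ⟨v, c⟩ ∧ ∀ j : Fin n, cc j.succ = c' j :=
        ⟨Fin.cons ⟨v, c⟩ c', rfl, fun _ => rfl⟩
      refine ⟨n + 1, cc, ?_, ?_⟩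
      · intro i
        refine Fin.cases ?_ ?_ i
        · rw [h0]
          exact hc
        · intro j
          rw [hs]
          exact hc' j
      · intro e
        have e0 : (cc 0).2.edges = c.edges := by rw [h0]
        have es : ∀ j : Fin n, (cc j.succ).2.edges = (c' j).2.edges := fun j => by rw [hs]
        rw [Finset.card_filter, Fin.sum_univ_succ]
        simp only [e0, es]
        rw [← Finset.card_filter, hcount e]
        by_cases heC : e ∈ c.edges
        · have : e ∈ C := List.mem_toFinset.2 heC
          have h4 : e ∈ D := hCD this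
          simp [heC, h4, this]
        · have : e ∉ C := fun h => heC (List.mem_toFinset.1 h)
          simp [heC, this]
    · rw [Finset.not_nonempty_iff_eq_empty] at hne
      refine ⟨0, fun i => i.elim0, fun i => i.elim0, ?_⟩
      intro e
      simp [hne]

theorem cycles_of_even_family {V : Type} [Fintype V] [DecidableEq V] (G : SimpleGraph V)
    [DecidableRel G.Adj] {J : Type} [Fintype J]
    (D : J → Finset (Sym2 V)) (hD : ∀ j, ∀ e ∈ D j, e ∈ G.edgeSet)
    (hev : ∀ j v, Even ((D j).filter (fun e => v ∈ e)).card) :
    ∃ (n : ℕ) (c : Fin n → Σ v : V, G.Walk v v), (∀ i, (c i).2.IsCycle) ∧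
      ∀ e : Sym2 V, (Finset.univ.filter (fun i => e ∈ (c i).2.edges)).card
        = (Finset.univ.filter (fun j => e ∈ D j)).card := by
  classical
  choose n c hc hcount using fun j => cycles_of_even G (D j) (hD j) (hev j)
  let I : Type := Σ j : J, Fin (n j)
  let N : ℕ := Fintype.card I
  let φ : I ≃ Fin N := Fintype.equivFin I
  refine ⟨N, fun i => c (φ.symm i).1 (φ.symm i).2, fun i => hc _ _, ?_⟩
  intro e
  rw [Finset.card_filter]
  rw [Equiv.sum_comp φ.symm (fun q : I => if e ∈ (c q.1 q.2).2.edges then 1 else 0)]
  rw [Fintype.sum_sigma]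
  rw [Finset.card_filter]
  apply Finset.sum_congr rfl
  intro j _
  rw [← hcount j e, Finset.card_filter]

end Pool.Agent.H35.FC
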