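import Pool.Agent.H35.FC.Stm

/-!
# Row 5: the degree inequality
-/

set_option autoImplicit false

namespace Pool.Agent.H35.FC

open Finset

section
variable {α : Type} [DecidableEq α]

/-- the substitution `a ↦ 1`, all other letters `↦ X` -/
private noncomputable def dsub (a : α) : MvPolynomial α ℤ →+* Polynomial ℤ :=
  MvPolynomial.eval₂Hom Polynomial.C (fun x => if x = a then 1 else Polynomial.X)

private lemma dsub_X (a x : α) :
    dsub a (MvPolynomial.X x) = if x = a then 1 else Polynomial.X := by
  simp [dsub]

private lemma dsub_word (a : α) (w : List α) :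
    dsub a ((w.map MvPolynomial.X).prod) = Polynomial.X ^ (deg a w) := by
  induction w with
  | nil => simp [deg]
  | cons x w ih =>
    rw [List.map_cons, List.prod_cons, map_mul, ih, dsub_X]
    unfold deg
    rw [List.countP_cons]
    by_cases h : x = a
    · simp [h]
    · rw [if_neg h]
      simp only [ne_eq, h, not_false_eq_true, decide_true, if_true]
      rw [pow_succ, mul_comm]

/-- degree enumerator of a finite set of words -/
private noncomputable def dpol (a : α) (L : Finset (List α)) : Polynomial ℤ :=
  ∑ w ∈ L, Polynomial.X ^ (deg a w)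

private lemma dsub_gf (a : α) (L : Finset (List α)) : dsub a (gf L) = dpol a L := by
  unfold gf dpol
  rw [map_sum]
  exact Finset.sum_congr rfl fun w _ => dsub_word a w

private lemma dpol_coeff (a : α) (L : Finset (List α)) (k : ℕ) :
    (dpol a L).coeff k = ((L.filter (fun w => deg a w = k)).card : ℤ) := by
  unfold dpol
  rw [Polynomial.finsetSum_coeff, Finset.card_filter]
  push_cast
  refine Finset.sum_congr rfl fun w _ => ?_
  rw [Polynomial.coeff_X_pow]
  by_cases h : k = deg a w
  · simp [h]
  · rw [if_neg h, if_neg (fun h' => h h'.symm)]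

private lemma dpol_mul_coeff (a : α) (L M : Finset (List α)) (k : ℕ) :
    (dpol a L * dpol a M).coeff k =
      (((L ×ˢ M).filter (fun t => deg a t.1 + deg a t.2 = k)).card : ℤ) := by
  unfold dpol
  rw [Finset.sum_mul_sum, ← Finset.sum_product', Polynomial.finsetSum_coeff, Finset.card_filter]
  push_cast
  refine Finset.sum_congr rfl fun t _ => ?_
  rw [← pow_add, Polynomial.coeff_X_pow]
  by_cases h : k = deg a t.1 + deg a t.2
  · simp [h]
  · rw [if_neg h, if_neg (fun h' => h h'.symm)]

end

/-- Row 5: the degree inequality. -/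
theorem degP : SGf → SDeg := by
  intro hgf α _ _ C S P N a b hb hC hT u hu c hc
  by_contra hcon
  push Not at hcon
  -- the main identity
  have hE := congrArg (dsub a) (hgf α C S P N hC hT)
  have hs : dsub a (∑ x : α, (MvPolynomial.X x : MvPolynomial α ℤ)) =
      1 + ((univ.erase a).card : Polynomial ℤ) * Polynomial.X := by
    rw [map_sum, ← Finset.add_sum_erase univ _ (mem_univ a), dsub_X, if_pos rfl]
    congr 1
    rw [Finset.sum_congr rfl (fun x hx => by rw [dsub_X, if_neg (Finset.ne_of_mem_erase hx)])]
    rw [Finset.sum_const, nsmul_eq_mul]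
  set m : ℕ := (univ.erase a).card with hm
  have hm1 : 0 < m := Finset.card_pos.2 ⟨b, Finset.mem_erase.2 ⟨hb, mem_univ b⟩⟩
  rw [map_sub, map_one, map_mul, map_sub, map_one, hs, map_add, map_mul, map_mul, map_sub,
    map_one, dsub_gf, dsub_gf, dsub_gf, dsub_gf] at hE
  have hE2 : dpol a C - 1 =
      (m : Polynomial ℤ) * (dpol a N - dpol a C * dpol a N + dpol a S * dpol a P)
        * Polynomial.X := by
    linear_combination (-1 : Polynomial ℤ) * hE
  -- maximal degrees
  obtain ⟨c0, hc0, hcmax⟩ := Finset.exists_max_image C (deg a) ⟨c, hc⟩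
  obtain ⟨u0, hu0, humax⟩ := Finset.exists_max_image N (deg a) ⟨u, hu⟩
  set D := deg a c0 + deg a u0 with hD
  have hcu : deg a c + deg a u ≤ D := by
    have := hcmax c hc
    have := humax u hu
    omega
  have h0 : (dpol a S * dpol a P).coeff D = 0 := by
    rw [dpol_mul_coeff]
    norm_cast
    rw [Finset.card_eq_zero, Finset.filter_eq_empty_iff]
    intro t ht
    rw [Finset.mem_product] at ht
    have := hcon t.1 ht.1 t.2 ht.2
    omega
  have h1 := congrArg (fun p => Polynomial.coeff p (D + 1)) hE2
  simp only [Polynomial.coeff_sub, Polynomial.coeff_mul_X] at h1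
  rw [Polynomial.coeff_natCast_mul, Polynomial.coeff_add, Polynomial.coeff_sub, h0] at h1
  rw [Polynomial.coeff_one, if_neg (Nat.succ_ne_zero D), dpol_coeff, dpol_coeff,
    dpol_mul_coeff] at h1
  have h2 : (C.filter (fun w => deg a w = D + 1)).card = 0 := by
    rw [Finset.card_eq_zero, Finset.filter_eq_empty_iff]
    intro w hw
    have := hcmax w hw
    omega
  have h3 : 0 < ((C ×ˢ N).filter (fun t => deg a t.1 + deg a t.2 = D)).card :=
    Finset.card_pos.2 ⟨(c0, u0), Finset.mem_filter.2 ⟨Finset.mem_product.2 ⟨hc0, hu0⟩, rfl⟩⟩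
  rw [h2] at h1
  have hmZ : (0 : ℤ) < m := by exact_mod_cast hm1
  by_cases hd : 1 ≤ deg a c0
  · have h4 : (N.filter (fun w => deg a w = D)).card = 0 := by
      rw [Finset.card_eq_zero, Finset.filter_eq_empty_iff]
      intro w hw
      have := humax w hw
      omega
    rw [h4] at h1
    have h3' : (0 : ℤ) < (((C ×ˢ N).filter (fun t => deg a t.1 + deg a t.2 = D)).card : ℤ) := by
      exact_mod_cast h3
    have h5 := mul_pos hmZ h3'
    push_cast at h1
    linarith
  · -- all codewords have degree zero
    have hc00 : ∀ w ∈ C, deg a w = 0 := by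
      intro w hw
      have := hcmax w hw
      omega
    have hC1 : dpol a C = (C.card : Polynomial ℤ) := by
      unfold dpol
      rw [Finset.sum_congr rfl (fun w hw => by rw [hc00 w hw, pow_zero])]
      simp
    have h6 := congrArg (fun p => Polynomial.coeff p 0) hE2
    simp only [Polynomial.coeff_sub, Polynomial.mul_coeff_zero, Polynomial.coeff_X_zero,
      mul_zero] at h6
    rw [hC1, Polynomial.coeff_one, if_pos rfl, Polynomial.coeff_natCast_ite, if_pos rfl] at h6
    have h7 : (C.card : ℤ) = 1 := by linarith
    have h8 : C.card = 1 := by exact_mod_cast h7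
    have h9 : dpol a C = 1 := by rw [hC1, h8]; simp
    rw [h9] at hE2
    have h10 : (m : Polynomial ℤ) * (dpol a S * dpol a P) * Polynomial.X = 0 := by
      linear_combination -hE2
    have hm0 : (m : Polynomial ℤ) ≠ 0 := by
      exact_mod_cast hm1.ne'
    have h11 : dpol a S * dpol a P = 0 := by
      rcases mul_eq_zero.1 h10 with h | h
      · rcases mul_eq_zero.1 h with h | h
        · exact absurd h hm0
        · exact h
      · exact absurd h Polynomial.X_ne_zero
    have hemp : ∀ s ∈ S, ∀ p ∈ P, False := by
      intro s hs' p hp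
      have h12 := congrArg (fun q => Polynomial.coeff q (deg a s + deg a p)) h11
      simp only [Polynomial.coeff_zero] at h12
      rw [dpol_mul_coeff] at h12
      have h13 : 0 < ((S ×ˢ P).filter
          (fun t => deg a t.1 + deg a t.2 = deg a s + deg a p)).card :=
        Finset.card_pos.2 ⟨(s, p), Finset.mem_filter.2 ⟨Finset.mem_product.2 ⟨hs', hp⟩, rfl⟩⟩
      have h14 : ((S ×ˢ P).filter
          (fun t => deg a t.1 + deg a t.2 = deg a s + deg a p)).card = 0 := by exact_mod_cast h12
      omega
    -- every word is in `N`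
    have hall : ∀ w : List α, w ∈ N := by
      intro w
      by_contra hw
      obtain ⟨t, ht, -⟩ := (hT w).2 (fun h => hw (by exact_mod_cast h))
      exact hemp t.1 (by exact_mod_cast ht.1) t.2.2 (by exact_mod_cast ht.2.2.1)
    have : Nonempty α := ⟨a⟩
    exact (Set.infinite_univ (α := List α)) (N.finite_toSet.subset fun w _ => hall w)

end Pool.Agent.H35.FC
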