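import Pool.Agent.H35.FC.Base

/-!
# The dichotomy (row 7 of project FC)
-/

set_option autoImplicit false

namespace Pool.Agent.H35.FC

namespace Dich

variable {α : Type}

theorem st_nil (C : Set (List α)) : [] ∈ Star C := ⟨[], by simp, rfl⟩

theorem st_append {C : Set (List α)} {u v : List α} (hu : u ∈ Star C) (hv : v ∈ Star C) :
    u ++ v ∈ Star C := by
  obtain ⟨L, hL, rfl⟩ := hu
  obtain ⟨M, hM, rfl⟩ := hv
  refine ⟨L ++ M, fun c hc => ?_, by simp⟩
  rcases List.mem_append.1 hc with h | h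
  · exact hL c h
  · exact hM c h

theorem st_mem {C : Set (List α)} {u : List α} (hu : u ∈ C) : u ∈ Star C :=
  ⟨[u], by simpa using hu, by simp⟩

theorem st_rep {C : Set (List α)} {a : α} (ha : [a] ∈ C) (n : ℕ) :
    List.replicate n a ∈ Star C := by
  induction n with
  | zero => exact st_nil C
  | succ n ih =>
    rw [List.replicate_succ]
    exact st_append (u := [a]) (st_mem ha) ih

/-- a nonempty word of `C*` ends with a codeword -/
theorem st_last {C : Set (List α)} {u : List α} (hu : u ∈ Star C) (hn : u ≠ []) :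
    ∃ x p, x ∈ Star C ∧ p ∈ C ∧ u = x ++ p := by
  obtain ⟨L, hL, rfl⟩ := hu
  rcases List.eq_nil_or_concat L with rfl | ⟨M, p, rfl⟩
  · simp at hn
  · exact ⟨M.flatten, p, ⟨M, fun c hc => hL c (by simp [hc]), rfl⟩, hL p (by simp), by simp⟩

/-- a nonempty word of `C*` begins with a codeword -/
theorem st_first {C : Set (List α)} {u : List α} (hu : u ∈ Star C) (hn : u ≠ []) :
    ∃ s y, s ∈ C ∧ y ∈ Star C ∧ u = s ++ y := by
  obtain ⟨L, hL, rfl⟩ := hu
  rcases L with _ | ⟨s, M⟩
  · simp at hn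
  · exact ⟨s, M.flatten, hL s (by simp), ⟨M, fun c hc => hL c (by simp [hc]), rfl⟩, by simp⟩

theorem rep_add (a : α) (m n : ℕ) (g : List α) :
    List.replicate (m + n) a ++ g = List.replicate m a ++ (List.replicate n a ++ g) := by
  rw [List.replicate_add, List.append_assoc]

theorem add_rep (a : α) (m n : ℕ) (f : List α) :
    f ++ List.replicate (m + n) a = (f ++ List.replicate m a) ++ List.replicate n a := by
  rw [List.replicate_add, List.append_assoc]

theorem nil_mem_A {C : Set (List α)} {a : α} (hC : IsCode C) (ha : [a] ∈ C) {g : List α}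
    (h : RC C a g) : [] ∈ Aset C a g := by
  obtain ⟨n, hn⟩ := h
  have h1 : List.replicate (1 + n) a ++ g ∈ Star C := by
    rw [rep_add]
    exact st_append (st_rep ha 1) hn
  obtain ⟨x, p, hx, hp, h2⟩ := st_last h1 (by simp)
  exact ⟨1 + n, x, p, hx, fun h3 => hC.1 (h3 ▸ hp), h2, by simpa using hp⟩

theorem nil_mem_B {C : Set (List α)} {a : α} (hC : IsCode C) (ha : [a] ∈ C) {f : List α}
    (h : LC C a f) : [] ∈ Bset C a f := by
  obtain ⟨n, hn⟩ := h
  have h1 : f ++ List.replicate (n + 1) a ∈ Star C := by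
    rw [add_rep]
    exact st_append hn (st_rep ha 1)
  obtain ⟨s, y, hs, hy, h2⟩ := st_first h1 (by simp)
  exact ⟨n + 1, s, y, hy, fun h3 => hC.1 (h3 ▸ hs), h2, by simpa using hs⟩

theorem rep_A (hcut : SCut) {C : Set (List α)} {a : α} (hC : IsCode C) (ha : [a] ∈ C)
    {g : List α} (h : RC C a g) (j : ℕ) (hj : List.replicate j a ∈ Aset C a g) : j = 0 := by
  obtain ⟨m, hm⟩ := h
  obtain ⟨n, x, p, hx, hp, h1, h2⟩ := hj
  have h3 : List.replicate (m + n) a ++ g ∈ Star C := by
    rw [Nat.add_comm, rep_add]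
    exact st_append (st_rep ha n) hm
  have h4 : List.replicate (m + n) a ++ g = (List.replicate m a ++ x) ++ p := by
    rw [rep_add, h1, List.append_assoc]
  have h5 := hcut α C hC (List.replicate (m + n) a ++ g) (List.replicate j a)
    (List.replicate m a ++ x) (p ++ List.replicate j a) [] h3 (st_rep ha j)
    (st_append (st_rep ha m) hx) h2 (st_nil C) (by rw [h4]; simp)
  have h6 : 0 < p.length := List.length_pos_iff.2 hp
  rw [h4] at h5
  simp only [List.length_append, List.length_replicate] at h5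
  omega

theorem rep_B (hcut : SCut) {C : Set (List α)} {a : α} (hC : IsCode C) (ha : [a] ∈ C)
    {f : List α} (h : LC C a f) (j : ℕ) (hj : List.replicate j a ∈ Bset C a f) : j = 0 := by
  obtain ⟨m, hm⟩ := h
  obtain ⟨n, s, y, hy, hs, h1, h2⟩ := hj
  have h3 : f ++ List.replicate (n + m) a ∈ Star C := by
    rw [Nat.add_comm, add_rep]
    exact st_append hm (st_rep ha n)
  have h4 : f ++ List.replicate (n + m) a = s ++ (y ++ List.replicate m a) := by
    rw [add_rep, h1, List.append_assoc]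
  have h5 := hcut α C hC (List.replicate j a) (f ++ List.replicate (n + m) a)
    [] (List.replicate j a ++ s) (y ++ List.replicate m a) (st_rep ha j) h3
    (st_nil C) h2 (st_append hy (st_rep ha m)) (by rw [h4]; simp)
  have h6 : 0 < s.length := List.length_pos_iff.2 hs
  simp only [List.length_append, List.length_replicate, List.length_nil] at h5
  omega

/-- the words in exactly one of the two sets -/
def SD (S S' : Set (List α)) : Set (List α) := {x | (x ∈ S ∧ x ∉ S') ∨ (x ∈ S' ∧ x ∉ S)}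

theorem sd_comm (S S' : Set (List α)) : SD S S' = SD S' S := by
  ext x
  simp only [SD, Set.mem_ofPred_eq]
  tauto

theorem sd_nonempty {S S' : Set (List α)} (h : S ≠ S') : (SD S S').Nonempty := by
  by_contra h1
  rw [Set.not_nonempty_iff_eq_empty] at h1
  apply h
  ext x
  have h2 : x ∉ SD S S' := by rw [h1]; exact Set.notMem_empty x
  simp only [SD, Set.mem_ofPred_eq] at h2
  tauto

theorem exists_short {D : Set (List α)} (h : D.Nonempty) :
    ∃ x ∈ D, ∀ y ∈ D, x.length ≤ y.length := by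
  obtain ⟨m, hm, h1⟩ := (InvImage.wf List.length Nat.lt_wfRel.wf).has_min D h
  exact ⟨m, hm, fun y hy => Nat.le_of_not_lt (h1 y hy)⟩

theorem eq_of_le {x c y x0 d0 : List α} (h : x ++ (c ++ y) = x0 ++ d0)
    (h1 : x0.length ≤ x.length) (h2 : d0.length ≤ y.length) : x = x0 ∧ y = d0 := by
  have h3 := congrArg List.length h
  simp only [List.length_append] at h3
  have h4 : c.length = 0 := by omega
  rw [List.length_eq_zero_iff] at h4
  subst h4
  rw [List.nil_append] at h
  exact List.append_inj h (by simp at h3; omega)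

/-- the alternating sum over the four pairs, as a case distinction -/
theorem four {S S' K P P' : Set (List α)} {x0 d0 : List α} (hK : [] ∈ K)
    (hx : x0 ∈ S) (hx' : x0 ∉ S') (hd : d0 ∈ P) (hd' : d0 ∉ P')
    (mx : ∀ x ∈ SD S S', x0.length ≤ x.length) (md : ∀ y ∈ SD P P', d0.length ≤ y.length)
    (u1 : ∃! t, t ∈ Facts S K P (x0 ++ d0)) (u2 : ∃! t, t ∈ Facts S K P' (x0 ++ d0))
    (u3 : ∃! t, t ∈ Facts S' K P (x0 ++ d0)) (u4 : ∃! t, t ∈ Facts S' K P' (x0 ++ d0)) :
    False := by
  have e1 : ∀ t, t ∈ Facts S K P (x0 ++ d0) → t = (x0, [], d0) := fun t ht =>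
    u1.unique ht ⟨hx, hK, hd, by simp⟩
  obtain ⟨⟨x, c, y⟩, ⟨h1, h2, h3, h4⟩, -⟩ := u2
  obtain ⟨⟨x', c', y'⟩, ⟨h1', h2', h3', h4'⟩, -⟩ := u3
  simp only at h1 h2 h3 h4 h1' h2' h3' h4'
  have hy : y ∉ P := by
    intro h
    have h5 := e1 (x, c, y) ⟨h1, h2, h, h4⟩
    simp only [Prod.mk.injEq] at h5
    exact hd' (h5.2.2 ▸ h3)
  have hx2 : x' ∉ S := by
    intro h
    have h5 := e1 (x', c', y') ⟨h, h2', h3', h4'⟩
    simp only [Prod.mk.injEq] at h5
    exact hx' (h5.1 ▸ h1')
  have ly : d0.length ≤ y.length := md y (Or.inr ⟨h3, hy⟩)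
  have lx : x0.length ≤ x'.length := mx x' (Or.inr ⟨h1', hx2⟩)
  -- `y'` is in `P'`, otherwise the lengths force `x' = x0`
  have hy' : y' ∈ P' := by
    by_contra h
    have h5 := eq_of_le h4' lx (md y' (Or.inl ⟨h3', h⟩))
    exact hx' (h5.1 ▸ h1')
  have hx3 : x ∈ S' := by
    by_contra h
    have h5 := eq_of_le h4 (mx x (Or.inl ⟨h1, h⟩)) ly
    exact hd' (h5.2 ▸ h3)
  have h6 := u4.unique (y₁ := (x, c, y)) (y₂ := (x', c', y')) ⟨hx3, h2, h3, h4⟩
    ⟨h1', h2', hy', h4'⟩
  simp only [Prod.mk.injEq] at h6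
  exact hx2 (h6.1 ▸ h1)

theorem deg_pos [DecidableEq α] {a : α} {x : List α} (h : ∀ j, x ≠ List.replicate j a) :
    1 ≤ deg a x := by
  by_contra h1
  have h2 : deg a x = 0 := by omega
  unfold deg at h2
  rw [List.countP_eq_zero] at h2
  apply h x.length
  rw [List.eq_replicate_iff]
  refine ⟨rfl, fun b hb => ?_⟩
  have := h2 b hb
  simpa using this

theorem deg_app [DecidableEq α] (a : α) (x y : List α) : deg a (x ++ y) = deg a x + deg a y := by
  unfold deg
  rw [List.countP_append]

end Dich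

open Dich

theorem dichP_of (hcut : SCut) : SPart → SDich := by
  intro hpart α _ C a hs hh
  by_contra hcon
  rw [not_or] at hcon
  obtain ⟨hB, hA⟩ := hcon
  push Not at hB hA
  obtain ⟨f, hf, f', hf', hB⟩ := hB
  obtain ⟨g, hg, g', hg', hA⟩ := hA
  obtain ⟨x0, hx0, mx⟩ := exists_short (sd_nonempty hA)
  obtain ⟨d0, hd0, md⟩ := exists_short (sd_nonempty hB)
  have hxr : ∀ j, x0 ≠ List.replicate j a := by
    rintro j rfl
    rcases Nat.eq_zero_or_pos j with rfl | hj
    · rcases hx0 with h | h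
      · exact h.2 (nil_mem_A hs.code hs.mem (hh.rc g' hg'))
      · exact h.2 (nil_mem_A hs.code hs.mem (hh.rc g hg))
    · rcases hx0 with h | h
      · have := rep_A hcut hs.code hs.mem (hh.rc g hg) j h.1
        omega
      · have := rep_A hcut hs.code hs.mem (hh.rc g' hg') j h.1
        omega
  have hdr : ∀ j, d0 ≠ List.replicate j a := by
    rintro j rfl
    rcases Nat.eq_zero_or_pos j with rfl | hj
    · rcases hd0 with h | h
      · exact h.2 (nil_mem_B hs.code hs.mem (hh.lc f' hf'))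
      · exact h.2 (nil_mem_B hs.code hs.mem (hh.lc f hf))
    · rcases hd0 with h | h
      · have := rep_B hcut hs.code hs.mem (hh.lc f hf) j h.1
        omega
      · have := rep_B hcut hs.code hs.mem (hh.lc f' hf') j h.1
        omega
  have hdeg : 2 ≤ deg a (x0 ++ d0) := by
    rw [deg_app]
    have h1 := deg_pos hxr
    have h2 := deg_pos hdr
    omega
  have huniq : ∀ g ∈ Gmin C a, ∀ f ∈ Fmin C a,
      ∃! t, t ∈ Facts (Aset C a g) (Star C) (Bset C a f) (x0 ++ d0) := by
    intro g hg f hf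
    apply (hpart α C a hs g f (x0 ++ d0)).2
    intro h
    have := hh.n1 g hg f hf _ h
    omega
  have mx' : ∀ x ∈ SD (Aset C a g') (Aset C a g), x0.length ≤ x.length := by
    rw [sd_comm]; exact mx
  have md' : ∀ x ∈ SD (Bset C a f') (Bset C a f), d0.length ≤ x.length := by
    rw [sd_comm]; exact md
  rcases hx0 with hx | hx <;> rcases hd0 with hd | hd
  · exact four (st_nil C) hx.1 hx.2 hd.1 hd.2 mx md (huniq g hg f hf) (huniq g hg f' hf')
      (huniq g' hg' f hf) (huniq g' hg' f' hf')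
  · exact four (st_nil C) hx.1 hx.2 hd.1 hd.2 mx md' (huniq g hg f' hf') (huniq g hg f hf)
      (huniq g' hg' f' hf') (huniq g' hg' f hf)
  · exact four (st_nil C) hx.1 hx.2 hd.1 hd.2 mx' md (huniq g' hg' f hf) (huniq g' hg' f' hf')
      (huniq g hg f hf) (huniq g hg f' hf')
  · exact four (st_nil C) hx.1 hx.2 hd.1 hd.2 mx' md' (huniq g' hg' f' hf') (huniq g' hg' f hf)
      (huniq g hg f' hf') (huniq g hg f hf)

/-- Row 7: the dichotomy. -/
theorem dichP : SPart → SDich := dichP_of cut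

end Pool.Agent.H35.FC
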