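import Pool.Agent.H35.FC.Base

/-!
# Row 8 (C7): the end, if all minimal right contexts have the same completions
-/

set_option autoImplicit false

namespace Pool.Agent.H35.FC

section
variable {α : Type} {C : Set (List α)} {a : α}

private theorem en_app {x y : List α} (hx : x ∈ Star C) (hy : y ∈ Star C) : x ++ y ∈ Star C := by
  obtain ⟨L, hL, rfl⟩ := hx
  obtain ⟨M, hM, rfl⟩ := hy
  exact ⟨L ++ M, fun c hc => (List.mem_append.1 hc).elim (hL c) (hM c), List.flatten_append⟩

private theorem en_nil : ([] : List α) ∈ Star C := ⟨[], by simp, rfl⟩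

private theorem en_mem {x : List α} (hx : x ∈ C) : x ∈ Star C :=
  ⟨[x], by simpa using hx, by simp⟩

private theorem en_rep (h : [a] ∈ C) (n : ℕ) : List.replicate n a ∈ Star C := by
  induction n with
  | zero => exact en_nil
  | succ n ih =>
    rw [List.replicate_succ]
    exact en_app (en_mem h) ih

private theorem en_comm (a : α) (m n : ℕ) : List.replicate m a ++ List.replicate n a =
    List.replicate n a ++ List.replicate m a := by
  rw [← List.replicate_add, ← List.replicate_add, Nat.add_comm]

private theorem en_lc_rep (h : [a] ∈ C) {f : List α} (hf : LC C a f) (r : ℕ) :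
    LC C a (List.replicate r a ++ f) := by
  obtain ⟨n, hn⟩ := hf
  refine ⟨n, ?_⟩
  rw [List.append_assoc]
  exact en_app (en_rep h r) hn

private theorem en_rc_of_mem {g v : List α} (hv : v ∈ Aset C a g) : RC C a (g ++ v) := by
  obtain ⟨n, x, p, hx, hp, e, hc⟩ := hv
  refine ⟨n, ?_⟩
  rw [← List.append_assoc, e, List.append_assoc]
  exact en_app hx (en_mem hc)

/-- A codeword over `u` excludes a cut inside `u`. -/
private theorem en_ncut (cut : SCut) (hS : Setup C a) {g f u1 u2 : List α}
    (hu : u1 ++ u2 ∈ Nset C a g f) (hr : RC C a (g ++ u1)) (hl : LC C a (u2 ++ f)) : False := by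
  obtain ⟨n, x, p, s, y, hx, hy, hp, hs, e1, e2, hc⟩ := hu
  obtain ⟨m, hm⟩ := hr
  obtain ⟨k, hk⟩ := hl
  have h3 := en_comm a n m
  have h4 := en_comm a k n
  have l1 := congrArg List.length e1
  have hp' : 0 < p.length := List.length_pos_iff.2 hp
  have hs' : 0 < s.length := List.length_pos_iff.2 hs
  have key := cut α C hS.code
    (List.replicate n a ++ (List.replicate m a ++ (g ++ u1)))
    (u2 ++ f ++ List.replicate k a ++ List.replicate n a)
    (List.replicate m a ++ x) (p ++ (u1 ++ u2) ++ s) (y ++ List.replicate k a)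
    (en_app (en_rep hS.mem n) hm) (en_app hk (en_rep hS.mem n))
    (en_app (en_rep hS.mem m) hx) hc (en_app hy (en_rep hS.mem k)) (by
      calc List.replicate n a ++ (List.replicate m a ++ (g ++ u1)) ++
            (u2 ++ f ++ List.replicate k a ++ List.replicate n a)
          = (List.replicate n a ++ List.replicate m a) ++ (g ++ (u1 ++ (u2 ++ (f ++
            (List.replicate k a ++ List.replicate n a))))) := by simp only [List.append_assoc]
        _ = (List.replicate m a ++ List.replicate n a) ++ (g ++ (u1 ++ (u2 ++ (f ++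
            (List.replicate n a ++ List.replicate k a))))) := by rw [h3, h4]
        _ = List.replicate m a ++ ((List.replicate n a ++ g) ++ (u1 ++ (u2 ++
            ((f ++ List.replicate n a) ++ List.replicate k a)))) := by
              simp only [List.append_assoc]
        _ = List.replicate m a ++ ((x ++ p) ++ (u1 ++ (u2 ++
            ((s ++ y) ++ List.replicate k a)))) := by rw [e1, e2]
        _ = List.replicate m a ++ x ++ (p ++ (u1 ++ u2) ++ s ++ (y ++ List.replicate k a)) := by
              simp only [List.append_assoc])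
  simp only [List.length_append, List.length_replicate] at l1 key
  omega

/-- A codeword over the end of the left context excludes a cut inside its completion. -/
private theorem en_acut (cut : SCut) (hS : Setup C a) {g v1 v2 t f : List α}
    (hv : v1 ++ v2 ∈ Aset C a g) (h2 : v2 ≠ []) (hr : RC C a (g ++ v1))
    (hl : LC C a (v2 ++ t ++ f)) (hl' : LC C a (t ++ f)) : False := by
  obtain ⟨n, x, p, hx, hp, e1, hc⟩ := hv
  obtain ⟨m, hm⟩ := hr
  obtain ⟨k, hk⟩ := hl
  obtain ⟨k', hk'⟩ := hl'
  have h3 := en_comm a n m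
  have h4 := en_comm a k k'
  have l1 := congrArg List.length e1
  have hp' : 0 < p.length := List.length_pos_iff.2 hp
  have hs' : 0 < v2.length := List.length_pos_iff.2 h2
  have key := cut α C hS.code
    (List.replicate n a ++ (List.replicate m a ++ (g ++ v1)))
    (v2 ++ t ++ f ++ List.replicate k a ++ List.replicate k' a)
    (List.replicate m a ++ x) (p ++ (v1 ++ v2))
    (t ++ f ++ List.replicate k' a ++ List.replicate k a)
    (en_app (en_rep hS.mem n) hm) (en_app hk (en_rep hS.mem k'))
    (en_app (en_rep hS.mem m) hx) hc (en_app hk' (en_rep hS.mem k)) (by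
      calc List.replicate n a ++ (List.replicate m a ++ (g ++ v1)) ++
            (v2 ++ t ++ f ++ List.replicate k a ++ List.replicate k' a)
          = (List.replicate n a ++ List.replicate m a) ++ (g ++ (v1 ++ (v2 ++ (t ++ (f ++
            (List.replicate k a ++ List.replicate k' a)))))) := by
              simp only [List.append_assoc]
        _ = (List.replicate m a ++ List.replicate n a) ++ (g ++ (v1 ++ (v2 ++ (t ++ (f ++
            (List.replicate k' a ++ List.replicate k a)))))) := by rw [h3, h4]
        _ = List.replicate m a ++ ((List.replicate n a ++ g) ++ (v1 ++ (v2 ++ (t ++ (f ++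
            (List.replicate k' a ++ List.replicate k a)))))) := by
              simp only [List.append_assoc]
        _ = List.replicate m a ++ ((x ++ p) ++ (v1 ++ (v2 ++ (t ++ (f ++
            (List.replicate k' a ++ List.replicate k a)))))) := by rw [e1]
        _ = List.replicate m a ++ x ++ (p ++ (v1 ++ v2) ++
            (t ++ f ++ List.replicate k' a ++ List.replicate k a)) := by
              simp only [List.append_assoc])
  simp only [List.length_append, List.length_replicate] at l1 key
  omega

/-- `1` completes a complete left context. -/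
private theorem en_nil_mem (hS : Setup C a) {g : List α} (hr : RC C a g) :
    [] ∈ Aset C a g := by
  obtain ⟨n, L, hL, e⟩ := hr
  rcases List.eq_nil_or_concat L with rfl | ⟨L', c, rfl⟩
  · refine ⟨n + 1, [], [a], en_nil, by simp, ?_, by simpa using hS.mem⟩
    have : List.replicate n a ++ g = [] := by simpa using e.symm
    rw [Nat.add_comm, List.replicate_add, List.append_assoc, this]
    simp
  · refine ⟨n, L'.flatten, c, ⟨L', fun d hd => hL d (by simp [hd]), rfl⟩, ?_, ?_, ?_⟩
    · intro h
      exact hS.code.1 (h ▸ hL c (by simp))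
    · rw [← e]; simp
    · simpa using hL c (by simp)

/-- `1` completes a complete right context. -/
private theorem en_nil_mem' (hS : Setup C a) {f : List α} (hl : LC C a f) :
    [] ∈ Bset C a f := by
  obtain ⟨n, L, hL, e⟩ := hl
  rcases L with _ | ⟨c, L'⟩
  · refine ⟨n + 1, [a], [], en_nil, by simp, ?_, by simpa using hS.mem⟩
    have : f ++ List.replicate n a = [] := by simpa using e.symm
    rw [List.replicate_add, ← List.append_assoc, this]
    simp
  · refine ⟨n, c, L'.flatten, ⟨L', fun d hd => hL d (by simp [hd]), rfl⟩, ?_, ?_, ?_⟩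
    · intro h
      exact hS.code.1 (h ▸ hL c (by simp))
    · rw [← e]; simp
    · simpa using hL c (by simp)

private theorem en_fac (split : SSplit) (hS : Setup C a) {f w : List α} (hf : LC C a f)
    (hw : LC C a (w ++ f)) : ∃ c ∈ Star C, ∃ β ∈ Bset C a f, c ++ β = w := by
  obtain ⟨n, hn⟩ := hw
  rw [List.append_assoc] at hn
  rcases split α C w (f ++ List.replicate n a) hn with ⟨h1, _⟩ | ⟨X, p, s, Y, hX, hY, hp, hs, hc, e1, e2⟩
  · exact ⟨w, h1, [], en_nil_mem' hS hf, by simp⟩
  · exact ⟨X, hX, p, ⟨n, s, Y, hY, hs, e2, hc⟩, e1.symm⟩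

private theorem en_lc {f c β : List α} (hc : c ∈ Star C) (hβ : β ∈ Bset C a f) :
    LC C a (c ++ β ++ f) := by
  obtain ⟨n, s, y, hy, hs, e, h⟩ := hβ
  refine ⟨n, ?_⟩
  rw [List.append_assoc, e, List.append_assoc, ← List.append_assoc β]
  exact en_app hc (en_app (en_mem h) hy)

private theorem en_fin_A (hC : C.Finite) (g : List α) : (Aset C a g).Finite := by
  refine (hC.biUnion fun c _ => List.finite_toSet c.tails).subset ?_
  rintro v ⟨n, x, p, _, _, _, hc⟩
  simp only [Set.mem_iUnion]
  exact ⟨p ++ v, hc, (List.mem_tails _ _).2 (List.suffix_append _ _)⟩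

private theorem en_fin_B (hC : C.Finite) (f : List α) : (Bset C a f).Finite := by
  refine (hC.biUnion fun c _ => List.finite_toSet c.inits).subset ?_
  rintro v ⟨n, s, y, _, _, _, hc⟩
  simp only [Set.mem_iUnion]
  exact ⟨v ++ s, hc, (List.mem_inits _ _).2 (List.prefix_append _ _)⟩

end

private theorem en_deg_app {α : Type} [DecidableEq α] (a : α) (u v : List α) :
    deg a (u ++ v) = deg a u + deg a v := by
  simp [deg, List.countP_append]

private theorem en_deg_zero {α : Type} [DecidableEq α] {a : α} {u : List α} (h : deg a u = 0) :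
    u = List.replicate u.length a := by
  rw [List.eq_replicate_iff]
  refine ⟨rfl, fun b hb => ?_⟩
  have := (List.countP_eq_zero.1 h) b hb
  simpa using this

theorem endP_of (cut : SCut) (split : SSplit) (part : SPart) : SEnd := by
  intro α _ C a b hb hS hH hB
  obtain ⟨g, hg⟩ := hH.gne
  obtain ⟨f, hf⟩ := hH.fne
  obtain ⟨u, hu⟩ := hH.ne g f
  have hrg : RC C a g := hH.rc g hg
  have hlf : LC C a f := hH.lc f hf
  have hdu : deg a u = 1 := hH.n1 g hg f hf u hu
  have hnA : [] ∈ Aset C a g := en_nil_mem hS hrg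
  -- the set `T`
  let T : Set (List α) := {w | ∃ c ∈ Star C, ∃ β ∈ Bset C a f, c ++ β = w}
  have hT1 : ∀ w, w ∈ T → LC C a (w ++ f) := by
    rintro w ⟨c, hc, β, hβ, rfl⟩
    exact en_lc hc hβ
  have hT2 : ∀ w, LC C a (w ++ f) → w ∈ T := fun w hw => en_fac split hS hlf hw
  -- `(A)`
  have hN : ∀ w, u ++ b :: w ∉ Nset C a g f := by
    intro w hw
    have h1 := hH.n1 g hg f hf _ hw
    have h2 : deg a (u ++ b :: w) = deg a u + (deg a [b] + deg a w) := by
      have e : b :: w = [b] ++ w := rfl
      rw [e, en_deg_app, en_deg_app]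
    have h3 : deg a [b] = 1 := by simp [deg, hb]
    omega
  have hpre : ∀ α' ∈ Aset C a g, ∀ u', u = α' ++ u' → α' = [] := by
    intro α' hα u' e
    have hd : deg a α' + deg a u' = 1 := by rw [← en_deg_app, ← e, hdu]
    rcases Nat.eq_zero_or_pos (deg a α') with h0 | h0
    · by_contra hne
      have hrep := en_deg_zero h0
      refine en_acut cut hS (g := g) (v1 := []) (v2 := α') (t := []) (f := f) (by simpa using hα)
        hne (by simpa using hrg) ?_ (by simpa using hlf)
      rw [List.append_nil, hrep]
      exact en_lc_rep hS.mem hlf _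
    · exfalso
      have h0' : deg a u' = 0 := by omega
      have hrep := en_deg_zero h0'
      refine en_ncut cut hS (g := g) (f := f) (u1 := α') (u2 := u') (by rw [← e]; exact hu)
        (en_rc_of_mem hα) ?_
      rw [hrep]
      exact en_lc_rep hS.mem hlf _
  let S' : Set (List α) := {v | u ++ b :: v ∈ Aset C a g}
  have hA1 : ∀ w, u ++ b :: w ∉ T → (∃ t, t ∈ Facts S' (Star C) (Bset C a f) w) := by
    intro w hw
    obtain ⟨⟨x, c, β⟩, ⟨h1, h2, h3, h4⟩, -⟩ := (part α C a hS g f (u ++ b :: w)).2 (hN w)
    simp only at h1 h2 h3 h4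
    rcases List.append_eq_append_iff.1 h4 with ⟨z, e1, e2⟩ | ⟨z, e1, e2⟩
    · -- `u = x ++ z`
      exfalso
      have hx := hpre x h1 z e1
      subst hx
      exact hw ⟨c, h2, β, h3, by simpa using h4⟩
    · -- `x = u ++ z`
      rcases z with _ | ⟨b', z⟩
      · exfalso
        have hx := hpre x h1 [] (by simpa using e1.symm)
        subst hx
        exact hw ⟨c, h2, β, h3, by simpa using h4⟩
      · rw [List.cons_append, List.cons.injEq] at e2
        obtain ⟨rfl, e2⟩ := e2
        refine ⟨⟨z, c, β⟩, ?_, h2, h3, e2.symm⟩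
        change u ++ b :: z ∈ Aset C a g
        rw [← e1]; exact h1
  have hlift : ∀ w v c β, (v, c, β) ∈ Facts S' (Star C) (Bset C a f) w →
      (u ++ b :: v, c, β) ∈ Facts (Aset C a g) (Star C) (Bset C a f) (u ++ b :: w) := by
    rintro w v c β ⟨h1, h2, h3, h4⟩
    refine ⟨h1, h2, h3, ?_⟩
    simp only at h4 ⊢
    rw [← h4]; simp
  have hA2 : ∀ w t t', t ∈ Facts S' (Star C) (Bset C a f) w →
      t' ∈ Facts S' (Star C) (Bset C a f) w → t = t' := by
    rintro w ⟨v, c, β⟩ ⟨v', c', β'⟩ h h'
    have hun := (part α C a hS g f (u ++ b :: w)).2 (hN w)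
    have := hun.unique (hlift w v c β h) (hlift w v' c' β' h')
    simp only [Prod.mk.injEq, List.append_cancel_left_eq, List.cons.injEq, true_and] at this ⊢
    exact this
  -- `(B)`
  have hBB : ∀ w, w ∉ T → u ++ b :: w ∉ T := by
    intro w hw hw'
    have h1 : ¬ LC C a (w ++ f) := fun h => hw (hT2 w h)
    have h2 : b :: (w ++ f) ∈ Fmin C a := hH.f1' _ h1 b hb
    have h3 : Bset C a (b :: (w ++ f)) = Bset C a f := hB _ h2 _ hf
    have h4 : u ∈ Nset C a g (b :: (w ++ f)) := by
      by_contra hcon
      obtain ⟨t, ht, -⟩ := (part α C a hS g (b :: (w ++ f)) u).2 hcon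
      rw [h3] at ht
      have := (part α C a hS g f u).1 hu
      rw [this] at ht
      exact ht
    refine en_ncut cut hS (g := g) (f := b :: (w ++ f)) (u1 := []) (u2 := u) (by simpa using h4)
      (by simpa using hrg) ?_
    have := hT1 _ hw'
    rwa [List.append_assoc, List.cons_append] at this
  have hfinS : S'.Finite := by
    refine Set.Finite.preimage ?_ (en_fin_A hS.fin g)
    intro x _ y _ hxy
    simpa using hxy
  have hfinP : (Bset C a f).Finite := en_fin_B hS.fin f
  by_cases h0 : [] ∈ S'
  · refine ⟨S', Bset C a f, hfinS, hfinP, fun w => ⟨fun h => h.elim, fun _ => ?_⟩⟩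
    have hex : ∃ t, t ∈ Facts S' (Star C) (Bset C a f) w := by
      by_cases hw : w ∈ T
      · obtain ⟨c, hc, β, hβ, e⟩ := hw
        exact ⟨([], c, β), h0, hc, hβ, by simpa using e⟩
      · exact hA1 w (hBB w hw)
    obtain ⟨t, ht⟩ := hex
    exact ⟨t, ht, fun t' ht' => hA2 w t' t ht' ht⟩
  · -- `(C)`
    have hnR : ¬ RC C a (g ++ u) := fun h =>
      en_ncut cut hS (g := g) (f := f) (u1 := u) (u2 := []) (by simpa using hu) h
        (by simpa using hlf)
    have hRb : RC C a (g ++ (u ++ [b])) := by
      rw [← List.append_assoc]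
      exact hH.rc _ (hH.f1 _ hnR b hb)
    have hC : ∀ w ∈ T, ∀ t, t ∉ Facts S' (Star C) (Bset C a f) w := by
      rintro w hw ⟨v, c, β⟩ ⟨h1, h2, h3, h4⟩
      simp only at h1 h2 h3 h4
      have hv : v ≠ [] := fun h => h0 (h ▸ h1)
      refine en_acut cut hS (g := g) (v1 := u ++ [b]) (v2 := v) (t := c ++ β) (f := f) ?_ hv hRb
        ?_ (en_lc h2 h3)
      · have h1' : u ++ b :: v ∈ Aset C a g := h1
        simpa using h1'
      · rw [h4]
        exact hT1 w hw
    refine ⟨insert [] S', Bset C a f, hfinS.insert _, hfinP, fun w =>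
      ⟨fun h => h.elim, fun _ => ?_⟩⟩
    by_cases hw : w ∈ T
    · have hw2 := hw
      obtain ⟨c, hc, β, hβ, e⟩ := hw2
      refine ⟨([], c, β), ⟨Set.mem_insert _ _, hc, hβ, by simpa using e⟩, ?_⟩
      rintro ⟨v', c', β'⟩ ⟨h1, h2, h3, h4⟩
      simp only at h1 h2 h3 h4
      rcases h1 with rfl | h1
      · have hNw : w ∉ Nset C a g f := by
          intro hcon
          have he := (part α C a hS g f w).1 hcon
          have hm : (([] : List α), c, β) ∈ Facts (Aset C a g) (Star C) (Bset C a f) w :=
            ⟨hnA, hc, hβ, by simpa using e⟩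
          rw [he] at hm
          exact hm
        exact ((part α C a hS g f w).2 hNw).unique ⟨hnA, h2, h3, h4⟩
          ⟨hnA, hc, hβ, by simpa using e⟩
      · exact absurd (⟨h1, h2, h3, h4⟩ : (v', c', β') ∈ Facts S' (Star C) (Bset C a f) w)
          (hC w hw _)
    · obtain ⟨t, ht⟩ := hA1 w (hBB w hw)
      refine ⟨t, ⟨Set.mem_insert_of_mem _ ht.1, ht.2.1, ht.2.2.1, ht.2.2.2⟩, ?_⟩
      rintro ⟨v', c', β'⟩ ⟨h1, h2, h3, h4⟩
      simp only at h1 h2 h3 h4
      rcases h1 with rfl | h1
      · exact absurd ⟨c', h2, β', h3, by simpa using h4⟩ hw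
      · exact hA2 w _ _ ⟨h1, h2, h3, h4⟩ ht

/-- Row 8 (C7): the end. -/
theorem endP : SPart → SEnd := endP_of cut split

end Pool.Agent.H35.FC
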