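import Mathlib

/-!
# Finite maximal codes containing a letter: statements

`C` is a finite maximal code over the finite alphabet `α` with `[a] ∈ C`, whose words have at most
five letters different from `a`.
-/

set_option autoImplicit false

namespace Pool.Agent.H35.FC

open MvPolynomial

section
variable {α : Type}

/-- `C` is a code. -/
def IsCode (C : Set (List α)) : Prop :=
  [] ∉ C ∧ ∀ L M : List (List α), (∀ c ∈ L, c ∈ C) → (∀ c ∈ M, c ∈ C) →
    L.flatten = M.flatten → L = M

/-- The submonoid generated by `C`. -/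
def Star (C : Set (List α)) : Set (List α) :=
  {w | ∃ L : List (List α), (∀ c ∈ L, c ∈ C) ∧ L.flatten = w}

/-- `C` is a code, contains the letter `a`, and every word can be completed by powers of `a`. -/
structure Setup (C : Set (List α)) (a : α) : Prop where
  fin : C.Finite
  code : IsCode C
  mem : [a] ∈ C
  comp : ∀ w : List α, ∃ n : ℕ, List.replicate n a ++ w ++ List.replicate n a ∈ Star C

/-- The left context `a^∞ g` is complete. -/
def RC (C : Set (List α)) (a : α) (g : List α) : Prop :=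
  ∃ n : ℕ, List.replicate n a ++ g ∈ Star C

/-- The right context `f a^∞` is complete. -/
def LC (C : Set (List α)) (a : α) (f : List α) : Prop :=
  ∃ n : ℕ, f ++ List.replicate n a ∈ Star C

/-- The words which complete a codeword that has begun inside the left context `a^∞ g`. -/
def Aset (C : Set (List α)) (a : α) (g : List α) : Set (List α) :=
  {v | ∃ (n : ℕ) (x p : List α), x ∈ Star C ∧ p ≠ [] ∧
    List.replicate n a ++ g = x ++ p ∧ p ++ v ∈ C}

/-- The words from which a codeword goes on into the right context `f a^∞`. -/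
def Bset (C : Set (List α)) (a : α) (f : List α) : Set (List α) :=
  {v | ∃ (n : ℕ) (s y : List α), y ∈ Star C ∧ s ≠ [] ∧
    f ++ List.replicate n a = s ++ y ∧ v ++ s ∈ C}

/-- The words covered by one codeword which meets both contexts. -/
def Nset (C : Set (List α)) (a : α) (g f : List α) : Set (List α) :=
  {u | ∃ (n : ℕ) (x p s y : List α), x ∈ Star C ∧ y ∈ Star C ∧ p ≠ [] ∧ s ≠ [] ∧
    List.replicate n a ++ g = x ++ p ∧ f ++ List.replicate n a = s ++ y ∧ p ++ u ++ s ∈ C}

/-- The factorizations of `w` into a word of `S`, a word of `K` and a word of `P`. -/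
def Facts (S K P : Set (List α)) (w : List α) : Set (List α × List α × List α) :=
  {t | t.1 ∈ S ∧ t.2.1 ∈ K ∧ t.2.2 ∈ P ∧ t.1 ++ (t.2.1 ++ t.2.2) = w}

/-- Every word is either in `N` or has a unique factorization in `S C* P`, but not both. -/
def Tiles (C S P N : Set (List α)) : Prop :=
  ∀ w : List α, (w ∈ N → Facts S (Star C) P w = ∅) ∧
    (w ∉ N → ∃! t, t ∈ Facts S (Star C) P w)

variable [DecidableEq α]

/-- The number of letters different from `a`. -/
def deg (a : α) (w : List α) : ℕ := w.countP (fun x => x ≠ a)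

/-- The commutative image of a finite set of words. -/
noncomputable def gf (L : Finset (List α)) : MvPolynomial α ℤ :=
  ∑ w ∈ L, (w.map X).prod

/-- The left contexts whose completions have at most three letters different from `a`. -/
def Gmin (C : Set (List α)) (a : α) : Set (List α) := {g | ∀ v ∈ Aset C a g, deg a v ≤ 3}

/-- The right contexts with the same property. -/
def Fmin (C : Set (List α)) (a : α) : Set (List α) := {f | ∀ v ∈ Bset C a f, deg a v ≤ 3}

/-- What is left after the degree arguments: `d = 5`, `σ = τ = 3`. -/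
structure Hyp (C : Set (List α)) (a : α) : Prop where
  ne : ∀ g f, (Nset C a g f).Nonempty
  gne : (Gmin C a).Nonempty
  fne : (Fmin C a).Nonempty
  rc : ∀ g ∈ Gmin C a, RC C a g
  lc : ∀ f ∈ Fmin C a, LC C a f
  f1 : ∀ g, ¬ RC C a g → ∀ b, b ≠ a → g ++ [b] ∈ Gmin C a
  f1' : ∀ f, ¬ LC C a f → ∀ b, b ≠ a → b :: f ∈ Fmin C a
  n1 : ∀ g ∈ Gmin C a, ∀ f ∈ Fmin C a, ∀ u ∈ Nset C a g f, deg a u = 1

end

/-- A prefix code. -/
def IsPrefixCode {α : Type} (D : Set (List α)) : Prop :=
  [] ∉ D ∧ ∀ u ∈ D, ∀ v ∈ D, u <+: v → u = v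

/-- Base: a codeword of a factorization does not cross a cut of another one. -/
def SCut : Prop := ∀ (α : Type) (C : Set (List α)), IsCode C → ∀ x y X c Y : List α,
  x ∈ Star C → y ∈ Star C → X ∈ Star C → c ∈ C → Y ∈ Star C → x ++ y = X ++ (c ++ Y) →
  x.length ≤ X.length ∨ X.length + c.length ≤ x.length

/-- Base: a factorization seen from a point. -/
def SSplit : Prop := ∀ (α : Type) (C : Set (List α)) (u v : List α), u ++ v ∈ Star C →
  (u ∈ Star C ∧ v ∈ Star C) ∨ ∃ X p s Y : List α, X ∈ Star C ∧ Y ∈ Star C ∧ p ≠ [] ∧ s ≠ [] ∧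
    p ++ s ∈ C ∧ u = X ++ p ∧ v = s ++ Y

/-- Row 1: finite maximal codes are complete. -/
def SMax : Prop := ∀ (α : Type) [Fintype α] [DecidableEq α] (C : Set (List α)) (a : α),
  C.Finite → IsCode C → (∀ D : Set (List α), IsCode D → C ⊆ D → D = C) → [a] ∈ C → Setup C a

/-- Row 2: the partition (P1). -/
def SPart : Prop := ∀ (α : Type) [DecidableEq α] (C : Set (List α)) (a : α), Setup C a →
  ∀ g f, Tiles C (Aset C a g) (Bset C a f) (Nset C a g f)

/-- Row 3: commutative images. -/
def SGf : Prop := ∀ (α : Type) [Fintype α] [DecidableEq α] (C S P N : Finset (List α)),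
  IsCode (C : Set (List α)) → Tiles (C : Set (List α)) S P N →
  1 - gf C = (1 - ∑ x : α, (X x : MvPolynomial α ℤ)) * ((1 - gf C) * gf N + gf S * gf P)

/-- Row 4: the construction of the prefix code. -/
def STree : Prop := ∀ (α : Type) [Fintype α] [DecidableEq α] (C : Finset (List α))
  (Q : MvPolynomial α ℤ), [] ∉ C → (∀ e, 0 ≤ coeff e Q) →
  1 - gf C = (1 - ∑ x : α, (X x : MvPolynomial α ℤ)) * Q →
  ∃ D : Finset (List α), IsPrefixCode (D : Set (List α)) ∧
    ∃ F : List α → List α, Set.BijOn F C D ∧ ∀ w ∈ C, (F w).Perm w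

/-- Row 5: the degree inequality, from `SGf`. -/
def SDeg : Prop := ∀ (α : Type) [Fintype α] [DecidableEq α] (C S P N : Finset (List α)) (a b : α),
  b ≠ a → IsCode (C : Set (List α)) → Tiles (C : Set (List α)) S P N →
  ∀ u ∈ N, ∀ c ∈ C, ∃ s ∈ S, ∃ p ∈ P, deg a c + deg a u ≤ deg a s + deg a p

/-- Row 6: the degree arguments (C1) - (C5). -/
def SCore : Prop := ∀ (α : Type) [Fintype α] [DecidableEq α] (C : Set (List α)) (a b : α),
  b ≠ a → Setup C a → (∀ w ∈ C, deg a w ≤ 5) →
  (∃ S P : Set (List α), S.Finite ∧ P.Finite ∧ Tiles C S P ∅) ∨ Hyp C a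

/-- Row 7: the dichotomy (C6). -/
def SDich : Prop := ∀ (α : Type) [DecidableEq α] (C : Set (List α)) (a : α),
  Setup C a → Hyp C a →
  (∀ f ∈ Fmin C a, ∀ f' ∈ Fmin C a, Bset C a f = Bset C a f') ∨
    (∀ g ∈ Gmin C a, ∀ g' ∈ Gmin C a, Aset C a g = Aset C a g')

/-- Row 8: the end (C7). -/
def SEnd : Prop := ∀ (α : Type) [DecidableEq α] (C : Set (List α)) (a b : α),
  b ≠ a → Setup C a → Hyp C a →
  (∀ f ∈ Fmin C a, ∀ f' ∈ Fmin C a, Bset C a f = Bset C a f') →
  ∃ S P : Set (List α), S.Finite ∧ P.Finite ∧ Tiles C S P ∅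

/-- Row 9: the mirror image. -/
def SRev : Prop := ∀ (α : Type) [DecidableEq α] (C : Set (List α)) (a : α),
  Setup C a → Hyp C a →
  Setup (List.reverse '' C) a ∧ Hyp (List.reverse '' C) a ∧
  ((∀ g ∈ Gmin C a, ∀ g' ∈ Gmin C a, Aset C a g = Aset C a g') →
    ∀ f ∈ Fmin (List.reverse '' C) a, ∀ f' ∈ Fmin (List.reverse '' C) a,
      Bset (List.reverse '' C) a f = Bset (List.reverse '' C) a f') ∧
  ∀ S P : Set (List α), Tiles (List.reverse '' C) S P ∅ →
    Tiles C (List.reverse '' P) (List.reverse '' S) ∅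

end Pool.Agent.H35.FC
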