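import Mathlib
import Pool.Agent.H35.FC.Stm

/-!
# Commutative images of an unambiguous factorization

We evaluate all generating functions at small positive numbers, where the sums over all words
converge, and compare.
-/

set_option autoImplicit false

namespace Pool.Agent.H35.FC

open MvPolynomial
open scoped ENNReal NNReal

/-- The sum of the weights of all words over a finite alphabet. -/
private theorem gf_tsum_list {β : Type} [Fintype β] (f : β → ℝ≥0∞) :
    ∑' L : List β, (L.map f).prod = (1 - ∑ b, f b)⁻¹ := by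
  rw [← List.equivSigmaTuple.symm.tsum_eq, ENNReal.tsum_sigma', ← ENNReal.tsum_geometric]
  refine tsum_congr fun n => ?_
  rw [tsum_fintype, Fintype.sum_pow]
  refine Finset.sum_congr rfl fun p _ => ?_
  simp [List.equivSigmaTuple, List.map_ofFn, List.prod_ofFn]

private theorem gf_lift {α : Type} (C : Finset (List α)) (L : List (List α))
    (h : ∀ c ∈ L, c ∈ (C : Set (List α))) : ∃ M : List C, M.map Subtype.val = L := by
  induction L with
  | nil => exact ⟨[], rfl⟩
  | cons a t ih =>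
    obtain ⟨M, hM⟩ := ih (fun c hc => h c (List.mem_cons_of_mem _ hc))
    exact ⟨⟨a, h a List.mem_cons_self⟩ :: M, by simp [hM]⟩

/-- The sum of the weights of the words of `C*` for a code `C`. -/
private theorem gf_tsum_star {α : Type} (C : Finset (List α)) (hC : IsCode (C : Set (List α)))
    (e : α → ℝ≥0∞) :
    ∑' w : Star (C : Set (List α)), (w.1.map e).prod = (1 - ∑ c ∈ C, (c.map e).prod)⁻¹ := by
  have hmem : ∀ L : List C, (L.map Subtype.val).flatten ∈ Star (C : Set (List α)) := by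
    intro L
    refine ⟨L.map Subtype.val, ?_, rfl⟩
    intro c hc
    rw [List.mem_map] at hc
    obtain ⟨d, _, rfl⟩ := hc
    exact d.2
  let F : List C → Star (C : Set (List α)) := fun L => ⟨(L.map Subtype.val).flatten, hmem L⟩
  have hF : Function.Bijective F := by
    constructor
    · intro L M h
      have h1 : (L.map Subtype.val).flatten = (M.map Subtype.val).flatten := congrArg Subtype.val h
      have h2 := hC.2 (L.map Subtype.val) (M.map Subtype.val) (by
        intro c hc
        rw [List.mem_map] at hc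
        obtain ⟨d, _, rfl⟩ := hc
        exact d.2) (by
        intro c hc
        rw [List.mem_map] at hc
        obtain ⟨d, _, rfl⟩ := hc
        exact d.2) h1
      exact (List.map_injective_iff.2 Subtype.val_injective) h2
    · rintro ⟨w, L, hL, hw⟩
      obtain ⟨M, hM⟩ := gf_lift C L hL
      refine ⟨M, Subtype.ext ?_⟩
      show (M.map Subtype.val).flatten = w
      rw [hM, hw]
  rw [← (Equiv.ofBijective F hF).tsum_eq]
  have h3 := gf_tsum_list (fun c : C => (c.1.map e).prod)
  rw [Finset.univ_eq_attach, Finset.sum_attach C (fun c => (c.map e).prod)] at h3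
  rw [← h3]
  refine tsum_congr fun L => ?_
  show (((L.map Subtype.val).flatten).map e).prod = _
  rw [List.map_flatten, List.prod_flatten, List.map_map, List.map_map]
  rfl

/-- The identity of the weights of all words. -/
private theorem gf_tsum_tiles {α : Type} [Fintype α] (C S P N : Finset (List α))
    (hC : IsCode (C : Set (List α))) (hT : Tiles (C : Set (List α)) S P N) (e : α → ℝ≥0∞) :
    (1 - ∑ b, e b)⁻¹ = ∑ w ∈ N, (w.map e).prod + (∑ w ∈ S, (w.map e).prod) *
      ((1 - ∑ c ∈ C, (c.map e).prod)⁻¹ * ∑ w ∈ P, (w.map e).prod) := by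
  classical
  rw [← gf_tsum_list e, ← gf_tsum_star C hC e]
  have hsum : ∀ (s : Set (List α)), Summable ((fun w : List α => (w.map e).prod) ∘
      ((↑) : s → List α)) := fun s => ENNReal.summable
  rw [← Summable.tsum_add_tsum_compl (s := (N : Set (List α))) (hsum _) (hsum _),
    Finset.tsum_subtype' N (fun w : List α => (w.map e).prod)]
  congr 1
  rw [← Finset.tsum_subtype' S (fun w : List α => (w.map e).prod),
    ← Finset.tsum_subtype' P (fun w : List α => (w.map e).prod)]
  have hmem : ∀ t : ↥(S : Set (List α)) × (↥(Star (C : Set (List α))) × ↥(P : Set (List α))),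
      t.1.1 ++ (t.2.1.1 ++ t.2.2.1) ∈ ((N : Set (List α))ᶜ : Set (List α)) := by
    rintro ⟨x, y, z⟩ hw
    have h1 := (hT _).1 hw
    have h2 : ((x.1, y.1, z.1) : List α × List α × List α) ∈
        Facts (S : Set (List α)) (Star (C : Set (List α))) P (x.1 ++ (y.1 ++ z.1)) :=
      ⟨x.2, y.2, z.2, rfl⟩
    rw [h1] at h2
    exact h2
  let F : ↥(S : Set (List α)) × (↥(Star (C : Set (List α))) × ↥(P : Set (List α))) →
      ((N : Set (List α))ᶜ : Set (List α)) := fun t => ⟨t.1.1 ++ (t.2.1.1 ++ t.2.2.1), hmem t⟩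
  have hF : Function.Bijective F := by
    constructor
    · rintro ⟨x, y, z⟩ ⟨x', y', z'⟩ h
      have h0 : x.1 ++ (y.1 ++ z.1) = x'.1 ++ (y'.1 ++ z'.1) := congrArg Subtype.val h
      obtain ⟨t, ht, htu⟩ := (hT (x.1 ++ (y.1 ++ z.1))).2 (hmem ⟨x, y, z⟩)
      have h1 := htu (x.1, y.1, z.1) ⟨x.2, y.2, z.2, rfl⟩
      have h2 := htu (x'.1, y'.1, z'.1) ⟨x'.2, y'.2, z'.2, h0.symm⟩
      have h3 := h1.trans h2.symm
      simp only [Prod.mk.injEq] at h3
      obtain ⟨h4, h5, h6⟩ := h3
      exact Prod.ext (Subtype.ext h4) (Prod.ext (Subtype.ext h5) (Subtype.ext h6))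
    · rintro ⟨w, hw⟩
      obtain ⟨t, ⟨ht1, ht2, ht3, ht4⟩, _⟩ := (hT w).2 hw
      exact ⟨(⟨t.1, ht1⟩, ⟨t.2.1, ht2⟩, ⟨t.2.2, ht3⟩), Subtype.ext ht4⟩
  rw [← (Equiv.ofBijective F hF).tsum_eq]
  have h5 : ∀ t : ↥(S : Set (List α)) × (↥(Star (C : Set (List α))) × ↥(P : Set (List α))),
      ((((Equiv.ofBijective F hF) t).1).map e).prod =
        (t.1.1.map e).prod * ((t.2.1.1.map e).prod * (t.2.2.1.map e).prod) := by
    intro t
    show ((t.1.1 ++ (t.2.1.1 ++ t.2.2.1)).map e).prod = _
    simp [List.map_append, List.prod_append]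
  rw [tsum_congr h5]
  rw [ENNReal.tsum_prod']
  simp only [ENNReal.tsum_mul_left]
  rw [ENNReal.tsum_mul_right]
  congr 1
  rw [ENNReal.tsum_prod']
  simp only [ENNReal.tsum_mul_left]
  rw [ENNReal.tsum_mul_right]

private theorem gf_castE {α : Type} (y : α → ℝ≥0) (w : List α) :
    (w.map (fun b => (y b : ℝ≥0∞))).prod = ((w.map y).prod : ℝ≥0) := by
  induction w with
  | nil => simp
  | cons a t ih => rw [List.map_cons, List.prod_cons, List.map_cons, List.prod_cons, ih,
      ENNReal.coe_mul]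

private theorem gf_castR {α : Type} (y : α → ℝ≥0) (w : List α) :
    (w.map (fun b => (y b : ℝ))).prod = ((w.map y).prod : ℝ≥0) := by
  induction w with
  | nil => simp
  | cons a t ih => rw [List.map_cons, List.prod_cons, List.map_cons, List.prod_cons, ih,
      NNReal.coe_mul]

private theorem gf_evalw {α : Type} (w : List α) (y : α → ℝ) :
    eval y (MvPolynomial.map (Int.castRingHom ℝ) (w.map X).prod) = (w.map y).prod := by
  induction w with
  | nil => simp
  | cons a t ih => rw [List.map_cons, List.prod_cons, List.map_cons, List.prod_cons, map_mul,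
      map_mul, ih, MvPolynomial.map_X, eval_X]

/-- The same identity for small real numbers. -/
private theorem gf_real {α : Type} [Fintype α] (C S P N : Finset (List α))
    (hC : IsCode (C : Set (List α))) (hT : Tiles (C : Set (List α)) S P N) (y : α → ℝ≥0)
    (hy : ∑ b, y b < 1) :
    (1 : ℝ) - ∑ w ∈ C, (w.map (fun b => (y b : ℝ))).prod =
      (1 - ∑ b, (y b : ℝ)) * ((1 - ∑ w ∈ C, (w.map (fun b => (y b : ℝ))).prod) *
        ∑ w ∈ N, (w.map (fun b => (y b : ℝ))).prod +
        (∑ w ∈ S, (w.map (fun b => (y b : ℝ))).prod) *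
          ∑ w ∈ P, (w.map (fun b => (y b : ℝ))).prod) := by
  have hcastE : ∀ L : Finset (List α), ∑ w ∈ L, (w.map (fun b => (y b : ℝ≥0∞))).prod =
      ((∑ w ∈ L, (w.map y).prod : ℝ≥0) : ℝ≥0∞) := by
    intro L
    rw [ENNReal.ofNNReal_finsetSum]
    exact Finset.sum_congr rfl fun w _ => gf_castE y w
  have hcastR : ∀ L : Finset (List α), ∑ w ∈ L, (w.map (fun b => (y b : ℝ))).prod =
      ((∑ w ∈ L, (w.map y).prod : ℝ≥0) : ℝ) := by
    intro L
    rw [NNReal.coe_sum]
    exact Finset.sum_congr rfl fun w _ => gf_castR y w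
  have h1 := gf_tsum_tiles C S P N hC hT (fun b => (y b : ℝ≥0∞))
  have hle : ∑' w : Star (C : Set (List α)), (w.1.map (fun b => (y b : ℝ≥0∞))).prod ≤
      ∑' w : List α, (w.map (fun b => (y b : ℝ≥0∞))).prod :=
    ENNReal.tsum_comp_le_tsum_of_injective Subtype.val_injective
      (fun w : List α => (w.map (fun b => (y b : ℝ≥0∞))).prod)
  rw [gf_tsum_star C hC, gf_tsum_list] at hle
  rw [hcastE] at hle
  simp only [hcastE] at h1
  simp only [hcastR]
  set c := ∑ w ∈ C, (w.map y).prod
  set s := ∑ w ∈ S, (w.map y).prod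
  set p := ∑ w ∈ P, (w.map y).prod
  set n := ∑ w ∈ N, (w.map y).prod
  have hyE : ∑ b, (y b : ℝ≥0∞) = ((∑ b, y b : ℝ≥0) : ℝ≥0∞) := by push_cast; rfl
  have hyR : ∑ b, (y b : ℝ) = ((∑ b, y b : ℝ≥0) : ℝ) := by push_cast; rfl
  rw [hyE] at h1 hle
  rw [hyR]
  set t := ∑ b, y b
  have ht : (1 : ℝ≥0) - t ≠ 0 := (tsub_pos_of_lt hy).ne'
  have hcc : c < 1 := by
    by_contra hcon
    push Not at hcon
    have h2 : (1 : ℝ≥0∞) - (c : ℝ≥0∞) = 0 := by
      rw [tsub_eq_zero_iff_le]
      exact_mod_cast hcon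
    rw [h2, ENNReal.inv_zero, top_le_iff, ENNReal.inv_eq_top] at hle
    have h3 : ((1 - t : ℝ≥0) : ℝ≥0∞) = 0 := by
      rw [ENNReal.coe_sub]
      exact hle
    exact ht (by exact_mod_cast h3)
  have hc : (1 : ℝ≥0) - c ≠ 0 := (tsub_pos_of_lt hcc).ne'
  have h4 : ((1 - t)⁻¹ : ℝ≥0) = n + s * ((1 - c)⁻¹ * p) := by
    have h5 : (((1 - t)⁻¹ : ℝ≥0) : ℝ≥0∞) = ((n + s * ((1 - c)⁻¹ * p) : ℝ≥0) : ℝ≥0∞) := by
      rw [ENNReal.coe_inv ht, ENNReal.coe_sub, ENNReal.coe_one, h1]
      push_cast
      rw [ENNReal.coe_inv hc, ENNReal.coe_sub, ENNReal.coe_one]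
    exact_mod_cast h5
  have h6 : ((1 : ℝ) - t)⁻¹ = n + s * ((1 - (c : ℝ))⁻¹ * p) := by
    have h7 := congrArg ((↑) : ℝ≥0 → ℝ) h4
    push_cast [NNReal.coe_sub hy.le, NNReal.coe_sub hcc.le] at h7
    exact h7
  have ht' : (1 : ℝ) - t ≠ 0 := by
    have : (t : ℝ) < 1 := by exact_mod_cast hy
    linarith
  have hc' : (1 : ℝ) - c ≠ 0 := by
    have : (c : ℝ) < 1 := by exact_mod_cast hcc
    linarith
  have h8 : (1 : ℝ) = (1 - t) * (n + s * ((1 - (c : ℝ))⁻¹ * p)) := by
    rw [← h6, mul_inv_cancel₀ ht']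
  have h9 : (1 - (c : ℝ)) * 1 = (1 - c) * ((1 - t) * (n + s * ((1 - (c : ℝ))⁻¹ * p))) := by
    rw [← h8]
  have h10 : (1 - (c : ℝ)) * ((1 - t) * (n + s * ((1 - (c : ℝ))⁻¹ * p))) =
      (1 - t) * ((1 - c) * n + ((1 - c) * (1 - (c : ℝ))⁻¹) * (s * p)) := by ring
  rw [mul_inv_cancel₀ hc', one_mul] at h10
  rw [mul_one, h10] at h9
  exact h9

/-- The evaluation of a commutative image. -/
private theorem gf_eval {α : Type} (L : Finset (List α)) (y : α → ℝ) :
    eval y (MvPolynomial.map (Int.castRingHom ℝ) (gf L)) = ∑ w ∈ L, (w.map y).prod := by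
  rw [gf, map_sum, map_sum]
  exact Finset.sum_congr rfl fun w _ => gf_evalw w y

/-- Row 3: commutative images. -/
theorem gfP : SGf := by
  intro α _ _ C S P N hC hT
  apply MvPolynomial.map_injective (Int.castRingHom ℝ) Int.cast_injective
  refine MvPolynomial.funext_set (fun _ => Set.Ioo (0 : ℝ) (1 / (Fintype.card α + 1)))
    (fun i => ?_) (fun x hx => ?_)
  · exact Set.Ioo_infinite (by positivity)
  · have hx' : ∀ i, 0 < x i ∧ x i < 1 / (Fintype.card α + 1) := fun i => hx i (Set.mem_univ i)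
    have h1 := gf_real C S P N hC hT (fun b => ⟨x b, (hx' b).1.le⟩) (by
      have h2 : ∑ b, x b ≤ (Fintype.card α : ℝ) * (1 / (Fintype.card α + 1)) := by
        have := Finset.sum_le_card_nsmul (Finset.univ : Finset α) x (1 / (Fintype.card α + 1))
          (fun b _ => (hx' b).2.le)
        simpa using this
      have h3 : (Fintype.card α : ℝ) * (1 / (Fintype.card α + 1)) < 1 := by
        rw [mul_one_div, div_lt_one (by positivity)]
        linarith
      have h4 : ((∑ b, (⟨x b, (hx' b).1.le⟩ : ℝ≥0) : ℝ≥0) : ℝ) < 1 := by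
        push_cast
        exact lt_of_le_of_lt h2 h3
      exact_mod_cast h4)
    simp only [map_sub, map_one, map_mul, map_add, map_sum, MvPolynomial.map_X, eval_X, gf_eval]
    exact h1

end Pool.Agent.H35.FC
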