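import Pool.Agent.H47.FC.Multi

set_option autoImplicit false
set_option linter.unusedSectionVars false

/-!
# Gluing even covers over an edge cut with at most three edges
-/

namespace Pool.Agent.H35.FC

open Finset Pool.Agent.H47.FC

section

variable {V E W : Type} [DecidableEq V] [Fintype V] [DecidableEq W] [Fintype E]

/-- admissibility passes to images of the vertex set -/
lemma admN_map (a b : E → V) (c : V → W) (w : E → ℕ) (h : AdmN a b w) :
    AdmN (fun e => c (a e)) (fun e => c (b e)) w := by
  intro Y e he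
  have key : ∀ f : E, Crs (fun e => c (a e)) (fun e => c (b e)) Y f ↔
      Crs a b (univ.filter (fun v => c v ∈ Y)) f := by
    intro f
    unfold Crs
    simp only [mem_filter, mem_univ, true_and]
  have h1 := h (univ.filter (fun v => c v ∈ Y)) e ((key e).1 he)
  refine h1.trans (le_of_eq ?_)
  apply Finset.sum_congr
  · ext f
    simp only [mem_filter, mem_univ, true_and]
    exact (key f).symm
  · intros
    rfl

end

section

variable {E : Type} [DecidableEq E]

lemma trace_ident (T t D : Finset E) (hT : T.card ≤ 3) (ht : t ⊆ T) (ht2 : t.card = 2)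
    (hD : D ⊆ T) (hev : Even D.card) :
    (2 * (if D = t then 1 else 0) : ℤ) = ((D ∩ t).card : ℤ) - ((D \ t).card : ℤ) := by
  have h1 : D.card ≤ 3 := (card_le_card hD).trans hT
  have h2 : (D ∩ t).card + (D \ t).card = D.card := Finset.card_inter_add_card_sdiff D t
  obtain ⟨m, hm⟩ := hev
  by_cases h0 : D = t
  · subst h0
    simp [ht2]
  · rw [if_neg h0]
    have hm2 : m = 0 ∨ m = 1 := by omega
    rcases hm2 with rfl | rfl
    · have : D.card = 0 := hm
      have h3 : (D ∩ t).card = 0 := by omega
      have h4 : (D \ t).card = 0 := by omega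
      rw [h3, h4]
      simp
    · have hD2 : D.card = 2 := hm
      have h5 : (D ∪ t).card ≤ 3 := (card_le_card (union_subset hD ht)).trans hT
      have h6 : (D ∪ t).card + (D ∩ t).card = D.card + t.card := Finset.card_union_add_card_inter D t
      have h7 : (D ∩ t).card ≠ 2 := by
        intro h8
        have h9 : D ∩ t = D := Finset.eq_of_subset_of_card_le inter_subset_left (by omega)
        have h10 : D ∩ t = t := Finset.eq_of_subset_of_card_le inter_subset_right (by omega)
        exact h0 (h9.symm.trans h10)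
      have h11 : (D ∩ t).card ≤ 2 := by
        rw [← hD2]
        exact card_le_card inter_subset_left
      have h12 : (D ∩ t).card = 1 := by omega
      have h13 : (D \ t).card = 1 := by omega
      rw [h12, h13]
      simp

lemma sum_card_inter {J : Type} [Fintype J] (D : J → Finset E) (c : E → ℕ) (S : Finset E)
    (hc : ∀ e ∈ S, (univ.filter (fun j => e ∈ D j)).card = c e) :
    ∑ j, ((D j ∩ S).card : ℤ) = ∑ e ∈ S, (c e : ℤ) := by
  have h1 : ∀ j, ((D j ∩ S).card : ℤ) = ∑ e ∈ S, (if e ∈ D j then (1 : ℤ) else 0) := by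
    intro j
    rw [Finset.sum_boole, inter_comm, ← Finset.filter_mem_eq_inter]
  simp_rw [h1]
  rw [Finset.sum_comm]
  apply Finset.sum_congr rfl
  intro e he
  rw [Finset.sum_boole, hc e he]

/-- the number of members with a given two-element trace -/
lemma count_two {J : Type} [Fintype J] (T t : Finset E) (hT : T.card ≤ 3) (ht : t ⊆ T) (ht2 : t.card = 2)
    (D : J → Finset E) (c : E → ℕ) (hev : ∀ j, Even (D j ∩ T).card)
    (hc : ∀ e ∈ T, (univ.filter (fun j => e ∈ D j)).card = c e) :
    (2 * ((univ.filter (fun j => D j ∩ T = t)).card : ℤ)) = ∑ e ∈ t, (c e : ℤ) - ∑ e ∈ T \ t, (c e : ℤ) := by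
  have h1 : (2 * ((univ.filter (fun j => D j ∩ T = t)).card : ℤ)) =
      ∑ j, (2 * (if D j ∩ T = t then 1 else 0) : ℤ) := by
    rw [← Finset.mul_sum, Finset.sum_boole]
  rw [h1, ← sum_card_inter D c t (fun e he => hc e (ht he)),
    ← sum_card_inter D c (T \ t) (fun e he => hc e (mem_sdiff.1 he).1), ← Finset.sum_sub_distrib]
  apply Finset.sum_congr rfl
  intro j _
  rw [trace_ident T t (D j ∩ T) hT ht ht2 inter_subset_right (hev j)]
  have h2 : D j ∩ T ∩ t = D j ∩ t := by
    rw [inter_assoc, inter_eq_right.2 ht]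
  have h3 : (D j ∩ T) \ t = D j ∩ (T \ t) := by
    ext x
    simp only [mem_sdiff, mem_inter]
    tauto
  rw [h2, h3]

/-- matching of two covers with the same marginals on a cut of at most three edges -/
lemma exists_match {J1 J2 : Type} [Fintype J1] [Fintype J2] (T : Finset E) (hT : T.card ≤ 3)
    (D1 : J1 → Finset E) (D2 : J2 → Finset E) (c : E → ℕ) (hcard : Fintype.card J1 = Fintype.card J2)
    (hev1 : ∀ j, Even (D1 j ∩ T).card) (hev2 : ∀ j, Even (D2 j ∩ T).card)
    (hc1 : ∀ e ∈ T, (univ.filter (fun j => e ∈ D1 j)).card = c e)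
    (hc2 : ∀ e ∈ T, (univ.filter (fun j => e ∈ D2 j)).card = c e) :
    ∃ φ : J1 ≃ J2, ∀ j, D2 (φ j) ∩ T = D1 j ∩ T := by
  classical
  have hne : ∀ t : Finset E, t ≠ ∅ →
      (univ.filter (fun j => D1 j ∩ T = t)).card = (univ.filter (fun j => D2 j ∩ T = t)).card := by
    intro t ht0
    by_cases h : t ⊆ T ∧ Even t.card
    · obtain ⟨h1, m, hm⟩ := h
      have h2 : t.card ≤ 3 := (card_le_card h1).trans hT
      have h3 : t.card ≠ 0 := fun h => ht0 (card_eq_zero.1 h)
      have h4 : t.card = 2 := by omega
      have e1 := count_two T t hT h1 h4 D1 c hev1 hc1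
      have e2 := count_two T t hT h1 h4 D2 c hev2 hc2
      have e3 := e1.trans e2.symm
      omega
    · have e1 : univ.filter (fun j => D1 j ∩ T = t) = ∅ := by
        apply filter_eq_empty_iff.2
        intro j _ hj
        apply h
        rw [← hj]
        exact ⟨inter_subset_right, hev1 j⟩
      have e2 : univ.filter (fun j => D2 j ∩ T = t) = ∅ := by
        apply filter_eq_empty_iff.2
        intro j _ hj
        apply h
        rw [← hj]
        exact ⟨inter_subset_right, hev2 j⟩
      rw [e1, e2]
      simp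
  have hall : ∀ t : Finset E,
      (univ.filter (fun j => D1 j ∩ T = t)).card = (univ.filter (fun j => D2 j ∩ T = t)).card := by
    intro t
    by_cases ht : t = ∅
    · subst ht
      have s1 := Finset.card_eq_sum_card_fiberwise (f := fun j => D1 j ∩ T) (s := (univ : Finset J1))
        (t := T.powerset) (fun j _ => by
          rw [mem_coe, mem_powerset]
          exact inter_subset_right)
      have s2 := Finset.card_eq_sum_card_fiberwise (f := fun j => D2 j ∩ T) (s := (univ : Finset J2))
        (t := T.powerset) (fun j _ => by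
          rw [mem_coe, mem_powerset]
          exact inter_subset_right)
      rw [← Finset.add_sum_erase _ _ (empty_mem_powerset T)] at s1 s2
      have s3 : ∑ x ∈ T.powerset.erase ∅, (univ.filter (fun j => D1 j ∩ T = x)).card
          = ∑ x ∈ T.powerset.erase ∅, (univ.filter (fun j => D2 j ∩ T = x)).card := by
        apply Finset.sum_congr rfl
        intro x hx
        exact hne x (mem_erase.1 hx).1
      rw [card_univ] at s1 s2
      rw [hcard] at s1
      omega
    · exact hne t ht
  have hfib : ∀ t : Finset E, Nonempty ({j // D1 j ∩ T = t} ≃ {j // D2 j ∩ T = t}) := by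
    intro t
    apply Fintype.card_eq.1
    rw [Fintype.card_subtype, Fintype.card_subtype]
    exact hall t
  let Ψ : ∀ t : Finset E, {j // D1 j ∩ T = t} ≃ {j // D2 j ∩ T = t} := fun t => (hfib t).some
  let Φ : J1 ≃ J2 := (Equiv.sigmaFiberEquiv (fun j => D1 j ∩ T)).symm.trans
    ((Equiv.sigmaCongrRight Ψ).trans (Equiv.sigmaFiberEquiv (fun j => D2 j ∩ T)))
  refine ⟨Φ, ?_⟩
  intro j
  show D2 ((Ψ (D1 j ∩ T)) ⟨j, rfl⟩).1 ∩ T = D1 j ∩ T
  exact ((Ψ (D1 j ∩ T)) ⟨j, rfl⟩).2

end

section

variable {V E : Type} [DecidableEq V] [Fintype E] [DecidableEq E]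

/-- the contraction of the complement of `X` -/
def c1 (X : Finset V) (v : V) : Option V := if v ∈ X then some v else none
/-- the contraction of `X` -/
def c2 (X : Finset V) (v : V) : Option V := if v ∈ X then none else some v

lemma dl_c1_none (X : Finset V) (x : V) : dl (c1 X x) none = if x ∈ X then 0 else 1 := by
  unfold dl c1
  by_cases h : x ∈ X
  · simp [h]
  · simp [h]

lemma dl_c2_none (X : Finset V) (x : V) : dl (c2 X x) none = if x ∈ X then 1 else 0 := by
  unfold dl c2
  by_cases h : x ∈ X
  · simp [h]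
  · simp [h]

lemma dl_c1_some (X : Finset V) (x v : V) (hv : v ∈ X) : dl (c1 X x) (some v) = dl x v := by
  unfold dl c1
  by_cases h : x ∈ X
  · simp [h]
  · have : v ≠ x := fun h' => h (h' ▸ hv)
    simp [h, this]

lemma dl_c2_some (X : Finset V) (x v : V) (hv : v ∉ X) : dl (c2 X x) (some v) = dl x v := by
  unfold dl c2
  by_cases h : x ∈ X
  · have : v ≠ x := fun h' => hv (h' ▸ h)
    simp [h, this]
  · simp [h]

lemma bd_apply (a b : E → V) (D : Finset E) (v : V) :
    bd a b D v = ∑ e ∈ D, (dl (a e) v + dl (b e) v) := by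
  unfold bd
  rw [Finset.sum_apply]
  rfl

lemma even_of_c1 (a b : E → V) (X : Finset V) (D : Finset E)
    (hD : EvenM (fun e => c1 X (a e)) (fun e => c1 X (b e)) D) :
    Even (D ∩ univ.filter (fun e => Crs a b X e)).card := by
  have h1 := congrFun hD none
  rw [bd_apply] at h1
  have h2 : ∀ e ∈ D, dl (c1 X (a e)) none + dl (c1 X (b e)) none = if Crs a b X e then (1 : ZMod 2) else 0 := by
    intro e _
    rw [dl_c1_none, dl_c1_none]
    unfold Crs
    by_cases ha : a e ∈ X <;> by_cases hb : b e ∈ X <;> simp [ha, hb]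
    decide
  rw [Finset.sum_congr rfl h2, Finset.sum_boole] at h1
  have h3 : D ∩ univ.filter (fun e => Crs a b X e) = D.filter (fun e => Crs a b X e) := by
    ext e
    simp only [mem_inter, mem_filter, mem_univ, true_and]
  rw [h3]
  exact (ZMod.natCast_eq_zero_iff_even).1 h1

lemma even_of_c2 (a b : E → V) (X : Finset V) (D : Finset E)
    (hD : EvenM (fun e => c2 X (a e)) (fun e => c2 X (b e)) D) :
    Even (D ∩ univ.filter (fun e => Crs a b X e)).card := by
  have h1 := congrFun hD none
  rw [bd_apply] at h1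
  have h2 : ∀ e ∈ D, dl (c2 X (a e)) none + dl (c2 X (b e)) none = if Crs a b X e then (1 : ZMod 2) else 0 := by
    intro e _
    rw [dl_c2_none, dl_c2_none]
    unfold Crs
    by_cases ha : a e ∈ X <;> by_cases hb : b e ∈ X <;> simp [ha, hb]
    decide
  rw [Finset.sum_congr rfl h2, Finset.sum_boole] at h1
  have h3 : D ∩ univ.filter (fun e => Crs a b X e) = D.filter (fun e => Crs a b X e) := by
    ext e
    simp only [mem_inter, mem_filter, mem_univ, true_and]
  rw [h3]
  exact (ZMod.natCast_eq_zero_iff_even).1 h1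

/-- the glued edge set -/
def glue (a b : E → V) (X : Finset V) (D1 D2 : Finset E) : Finset E :=
  univ.filter (fun e => if a e ∈ X ∨ b e ∈ X then e ∈ D1 else e ∈ D2)

lemma mem_glue (a b : E → V) (X : Finset V) (D1 D2 : Finset E) (e : E) :
    e ∈ glue a b X D1 D2 ↔ if a e ∈ X ∨ b e ∈ X then e ∈ D1 else e ∈ D2 := by
  unfold glue
  simp only [mem_filter, mem_univ, true_and]

lemma sum_dl_congr (f g : E → ZMod 2) (D D' : Finset E) (h1 : ∀ e, f e = g e)
    (h2 : ∀ e, (e ∈ D ↔ e ∈ D') ∨ f e = 0) : ∑ e ∈ D, f e = ∑ e ∈ D', g e := by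
  rw [← Finset.sum_filter_add_sum_filter_not D (fun e => e ∈ D'),
    ← Finset.sum_filter_add_sum_filter_not D' (fun e => e ∈ D)]
  have e1 : ∑ e ∈ D.filter (fun e => ¬ e ∈ D'), f e = 0 := by
    apply Finset.sum_eq_zero
    intro e he
    rw [mem_filter] at he
    rcases h2 e with h | h
    · exact absurd (h.1 he.1) he.2
    · exact h
  have e2 : ∑ e ∈ D'.filter (fun e => ¬ e ∈ D), g e = 0 := by
    apply Finset.sum_eq_zero
    intro e he
    rw [mem_filter] at he
    rcases h2 e with h | h
    · exact absurd (h.2 he.1) he.2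
    · rw [← h1, h]
  rw [e1, e2, add_zero, add_zero]
  apply Finset.sum_congr
  · ext e
    simp only [mem_filter]
    tauto
  · intro e _
    exact h1 e

lemma evenM_glue (a b : E → V) (X : Finset V) (D1 D2 : Finset E)
    (h1 : EvenM (fun e => c1 X (a e)) (fun e => c1 X (b e)) D1)
    (h2 : EvenM (fun e => c2 X (a e)) (fun e => c2 X (b e)) D2)
    (htr : D2 ∩ univ.filter (fun e => Crs a b X e) = D1 ∩ univ.filter (fun e => Crs a b X e)) :
    EvenM a b (glue a b X D1 D2) := by
  have hcr : ∀ e, Crs a b X e → (e ∈ D2 ↔ e ∈ D1) := by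
    intro e he
    have := Finset.ext_iff.1 htr e
    simp only [mem_inter, mem_filter, mem_univ, he, and_true] at this
    exact this
  funext v
  rw [bd_apply]
  show _ = (0 : ZMod 2)
  by_cases hv : v ∈ X
  · have h3 : bd (fun e => c1 X (a e)) (fun e => c1 X (b e)) D1 (some v) = (0 : ZMod 2) := congrFun h1 (some v)
    rw [bd_apply] at h3
    rw [← h3]
    apply sum_dl_congr
    · intro e
      rw [dl_c1_some X _ v hv, dl_c1_some X _ v hv]
    · intro e
      by_cases hX : a e ∈ X ∨ b e ∈ X
      · left
        rw [mem_glue, if_pos hX]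
      · right
        push Not at hX
        have ha : v ≠ a e := fun h => hX.1 (h ▸ hv)
        have hb : v ≠ b e := fun h => hX.2 (h ▸ hv)
        unfold dl
        simp [ha, hb]
  · have h3 : bd (fun e => c2 X (a e)) (fun e => c2 X (b e)) D2 (some v) = (0 : ZMod 2) := congrFun h2 (some v)
    rw [bd_apply] at h3
    rw [← h3]
    apply sum_dl_congr
    · intro e
      rw [dl_c2_some X _ v hv, dl_c2_some X _ v hv]
    · intro e
      by_cases hX : a e ∈ X ∧ b e ∈ X
      · right
        have ha : v ≠ a e := fun h => hv (h ▸ hX.1)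
        have hb : v ≠ b e := fun h => hv (h ▸ hX.2)
        unfold dl
        simp [ha, hb]
      · left
        rw [mem_glue]
        by_cases h4 : a e ∈ X ∨ b e ∈ X
        · rw [if_pos h4]
          refine (hcr e ?_).symm
          unfold Crs
          tauto
        · rw [if_neg h4]

end

/-- covers glue over edge cuts with at most three edges -/
theorem good_cut {V E : Type} [DecidableEq V] [Fintype V] [Fintype E] [DecidableEq E] (k : ℕ) (a b : E → V) (X : Finset V)
    (hX : (Finset.univ.filter (fun e => Crs a b X e)).card ≤ 3)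
    (h1 : Good k (fun e => if a e ∈ X then some (a e) else none) (fun e => if b e ∈ X then some (b e) else none))
    (h2 : Good k (fun e => if a e ∈ X then none else some (a e)) (fun e => if b e ∈ X then none else some (b e))) :
    Good k a b := by
  classical
  intro w hw
  obtain ⟨J1, iJ1, D1, hD1, hc1⟩ := h1 w (admN_map a b (c1 X) w hw)
  obtain ⟨J2, iJ2, D2, hD2, hc2⟩ := h2 w (admN_map a b (c2 X) w hw)
  set T := univ.filter (fun e => Crs a b X e) with hT
  let F1 : J1 ⊕ J2 → Finset E := Sum.elim D1 (fun _ => ∅)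
  let F2 : J2 ⊕ J1 → Finset E := Sum.elim D2 (fun _ => ∅)
  have hF1 : ∀ j, EvenM (fun e => c1 X (a e)) (fun e => c1 X (b e)) (F1 j) := by
    rintro (j | j)
    · exact hD1 j
    · exact bd_empty _ _
  have hF2 : ∀ j, EvenM (fun e => c2 X (a e)) (fun e => c2 X (b e)) (F2 j) := by
    rintro (j | j)
    · exact hD2 j
    · exact bd_empty _ _
  have hn1 : ∀ e, (univ.filter (fun j => e ∈ F1 j)).card = k * w e := by
    intro e
    rw [← hc1 e, Finset.card_filter, Fintype.sum_sum_type]
    simp only [F1, Sum.elim_inl, Sum.elim_inr, Finset.notMem_empty, if_false, Finset.sum_const_zero, add_zero]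
    exact (Finset.card_filter _ _).symm
  have hn2 : ∀ e, (univ.filter (fun j => e ∈ F2 j)).card = k * w e := by
    intro e
    rw [← hc2 e, Finset.card_filter, Fintype.sum_sum_type]
    simp only [F2, Sum.elim_inl, Sum.elim_inr, Finset.notMem_empty, if_false, Finset.sum_const_zero, add_zero]
    exact (Finset.card_filter _ _).symm
  have hcard : Fintype.card (J1 ⊕ J2) = Fintype.card (J2 ⊕ J1) := by
    rw [Fintype.card_sum, Fintype.card_sum, add_comm]
  obtain ⟨φ, hφ⟩ := exists_match T hX F1 F2 (fun e => k * w e) hcard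
    (fun j => even_of_c1 a b X _ (hF1 j)) (fun j => even_of_c2 a b X _ (hF2 j))
    (fun e _ => hn1 e) (fun e _ => hn2 e)
  refine ⟨J1 ⊕ J2, inferInstance, fun j => glue a b X (F1 j) (F2 (φ j)), ?_, ?_⟩
  · intro j
    exact evenM_glue a b X _ _ (hF1 j) (hF2 (φ j)) (hφ j)
  · intro e
    by_cases h : a e ∈ X ∨ b e ∈ X
    · rw [← hn1 e]
      congr 1
      ext j
      simp only [mem_filter, mem_univ, true_and, mem_glue, if_pos h]
    · rw [← hn2 e]
      apply Finset.card_bij (fun j _ => φ j)
      · intro j hj
        simp only [mem_filter, mem_univ, true_and, mem_glue, if_neg h] at hj ⊢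
        exact hj
      · intro j _ j' _ hjj
        exact φ.injective hjj
      · intro j hj
        simp only [mem_filter, mem_univ, true_and] at hj
        refine ⟨φ.symm j, ?_, φ.apply_symm_apply j⟩
        simp only [mem_filter, mem_univ, true_and, mem_glue, if_neg h, φ.apply_symm_apply]
        exact hj

end Pool.Agent.H35.FC
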