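import Pool.Agent.H35.FC.Stm

/-!
# Finite maximal codes are complete

A finite maximal code `C` which contains the letter `a` satisfies `Setup C a`: for every word `w`
some `a ^ n w a ^ n` lies in the submonoid generated by `C`.
-/

set_option autoImplicit false

namespace Pool.Agent.H35.FC

section
variable {α : Type} {C : Set (List α)}

private lemma max_nil_mem : ([] : List α) ∈ Star C := ⟨[], by simp, rfl⟩

private lemma max_mem_star {c : List α} (h : c ∈ C) : c ∈ Star C :=
  ⟨[c], by simpa using h, by simp⟩

private lemma max_append {u v : List α} (hu : u ∈ Star C) (hv : v ∈ Star C) :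
    u ++ v ∈ Star C := by
  obtain ⟨L, hL, rfl⟩ := hu
  obtain ⟨M, hM, rfl⟩ := hv
  refine ⟨L ++ M, ?_, by simp⟩
  intro c hc
  rcases List.mem_append.1 hc with h | h
  · exact hL c h
  · exact hM c h

private lemma max_replicate {a : α} (h : [a] ∈ C) (n : ℕ) : List.replicate n a ∈ Star C := by
  induction n with
  | zero => exact max_nil_mem
  | succ n ih =>
    have h1 : List.replicate (n + 1) a = [a] ++ List.replicate n a := rfl
    rw [h1]
    exact max_append (max_mem_star h) ih

/-- A factorization seen from a point. -/
private lemma max_split (L : List (List α)) (hL : ∀ c ∈ L, c ∈ C) :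
    ∀ u v : List α, L.flatten = u ++ v →
      (u ∈ Star C ∧ v ∈ Star C) ∨ ∃ X p s Y : List α, X ∈ Star C ∧ Y ∈ Star C ∧ p ≠ [] ∧
        s ≠ [] ∧ p ++ s ∈ C ∧ u = X ++ p ∧ v = s ++ Y := by
  induction L with
  | nil =>
    intro u v h
    have h1 : u ++ v = [] := by simpa using h.symm
    rw [List.append_eq_nil_iff] at h1
    left
    rw [h1.1, h1.2]
    exact ⟨max_nil_mem, max_nil_mem⟩
  | cons c L ih =>
    intro u v h
    have hc : c ∈ C := hL c (by simp)
    have hL' : ∀ c ∈ L, c ∈ C := fun d hd => hL d (by simp [hd])
    rw [List.flatten_cons, List.append_eq_append_iff] at h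
    rcases h with ⟨t, h1, h2⟩ | ⟨t, h1, h2⟩
    · -- `u = c ++ t`
      rcases ih hL' t v h2 with ⟨h3, h4⟩ | ⟨X, p, s, Y, h3, h4, h5, h6, h7, h8, h9⟩
      · left
        rw [h1]
        exact ⟨max_append (max_mem_star hc) h3, h4⟩
      · right
        refine ⟨c ++ X, p, s, Y, max_append (max_mem_star hc) h3, h4, h5, h6, h7, ?_, h9⟩
        rw [h1, h8, List.append_assoc]
    · -- `c = u ++ t`
      have hf : L.flatten ∈ Star C := ⟨L, hL', rfl⟩
      by_cases hu : u = []
      · left
        subst hu
        refine ⟨max_nil_mem, ?_⟩
        rw [h2]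
        have : t = c := by simpa using h1.symm
        rw [this]
        exact max_append (max_mem_star hc) hf
      · by_cases ht : t = []
        · left
          subst ht
          have h3 : c = u := by simpa using h1
          have h4 : v = L.flatten := by simpa using h2
          rw [← h3, h4]
          exact ⟨max_mem_star hc, hf⟩
        · right
          exact ⟨[], u, t, L.flatten, max_nil_mem, hf, hu, ht, h1 ▸ hc, by simp, h2⟩

/-- A long block of letters `a` contains a cut. -/
private lemma max_cut {a : α} {K : ℕ} (hK : ∀ c ∈ C, c.length ≤ K) {X Y : List α}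
    (h : X ++ (List.replicate K a ++ Y) ∈ Star C) :
    ∃ i j : ℕ, X ++ List.replicate i a ∈ Star C ∧ List.replicate j a ++ Y ∈ Star C := by
  obtain ⟨L, hL, hf⟩ := h
  rcases max_split L hL _ _ hf with ⟨h1, h2⟩ | ⟨X', p, s, Y', h1, h2, h3, h4, h5, h6, h7⟩
  · exact ⟨0, K, by simpa using h1, h2⟩
  · have hlen : (p ++ s).length ≤ K := hK _ h5
    rw [List.length_append] at hlen
    have hs : s.length ≤ K := by omega
    rw [List.append_eq_append_iff] at h7
    have key : ∃ t, List.replicate K a = s ++ t ∧ Y' = t ++ Y := by
      rcases h7 with ⟨t, h8, h9⟩ | ⟨t, h8, h9⟩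
      · -- `s = replicate K a ++ t`
        have h10 : t = [] := by
          have := congrArg List.length h8
          rw [List.length_append, List.length_replicate] at this
          exact List.length_eq_zero_iff.1 (by omega)
        subst h10
        exact ⟨[], by simpa using h8.symm, by simpa using h9.symm⟩
      · exact ⟨t, h8, h9⟩
    obtain ⟨t, h8, h9⟩ := key
    have h10 : s = List.replicate s.length a := by
      rw [List.eq_replicate_iff]
      refine ⟨rfl, fun b hb => ?_⟩
      have : b ∈ List.replicate K a := by rw [h8]; exact List.mem_append_left _ hb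
      exact List.eq_of_mem_replicate this
    have h11 : t = List.replicate t.length a := by
      rw [List.eq_replicate_iff]
      refine ⟨rfl, fun b hb => ?_⟩
      have : b ∈ List.replicate K a := by rw [h8]; exact List.mem_append_right _ hb
      exact List.eq_of_mem_replicate this
    refine ⟨s.length, t.length, ?_, ?_⟩
    · rw [← h10, h6, List.append_assoc]
      exact max_append h1 (max_mem_star h5)
    · rw [← h11, ← h9]
      exact h2

/-- If every word is a factor of the submonoid, then every word can be completed by powers
of `a`. -/
private lemma max_comp {a : α} (hfin : C.Finite) (ha : [a] ∈ C)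
    (hfac : ∀ w : List α, ∃ u v, u ++ (w ++ v) ∈ Star C) (w : List α) :
    ∃ n : ℕ, List.replicate n a ++ w ++ List.replicate n a ∈ Star C := by
  obtain ⟨K, hK⟩ : ∃ K : ℕ, ∀ c ∈ C, c.length ≤ K := by
    obtain ⟨K, hK⟩ := (hfin.image List.length).bddAbove
    exact ⟨K, fun c hc => hK ⟨c, hc, rfl⟩⟩
  obtain ⟨u, v, h⟩ := hfac (List.replicate K a ++ (w ++ List.replicate K a))
  have h1 : u ++ (List.replicate K a ++ (w ++ (List.replicate K a ++ v))) ∈ Star C := by
    simpa only [List.append_assoc] using h
  obtain ⟨-, j, -, h2⟩ := max_cut hK h1
  have h3 : (List.replicate j a ++ w) ++ (List.replicate K a ++ v) ∈ Star C := by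
    simpa only [List.append_assoc] using h2
  obtain ⟨i, -, h4, -⟩ := max_cut hK h3
  refine ⟨max i j, ?_⟩
  have h5 : List.replicate (max i j) a = List.replicate (max i j - j) a ++ List.replicate j a := by
    rw [List.replicate_append_replicate]
    congr 1
    omega
  have h6 : List.replicate (max i j) a = List.replicate i a ++ List.replicate (max i j - i) a := by
    rw [List.replicate_append_replicate]
    congr 1
    omega
  have h7 : List.replicate (max i j) a ++ w ++ List.replicate (max i j) a =
      List.replicate (max i j - j) a ++ ((List.replicate j a ++ w ++ List.replicate i a) ++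
        List.replicate (max i j - i) a) := by
    conv_lhs => rw [h6]
    rw [← h6]
    conv_lhs => rw [h5]
    rw [← h5]
    simp only [List.append_assoc]
    rw [← List.append_assoc (List.replicate (max i j - j) a) (List.replicate j a), ← h5, ← h6]
  rw [h7]
  exact max_append (max_replicate ha _) (max_append h4 (max_replicate ha _))

/-- The word `w y ^ |w|` is unbordered if `w` begins with `x ≠ y`. -/
private lemma max_unbordered {x y : α} (hxy : x ≠ y) (w' : List α) (t s v : List α)
    (hv : v = (x :: w') ++ List.replicate (x :: w').length y)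
    (h : v = t ++ s) (hp : s <+: v) (ht : t ≠ []) (hs : s ≠ []) : False := by
  have hlv : v.length = 2 * (w'.length + 1) := by
    rw [hv, List.length_append, List.length_replicate, List.length_cons]; ring
  have hls : t.length + s.length = 2 * (w'.length + 1) := by
    rw [← List.length_append, ← h, hlv]
  have htpos : 0 < t.length := List.length_pos_of_ne_nil ht
  have hspos : 0 < s.length := List.length_pos_of_ne_nil hs
  have hper : ∀ i, i < s.length → v[i + t.length]? = v[i]? := by
    intro i hi
    obtain ⟨r, hr⟩ := hp
    have h1 : v[i + t.length]? = s[i]? := by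
      rw [h, List.getElem?_append_right (by omega)]
      congr 1
      omega
    have h2 : v[i]? = s[i]? := by
      rw [← hr, List.getElem?_append_left hi]
    rw [h1, h2]
  have h0 : v[0]? = some x := by rw [hv]; rfl
  have hy : ∀ k, w'.length + 1 ≤ k → k < 2 * (w'.length + 1) → v[k]? = some y := by
    intro k h1 h2
    rw [hv, List.getElem?_append_right (by simpa using h1), List.getElem?_replicate]
    simp only [List.length_cons]
    rw [if_pos (by omega)]
  rcases Nat.lt_or_ge t.length (w'.length + 1) with hlt | hge
  · have hall : ∀ n k, 2 * (w'.length + 1) - k ≤ n → k < 2 * (w'.length + 1) →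
        v[k]? = some y := by
      intro n
      induction n with
      | zero => intro k h1 h2; omega
      | succ n ih =>
        intro k h1 h2
        by_cases hk : w'.length + 1 ≤ k
        · exact hy k hk h2
        · rw [← hper k (by omega)]
          exact ih _ (by omega) (by omega)
    have h1 := hall _ 0 le_rfl (by omega)
    rw [h0] at h1
    exact hxy (Option.some.inj h1)
  · have h1 := hper 0 hspos
    rw [h0, zero_add, hy _ hge (by omega)] at h1
    exact hxy (Option.some.inj h1).symm

/-- First occurrence of an element in a list. -/
private lemma max_first {v : List α} (L : List (List α)) (hL : ∀ c ∈ L, c ∈ insert v C)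
    (h : ¬ ∀ c ∈ L, c ∈ C) :
    ∃ L1 L2 : List (List α), L = L1 ++ v :: L2 ∧ (∀ c ∈ L1, c ∈ C) ∧
      ∀ c ∈ L2, c ∈ insert v C := by
  induction L with
  | nil => exact absurd (by simp) h
  | cons c L ih =>
    have hL' : ∀ d ∈ L, d ∈ insert v C := fun d hd => hL d (by simp [hd])
    by_cases hc : c ∈ C
    · obtain ⟨L1, L2, h1, h2, h3⟩ := ih hL' (by
        intro h4
        refine h ?_
        intro d hd
        rcases List.mem_cons.1 hd with rfl | h5
        · exact hc
        · exact h4 d h5)
      refine ⟨c :: L1, L2, by rw [h1]; rfl, ?_, h3⟩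
      intro d hd
      rcases List.mem_cons.1 hd with rfl | h5
      · exact hc
      · exact h2 d h5
    · rcases hL c (by simp) with rfl | h4
      · exact ⟨[], L, rfl, by simp, hL'⟩
      · exact absurd h4 hc

/-- Two first occurrences of `v` coincide. -/
private lemma max_pos {v : List α} (hfac : ∀ s t : List α, s ++ (v ++ t) ∉ Star C)
    (hunb : ∀ t s : List α, v = t ++ s → s <+: v → t ≠ [] → s ≠ [] → False)
    {p q r r' : List α} (hq : q ∈ Star C)
    (h : p ++ (v ++ r) = q ++ (v ++ r')) (hle : p.length ≤ q.length) : p = q := by
  rw [List.append_eq_append_iff] at h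
  have key : ∃ t, q = p ++ t ∧ v ++ r = t ++ (v ++ r') := by
    rcases h with h | ⟨t, h1, h2⟩
    · exact h
    · have h3 : t = [] := by
        have := congrArg List.length h1
        rw [List.length_append] at this
        exact List.length_eq_zero_iff.1 (by omega)
      subst h3
      exact ⟨[], by simpa using h1.symm, by simpa using h2.symm⟩
  obtain ⟨t, h1, h2⟩ := key
  by_cases ht : t = []
  · subst ht
    simpa using h1.symm
  exfalso
  rw [List.append_eq_append_iff] at h2
  rcases h2 with ⟨s, h3, -⟩ | ⟨s, h3, h4⟩
  · -- `t = v ++ s`
    refine hfac p s ?_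
    rw [← h3, ← h1]
    exact hq
  · -- `v = t ++ s`
    by_cases hs : s = []
    · subst hs
      refine hfac p [] ?_
      have h5 : v = t := by simpa using h3
      rw [h5, List.append_nil, ← h1]
      exact hq
    · refine hunb t s h3 ?_ ht hs
      have h5 : s <+: v ++ r' := ⟨r, h4.symm⟩
      have h6 : v <+: v ++ r' := ⟨r', rfl⟩
      refine List.prefix_of_prefix_length_le h5 h6 ?_
      rw [h3, List.length_append]
      omega

/-- Adding an unbordered word which is not a factor of the submonoid gives a code. -/
private lemma max_code {v : List α} (hC : IsCode C) (hv : v ≠ [])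
    (hfac : ∀ s t : List α, s ++ (v ++ t) ∉ Star C)
    (hunb : ∀ t s : List α, v = t ++ s → s <+: v → t ≠ [] → s ≠ [] → False) :
    IsCode (insert v C) := by
  refine ⟨?_, ?_⟩
  · rintro (h | h)
    · exact hv h.symm
    · exact hC.1 h
  have main : ∀ n : ℕ, ∀ L M : List (List α), L.length ≤ n → (∀ c ∈ L, c ∈ insert v C) →
      (∀ c ∈ M, c ∈ insert v C) → L.flatten = M.flatten → L = M := by
    intro n
    induction n with
    | zero =>
      intro L M h1 h2 h3 h4
      have h5 : L = [] := List.length_eq_zero_iff.1 (by omega)
      subst h5
      cases M with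
      | nil => rfl
      | cons c M =>
        exfalso
        rw [List.flatten_nil, List.flatten_cons] at h4
        have h5 : c = [] := (List.append_eq_nil_iff.1 h4.symm).1
        rcases h3 c (by simp) with h | h
        · exact hv (h ▸ h5)
        · exact hC.1 (h5 ▸ h)
    | succ n ih =>
      intro L M h1 h2 h3 h4
      by_cases hLC : ∀ c ∈ L, c ∈ C
      · by_cases hMC : ∀ c ∈ M, c ∈ C
        · exact hC.2 L M hLC hMC h4
        · exfalso
          obtain ⟨M1, M2, h5, -, -⟩ := max_first M h3 hMC
          refine hfac M1.flatten M2.flatten ?_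
          refine ⟨L, hLC, ?_⟩
          rw [h4, h5, List.flatten_append, List.flatten_cons]
      · obtain ⟨L1, L2, h5, h6, h7⟩ := max_first L h2 hLC
        by_cases hMC : ∀ c ∈ M, c ∈ C
        · exfalso
          refine hfac L1.flatten L2.flatten ?_
          refine ⟨M, hMC, ?_⟩
          rw [← h4, h5, List.flatten_append, List.flatten_cons]
        · obtain ⟨M1, M2, h8, h9, h10⟩ := max_first M h3 hMC
          rw [h5, h8, List.flatten_append, List.flatten_cons, List.flatten_append,
            List.flatten_cons] at h4
          have h11 : L1.flatten = M1.flatten := by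
            rcases le_total L1.flatten.length M1.flatten.length with hle | hle
            · exact max_pos hfac hunb ⟨M1, h9, rfl⟩ h4 hle
            · exact (max_pos hfac hunb ⟨L1, h6, rfl⟩ h4.symm hle).symm
          have h12 : L1 = M1 := hC.2 L1 M1 h6 h9 h11
          rw [h11] at h4
          have h13 : L2.flatten = M2.flatten :=
            List.append_cancel_left (List.append_cancel_left h4)
          have h14 : L2 = M2 := by
            refine ih L2 M2 ?_ h7 h10 h13
            have := congrArg List.length h5
            rw [List.length_append, List.length_cons] at this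
            omega
          rw [h5, h8, h12, h14]
  intro L M h2 h3 h4
  exact main L.length L M le_rfl h2 h3 h4

end

/-- **Finite maximal codes are complete.** -/
theorem maxP : SMax := by
  intro α _ _ C a hfin hC hmax ha
  refine ⟨hfin, hC, ha, ?_⟩
  by_cases hb : ∃ b : α, b ≠ a
  · obtain ⟨b, hb⟩ := hb
    refine max_comp hfin ha ?_
    intro w
    by_contra hcon
    push Not at hcon
    cases w with
    | nil => exact hcon [] [] (by simpa using max_nil_mem)
    | cons x w' =>
      obtain ⟨y, hy⟩ : ∃ y, x ≠ y := by
        by_cases hx : x = a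
        · exact ⟨b, fun h => hb (h.symm.trans hx)⟩
        · exact ⟨a, hx⟩
      obtain ⟨v, hv⟩ : ∃ v, v = (x :: w') ++ List.replicate (x :: w').length y := ⟨_, rfl⟩
      have hv0 : v ≠ [] := by rw [hv]; simp
      have hfac : ∀ s t : List α, s ++ (v ++ t) ∉ Star C := by
        intro s t h
        refine hcon s (List.replicate (x :: w').length y ++ t) ?_
        rw [← List.append_assoc (x :: w'), ← hv]
        exact h
      have hcode : IsCode (insert v C) := max_code hC hv0 hfac
        fun t s h1 h2 h3 h4 => max_unbordered hy w' t s v hv h1 h2 h3 h4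
      have h1 : insert v C = C := hmax _ hcode (Set.subset_insert _ _)
      have h2 : v ∈ C := h1 ▸ Set.mem_insert v C
      refine hfac [] [] ?_
      simpa using max_mem_star h2
  · push Not at hb
    intro w
    refine ⟨0, ?_⟩
    have h1 : w = List.replicate w.length a := by
      rw [List.eq_replicate_iff]
      exact ⟨rfl, fun c _ => hb c⟩
    have h2 := max_replicate ha w.length
    rw [← h1] at h2
    simpa using h2

end Pool.Agent.H35.FC
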