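import Pool.Agent.H35.FC.Base

/-!
# The partition (P1)

Every word is either covered by one codeword meeting both contexts, or it has a unique
factorization into a word of `Aset g`, a word of `Star C` and a word of `Bset f`.
-/

set_option autoImplicit false

namespace Pool.Agent.H35.FC

variable {α : Type} {C : Set (List α)} {a : α}

private theorem aset_raise (ha : [a] ∈ C) {g v : List α} (hv : v ∈ Aset C a g) :
    ∃ n0 : ℕ, ∀ n, n0 ≤ n → ∃ x p : List α, x ∈ Star C ∧ p ≠ [] ∧
      List.replicate n a ++ g = x ++ p ∧ p ++ v ∈ C := by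
  obtain ⟨n0, x, p, hx, hp, h, hc⟩ := hv
  refine ⟨n0, fun n hn => ?_⟩
  obtain ⟨k, rfl⟩ := Nat.exists_eq_add_of_le' hn
  refine ⟨List.replicate k a ++ x, p, star_append (rep_star ha k) hx, hp, ?_, hc⟩
  rw [List.replicate_add, List.append_assoc, h, List.append_assoc]

private theorem bset_raise (ha : [a] ∈ C) {f v : List α} (hv : v ∈ Bset C a f) :
    ∃ n0 : ℕ, ∀ n, n0 ≤ n → ∃ s y : List α, y ∈ Star C ∧ s ≠ [] ∧
      f ++ List.replicate n a = s ++ y ∧ v ++ s ∈ C := by
  obtain ⟨n0, s, y, hy, hs, h, hc⟩ := hv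
  refine ⟨n0, fun n hn => ?_⟩
  obtain ⟨k, rfl⟩ := Nat.exists_eq_add_of_le hn
  refine ⟨s, y ++ List.replicate k a, star_append hy (rep_star ha k), hs, ?_, hc⟩
  rw [List.replicate_add, ← List.append_assoc, h, List.append_assoc]

private theorem nset_raise (ha : [a] ∈ C) {g f u : List α} (hu : u ∈ Nset C a g f) :
    ∃ n0 : ℕ, ∀ n, n0 ≤ n → ∃ x p s y : List α, x ∈ Star C ∧ y ∈ Star C ∧ p ≠ [] ∧ s ≠ [] ∧
      List.replicate n a ++ g = x ++ p ∧ f ++ List.replicate n a = s ++ y ∧ p ++ u ++ s ∈ C := by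
  obtain ⟨n0, x, p, s, y, hx, hy, hp, hs, h1, h2, hc⟩ := hu
  refine ⟨n0, fun n hn => ?_⟩
  obtain ⟨k, rfl⟩ := Nat.exists_eq_add_of_le hn
  refine ⟨List.replicate k a ++ x, p, s, y ++ List.replicate k a,
    star_append (rep_star ha k) hx, star_append hy (rep_star ha k), hp, hs, ?_, ?_, hc⟩
  · rw [Nat.add_comm, List.replicate_add, List.append_assoc, h1, List.append_assoc]
  · rw [List.replicate_add, ← List.append_assoc, h2, List.append_assoc]

/-- A factorization, read in the word `a^n g w f a^n` for large `n`. -/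
private theorem fact_raise (ha : [a] ∈ C) {g f w : List α} {t : List α × List α × List α}
    (ht : t ∈ Facts (Aset C a g) (Star C) (Bset C a f) w) :
    ∃ n0 : ℕ, ∀ n, n0 ≤ n → ∃ x p s y : List α, x ∈ Star C ∧ y ∈ Star C ∧ p ≠ [] ∧ s ≠ [] ∧
      List.replicate n a ++ g = x ++ p ∧ f ++ List.replicate n a = s ++ y ∧
      p ++ t.1 ∈ C ∧ t.2.2 ++ s ∈ C := by
  obtain ⟨h1, h2, h3, h4⟩ := ht
  obtain ⟨n1, hn1⟩ := aset_raise ha h1
  obtain ⟨n2, hn2⟩ := bset_raise ha h3
  refine ⟨max n1 n2, fun n hn => ?_⟩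
  obtain ⟨x, p, hx, hp, e1, c1⟩ := hn1 n (le_trans (le_max_left _ _) hn)
  obtain ⟨s, y, hy, hs, e2, c2⟩ := hn2 n (le_trans (le_max_right _ _) hn)
  exact ⟨x, p, s, y, hx, hy, hp, hs, e1, e2, c1, c2⟩

/-- Existence: a word is covered or has a factorization. -/
theorem cover_or_fact (hS : Setup C a) (g f w : List α) :
    w ∈ Nset C a g f ∨ ∃ t, t ∈ Facts (Aset C a g) (Star C) (Bset C a f) w := by
  obtain ⟨n0, h0⟩ := comp_large hS (g ++ w ++ f)
  have h1 := h0 n0 le_rfl
  have h2 : (List.replicate n0 a ++ g) ++ (w ++ (f ++ List.replicate n0 a)) ∈ Star C := by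
    have : (List.replicate n0 a ++ g) ++ (w ++ (f ++ List.replicate n0 a))
        = List.replicate n0 a ++ (g ++ w ++ f) ++ List.replicate n0 a := by
      simp only [List.append_assoc]
    rw [this]
    exact h1
  rcases split α C _ _ h2 with ⟨hu, hv⟩ | ⟨X, p, s, Y, hX, hY, hp, hs, hps, e1, e2⟩
  · have hA : [] ∈ Aset C a g := (nil_mem_aset hS g).2 ⟨n0, hu⟩
    rcases split α C _ _ hv with ⟨hw, hf⟩ | ⟨X, p, s, Y, hX, hY, hp, hs, hps, e1, e2⟩
    · right
      exact ⟨([], w, []), hA, hw, (nil_mem_bset hS f).2 ⟨n0, hf⟩, by simp⟩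
    · right
      refine ⟨([], X, p), hA, hX, ⟨n0, s, Y, hY, hs, e2, hps⟩, ?_⟩
      simp only [List.nil_append]
      exact e1.symm
  · rcases List.append_eq_append_iff.1 e2 with ⟨s', h3, h4⟩ | ⟨w', h3, h4⟩
    · -- s = w ++ s'
      by_cases hs' : s' = []
      · right
        subst hs'
        rw [List.append_nil] at h3
        rw [List.nil_append] at h4
        refine ⟨(w, [], []), ⟨n0, X, p, hX, hp, e1, by rw [← h3]; exact hps⟩, star_nil,
          (nil_mem_bset hS f).2 ⟨n0, by rw [h4]; exact hY⟩, by simp⟩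
      · left
        refine ⟨n0, X, p, s', Y, hX, hY, hp, hs', e1, h4, ?_⟩
        rw [List.append_assoc, ← h3]
        exact hps
    · -- w = s ++ w'
      right
      have hA : s ∈ Aset C a g := ⟨n0, X, p, hX, hp, e1, hps⟩
      rw [h4] at hY
      rcases split α C _ _ hY with ⟨hw, hf⟩ | ⟨X', p', s', Y', hX', hY', hp', hs', hps', e1', e2'⟩
      · refine ⟨(s, w', []), hA, hw, (nil_mem_bset hS f).2 ⟨n0, hf⟩, ?_⟩
        simp only [List.append_nil]
        exact h3.symm
      · refine ⟨(s, X', p'), hA, hX', ⟨n0, s', Y', hY', hs', e2', hps'⟩, ?_⟩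
        show s ++ (X' ++ p') = w
        rw [← e1', h3]

/-- A covered word has no factorization. -/
theorem cover_no_fact (hS : Setup C a) {g f w : List α} (hw : w ∈ Nset C a g f)
    {t : List α × List α × List α} (ht : t ∈ Facts (Aset C a g) (Star C) (Bset C a f) w) :
    False := by
  obtain ⟨n1, h1⟩ := nset_raise hS.mem hw
  obtain ⟨n2, h2⟩ := fact_raise hS.mem ht
  obtain ⟨x, p, s, y, hx, hy, hp, hs, e1, e2, hc⟩ := h1 (max n1 n2) (le_max_left _ _)
  obtain ⟨x', p', s', y', hx', hy', hp', hs', e1', e2', c1, c2⟩ :=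
    h2 (max n1 n2) (le_max_right _ _)
  obtain ⟨hA, hK, hB, hw'⟩ := ht
  have h3 : (x' ++ (p' ++ t.1)) ++ (t.2.1 ++ ((t.2.2 ++ s') ++ y'))
      = x ++ ((p ++ w ++ s) ++ y) := by
    calc (x' ++ (p' ++ t.1)) ++ (t.2.1 ++ ((t.2.2 ++ s') ++ y'))
        = (x' ++ p') ++ (t.1 ++ (t.2.1 ++ t.2.2)) ++ (s' ++ y') := by
          simp only [List.append_assoc]
      _ = (x ++ p) ++ w ++ (s ++ y) := by rw [← e1', ← e2', e1, e2, hw']
      _ = _ := by simp only [List.append_assoc]
  have h4 := cut α C hS.code _ _ _ _ _ (star_append hx' (star_of_mem c1))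
    (star_append hK (star_append (star_of_mem c2) hy')) hx hc hy h3
  have l1 : x'.length + p'.length = x.length + p.length := by
    have := congrArg List.length (e1'.symm.trans e1)
    simpa only [List.length_append] using this
  have l2 : w.length = t.1.length + (t.2.1.length + t.2.2.length) := by
    rw [← hw']
    simp only [List.length_append]
  have l3 : 0 < p.length := List.length_pos_iff.2 hp
  have l4 : 0 < s.length := List.length_pos_iff.2 hs
  simp only [List.length_append] at h4
  omega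

/-- Comparison of two factorizations. -/
private theorem fact_le (hS : Setup C a) {g f w : List α} {t t' : List α × List α × List α}
    (ht : t ∈ Facts (Aset C a g) (Star C) (Bset C a f) w)
    (ht' : t' ∈ Facts (Aset C a g) (Star C) (Bset C a f) w) :
    t'.1.length ≤ t.1.length ∧ t'.2.2.length ≤ t.2.2.length := by
  obtain ⟨n1, h1⟩ := fact_raise hS.mem ht
  obtain ⟨n2, h2⟩ := fact_raise hS.mem ht'
  obtain ⟨x, p, s, y, hx, hy, hp, hs, e1, e2, c1, c2⟩ := h1 (max n1 n2) (le_max_left _ _)
  obtain ⟨x', p', s', y', hx', hy', hp', hs', e1', e2', c1', c2'⟩ :=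
    h2 (max n1 n2) (le_max_right _ _)
  obtain ⟨hA, hK, hB, hw⟩ := ht
  obtain ⟨hA', hK', hB', hw'⟩ := ht'
  have l1 : x'.length + p'.length = x.length + p.length := by
    have := congrArg List.length (e1'.symm.trans e1)
    simpa only [List.length_append] using this
  have l2 : s'.length + y'.length = s.length + y.length := by
    have := congrArg List.length (e2'.symm.trans e2)
    simpa only [List.length_append] using this
  have l3 : t.1.length + (t.2.1.length + t.2.2.length)
      = t'.1.length + (t'.2.1.length + t'.2.2.length) := by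
    have := congrArg List.length (hw.trans hw'.symm)
    simpa only [List.length_append] using this
  have l4 : 0 < p'.length := List.length_pos_iff.2 hp'
  have l5 : 0 < s'.length := List.length_pos_iff.2 hs'
  constructor
  · have h3 : (x ++ (p ++ t.1)) ++ (t.2.1 ++ ((t.2.2 ++ s) ++ y))
        = x' ++ ((p' ++ t'.1) ++ (t'.2.1 ++ ((t'.2.2 ++ s') ++ y'))) := by
      calc (x ++ (p ++ t.1)) ++ (t.2.1 ++ ((t.2.2 ++ s) ++ y))
          = (x ++ p) ++ (t.1 ++ (t.2.1 ++ t.2.2)) ++ (s ++ y) := by
            simp only [List.append_assoc]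
        _ = (x' ++ p') ++ (t'.1 ++ (t'.2.1 ++ t'.2.2)) ++ (s' ++ y') := by
            rw [← e1, ← e2, e1', e2', hw, hw']
        _ = _ := by simp only [List.append_assoc]
    have h4 := cut α C hS.code _ _ _ _ _ (star_append hx (star_of_mem c1))
      (star_append hK (star_append (star_of_mem c2) hy)) hx' c1'
      (star_append hK' (star_append (star_of_mem c2') hy')) h3
    simp only [List.length_append] at h4
    omega
  · have h3 : ((x ++ (p ++ t.1)) ++ t.2.1) ++ ((t.2.2 ++ s) ++ y)
        = ((x' ++ (p' ++ t'.1)) ++ t'.2.1) ++ ((t'.2.2 ++ s') ++ y') := by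
      calc ((x ++ (p ++ t.1)) ++ t.2.1) ++ ((t.2.2 ++ s) ++ y)
          = (x ++ p) ++ (t.1 ++ (t.2.1 ++ t.2.2)) ++ (s ++ y) := by
            simp only [List.append_assoc]
        _ = (x' ++ p') ++ (t'.1 ++ (t'.2.1 ++ t'.2.2)) ++ (s' ++ y') := by
            rw [← e1, ← e2, e1', e2', hw, hw']
        _ = _ := by simp only [List.append_assoc]
    have h4 := cut α C hS.code _ _ _ _ _
      (star_append (star_append hx (star_of_mem c1)) hK)
      (star_append (star_of_mem c2) hy)
      (star_append (star_append hx' (star_of_mem c1')) hK') c2' hy' h3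
    simp only [List.length_append] at h4
    omega

theorem fact_unique (hS : Setup C a) {g f w : List α} {t t' : List α × List α × List α}
    (ht : t ∈ Facts (Aset C a g) (Star C) (Bset C a f) w)
    (ht' : t' ∈ Facts (Aset C a g) (Star C) (Bset C a f) w) : t = t' := by
  obtain ⟨h1, h2⟩ := fact_le hS ht ht'
  obtain ⟨h3, h4⟩ := fact_le hS ht' ht
  obtain ⟨u, c, v⟩ := t
  obtain ⟨u', c', v'⟩ := t'
  obtain ⟨hA, hK, hB, hw⟩ := ht
  obtain ⟨hA', hK', hB', hw'⟩ := ht'
  simp only at h1 h2 h3 h4 hw hw'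
  obtain ⟨e1, e2⟩ := List.append_inj (hw.trans hw'.symm) (le_antisymm h3 h1)
  obtain ⟨e3, e4⟩ := List.append_inj' e2 (le_antisymm h4 h2)
  rw [e1, e3, e4]

/-- (P1), without decidable equality. -/
theorem part_tiles (hS : Setup C a) (g f : List α) :
    Tiles C (Aset C a g) (Bset C a f) (Nset C a g f) := by
  intro w
  refine ⟨fun hw => ?_, fun hw => ?_⟩
  · ext t
    simp only [Set.mem_empty_iff_false, iff_false]
    exact fun ht => cover_no_fact hS hw ht
  · rcases cover_or_fact hS g f w with h | ⟨t, ht⟩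
    · exact absurd h hw
    · exact ⟨t, ht, fun t' ht' => fact_unique hS ht' ht⟩

/-- Row 2. -/
theorem partP : SPart := by
  intro α _ C a hS g f
  exact part_tiles hS g f

/-! ### Finiteness -/

theorem aset_finite (hS : Setup C a) (g : List α) : (Aset C a g).Finite := by
  refine (hS.fin.biUnion (t := fun c => {v | v ∈ c.tails}) (fun c _ => ?_)).subset ?_
  · exact (List.finite_toSet c.tails)
  · rintro v ⟨n, x, p, hx, hp, h, hc⟩
    refine Set.mem_biUnion hc ?_
    show v ∈ (p ++ v).tails
    rw [List.mem_tails]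
    exact List.suffix_append p v

theorem bset_finite (hS : Setup C a) (f : List α) : (Bset C a f).Finite := by
  refine (hS.fin.biUnion (t := fun c => {v | v ∈ c.inits}) (fun c _ => ?_)).subset ?_
  · exact (List.finite_toSet c.inits)
  · rintro v ⟨n, s, y, hy, hs, h, hc⟩
    refine Set.mem_biUnion hc ?_
    show v ∈ (v ++ s).inits
    rw [List.mem_inits]
    exact List.prefix_append v s

theorem nset_finite (hS : Setup C a) (g f : List α) : (Nset C a g f).Finite := by
  refine (hS.fin.biUnion
    (t := fun c => {v | v ∈ (c.tails.map List.inits).flatten}) (fun c _ => ?_)).subset ?_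
  · exact (List.finite_toSet _)
  · rintro u ⟨n, x, p, s, y, hx, hy, hp, hs, h1, h2, hc⟩
    refine Set.mem_biUnion hc ?_
    show u ∈ (((p ++ u ++ s).tails).map List.inits).flatten
    rw [List.mem_flatten]
    refine ⟨(u ++ s).inits, List.mem_map.2 ⟨u ++ s, ?_, rfl⟩, ?_⟩
    · rw [List.mem_tails, List.append_assoc]
      exact List.suffix_append p _
    · rw [List.mem_inits]
      exact List.prefix_append u s

/-- There are words which are not in `Nset`, even powers of `a`. -/
theorem exists_rep_not_nset (hS : Setup C a) (g f : List α) :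
    ∃ k : ℕ, List.replicate k a ∉ Nset C a g f := by
  by_contra h
  push Not at h
  have h1 : Function.Injective (fun k : ℕ => List.replicate k a) := by
    intro k l hkl
    have := congrArg List.length hkl
    simpa using this
  have h2 : (Set.range (fun k : ℕ => List.replicate k a)).Finite :=
    (nset_finite hS g f).subset (by rintro _ ⟨k, rfl⟩; exact h k)
  exact Set.infinite_range_of_injective h1 h2

theorem aset_nonempty (hS : Setup C a) (g : List α) : (Aset C a g).Nonempty := by
  obtain ⟨k, hk⟩ := exists_rep_not_nset hS g []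
  rcases cover_or_fact hS g [] (List.replicate k a) with h | ⟨t, ht⟩
  · exact absurd h hk
  · exact ⟨t.1, ht.1⟩

theorem bset_nonempty (hS : Setup C a) (f : List α) : (Bset C a f).Nonempty := by
  obtain ⟨k, hk⟩ := exists_rep_not_nset hS [] f
  rcases cover_or_fact hS [] f (List.replicate k a) with h | ⟨t, ht⟩
  · exact absurd h hk
  · exact ⟨t.2.2, ht.2.2.1⟩

end Pool.Agent.H35.FC
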