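import Pool.Agent.H35.FC.Stm

/-!
# The construction of the prefix code

If `1 - gf C = (1 - ∑ x) Q` with `Q ≥ 0` then `C` is commutatively equivalent to a prefix code.
-/

set_option autoImplicit false

namespace Pool.Agent.H35.FC

open MvPolynomial

section
variable {α : Type} [Fintype α] [DecidableEq α]

/-- The content of a word. -/
private noncomputable def tc (w : List α) : α →₀ ℕ := Multiset.toFinsupp (w : Multiset α)

omit [Fintype α] in
private lemma tc_nil : tc ([] : List α) = 0 := by
  simp [tc]

omit [Fintype α] in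
private lemma tc_append (u v : List α) : tc (u ++ v) = tc u + tc v := by
  simp [tc, ← Multiset.coe_add]

omit [Fintype α] in
private lemma tc_single (x : α) : tc [x] = Finsupp.single x 1 := by
  simp [tc]

omit [Fintype α] in
private lemma tc_cons (x : α) (v : List α) : tc (x :: v) = Finsupp.single x 1 + tc v := by
  have h := tc_append [x] v
  rwa [List.singleton_append, tc_single] at h

omit [Fintype α] in
private lemma tc_perm {u v : List α} (h : tc u = tc v) : u.Perm v := by
  have := Multiset.toFinsupp.injective h
  exact Multiset.coe_eq_coe.1 this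

omit [Fintype α] in
private lemma tc_degree (w : List α) : (tc w).degree = w.length := by
  induction w with
  | nil => simp [tc_nil]
  | cons x v ih => rw [tc_cons, map_add, ih, Finsupp.degree_single, List.length_cons, add_comm]

omit [Fintype α] in
private lemma prod_eq (w : List α) :
    (w.map X).prod = (monomial (tc w) 1 : MvPolynomial α ℤ) := by
  induction w with
  | nil => simp [tc_nil]
  | cons x v ih =>
    rw [List.map_cons, List.prod_cons, ih, tc_cons, X, monomial_mul, one_mul]

omit [Fintype α] in
private lemma coeff_gf (L : Finset (List α)) (e : α →₀ ℕ) :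
    coeff e (gf L) = ((L.filter fun w => tc w = e).card : ℤ) := by
  rw [gf, coeff_sum, Finset.sum_congr rfl fun w _ => by rw [prod_eq, coeff_monomial],
    Finset.sum_boole]

/-- All words `p x` with `p ∈ P`. -/
private def kids (P : Finset (List α)) : Finset (List α) :=
  (P ×ˢ (Finset.univ : Finset α)).image fun p => p.1 ++ [p.2]

private lemma mem_kids {P : Finset (List α)} {w : List α} :
    w ∈ kids P ↔ ∃ p ∈ P, ∃ x, p ++ [x] = w := by
  simp only [kids, Finset.mem_image, Finset.mem_product, Finset.mem_univ, and_true, Prod.exists]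
  constructor
  · rintro ⟨p, x, hp, h⟩
    exact ⟨p, hp, x, h⟩
  · rintro ⟨p, hp, x, h⟩
    exact ⟨p, x, hp, h⟩

private lemma gf_kids (P : Finset (List α)) :
    gf (kids P) = (∑ x : α, (X x : MvPolynomial α ℤ)) * gf P := by
  rw [gf, kids, Finset.sum_image, Finset.sum_product, gf, Finset.mul_sum]
  · refine Finset.sum_congr rfl fun p _ => ?_
    rw [Finset.sum_mul]
    refine Finset.sum_congr rfl fun x _ => ?_
    simp [mul_comm]
  · rintro ⟨p, x⟩ _ ⟨q, y⟩ _ h
    simp only at h
    obtain ⟨h1, h2⟩ := List.append_inj' h rfl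
    simp only [List.cons.injEq, and_true] at h2
    rw [h1, h2]

private lemma coeff_sum_mul (R : MvPolynomial α ℤ) (e : α →₀ ℕ) :
    coeff e ((∑ x : α, (X x : MvPolynomial α ℤ)) * R) =
      ∑ x : α, if x ∈ e.support then coeff (e - Finsupp.single x 1) R else 0 := by
  rw [Finset.sum_mul, coeff_sum]
  exact Finset.sum_congr rfl fun x _ => coeff_X_mul' _ _ _

omit [Fintype α] in
private lemma degree_sub {e : α →₀ ℕ} {x : α} (hx : x ∈ e.support) {n : ℕ}
    (he : e.degree = n + 1) : (e - Finsupp.single x 1).degree = n := by
  have h : e - Finsupp.single x 1 + Finsupp.single x 1 = e := by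
    apply tsub_add_cancel_of_le
    rw [Finsupp.single_le_iff]
    exact Nat.one_le_iff_ne_zero.2 (Finsupp.mem_support_iff.1 hx)
  have h2 := congrArg Finsupp.degree h
  rw [map_add, Finsupp.degree_single, he] at h2
  omega

/-- The invariant of the construction: `P` is the set of inner nodes of level `n`, `D` the set of
leaves up to level `n`. -/
private structure Inv (C : Finset (List α)) (Q : MvPolynomial α ℤ) (n : ℕ)
    (P D : Finset (List α)) : Prop where
  lenP : ∀ w ∈ P, w.length = n
  lenD : ∀ w ∈ D, w.length ≤ n
  nil : [] ∉ D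
  dis : Disjoint D P
  pre : ∀ u ∈ D ∪ P, ∀ v ∈ D ∪ P, u <+: v → u = v
  cntP : ∀ e : α →₀ ℕ, e.degree = n → coeff e (gf P) = coeff e Q
  cntD : ∀ e : α →₀ ℕ, e.degree ≤ n → coeff e (gf D) = coeff e (gf C)

private lemma inv_zero {C : Finset (List α)} {Q : MvPolynomial α ℤ} (hC : [] ∉ C)
    (h : 1 - gf C = (1 - ∑ x : α, (X x : MvPolynomial α ℤ)) * Q) :
    Inv C Q 0 {[]} ∅ := by
  have hC0 : coeff 0 (gf C) = 0 := by
    rw [coeff_gf, Nat.cast_eq_zero, Finset.card_eq_zero, Finset.filter_eq_empty_iff]
    intro w hw he
    have := tc_degree w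
    rw [he, map_zero] at this
    rw [List.length_eq_zero_iff.1 this.symm] at hw
    exact hC hw
  have hQ0 : coeff 0 Q = 1 := by
    have h1 := congrArg (coeff 0) h
    rw [coeff_sub, hC0, sub_mul, one_mul, coeff_sub, coeff_sum_mul] at h1
    simp at h1
    exact h1.symm
  refine ⟨by simp, by simp, by simp, by simp, ?_, ?_, ?_⟩
  · intro u hu v hv _
    simp only [Finset.empty_union, Finset.mem_singleton] at hu hv
    rw [hu, hv]
  · intro e he
    rw [Finsupp.degree_eq_zero_iff] at he
    rw [he, hQ0]
    simp [gf]
  · intro e he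
    have he : e = 0 := by
      rw [← Finsupp.degree_eq_zero_iff]
      omega
    rw [he, hC0]
    simp [gf]

private lemma inv_succ {C : Finset (List α)} {Q : MvPolynomial α ℤ} (hQ : ∀ e, 0 ≤ coeff e Q)
    (h : 1 - gf C = (1 - ∑ x : α, (X x : MvPolynomial α ℤ)) * Q) {n : ℕ}
    {P D : Finset (List α)} (hI : Inv C Q n P D) : ∃ P' D', Inv C Q (n + 1) P' D' := by
  -- the number of children of content `e`
  have hk : ∀ e : α →₀ ℕ, e.degree = n + 1 →
      coeff e (gf (kids P)) = coeff e Q + coeff e (gf C) := by
    intro e he
    have h1 := congrArg (coeff e) h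
    rw [coeff_sub, sub_mul, one_mul, coeff_sub, coeff_sum_mul] at h1
    have h0 : coeff e (1 : MvPolynomial α ℤ) = 0 := by
      rw [coeff_one, if_neg]
      rintro rfl
      simp at he
    rw [gf_kids, coeff_sum_mul]
    have h2 : (∑ x : α, if x ∈ e.support then coeff (e - Finsupp.single x 1) (gf P) else 0) =
        ∑ x : α, if x ∈ e.support then coeff (e - Finsupp.single x 1) Q else 0 := by
      refine Finset.sum_congr rfl fun x _ => ?_
      split_ifs with hx
      · exact hI.cntP _ (degree_sub hx he)
      · rfl
    rw [h2]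
    linarith
  -- choose the leaves
  have hch : ∀ e : α →₀ ℕ, ∃ S ⊆ (kids P).filter fun w => tc w = e,
      e.degree = n + 1 → (S.card : ℤ) = coeff e (gf C) := by
    intro e
    by_cases he : e.degree = n + 1
    · have h1 := hk e he
      have h2 := hQ e
      rw [coeff_gf] at h1
      rw [coeff_gf C] at h1 ⊢
      obtain ⟨S, hS, hS2⟩ := Finset.exists_subset_card_eq
        (s := (kids P).filter fun w => tc w = e) (n := (C.filter fun w => tc w = e).card)
        (by
          have : ((C.filter fun w => tc w = e).card : ℤ) ≤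
            (((kids P).filter fun w => tc w = e).card : ℤ) := by linarith
          exact_mod_cast this)
      exact ⟨S, hS, fun _ => by rw [hS2]⟩
    · exact ⟨∅, by simp, fun h => absurd h he⟩
  choose S hS hS2 using hch
  have hlen : ∀ w ∈ kids P, w.length = n + 1 := by
    intro w hw
    obtain ⟨p, hp, x, rfl⟩ := mem_kids.1 hw
    simp [hI.lenP p hp]
  set E : Finset (List α) := (kids P).filter fun w => w ∈ S (tc w) with hE
  have hEk : E ⊆ kids P := Finset.filter_subset _ _
  have hEe : ∀ e : α →₀ ℕ, (E.filter fun w => tc w = e) = S e := by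
    intro e
    ext w
    rw [hE, Finset.mem_filter, Finset.mem_filter]
    constructor
    · rintro ⟨⟨_, h1⟩, h2⟩
      rwa [h2] at h1
    · intro hw
      have h1 := Finset.mem_filter.1 (hS e hw)
      exact ⟨⟨h1.1, by rw [h1.2]; exact hw⟩, h1.2⟩
  refine ⟨kids P \ E, D ∪ E, ?_, ?_, ?_, ?_, ?_, ?_, ?_⟩
  · intro w hw
    exact hlen w (Finset.mem_sdiff.1 hw).1
  · intro w hw
    rcases Finset.mem_union.1 hw with hw | hw
    · exact (hI.lenD w hw).trans (Nat.le_succ n)
    · exact (hlen w (hEk hw)).le
  · intro hw
    rcases Finset.mem_union.1 hw with hw | hw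
    · exact hI.nil hw
    · have := hlen _ (hEk hw)
      simp at this
  · rw [Finset.disjoint_left]
    intro w hw hw2
    rw [Finset.mem_sdiff] at hw2
    rcases Finset.mem_union.1 hw with hw | hw
    · have h1 := hI.lenD w hw
      have h2 := hlen w hw2.1
      omega
    · exact hw2.2 hw
  · have hU : D ∪ E ∪ (kids P \ E) = D ∪ kids P := by
      rw [Finset.union_assoc, Finset.union_sdiff_of_subset hEk]
    rw [hU]
    intro u hu v hv huv
    rcases Finset.mem_union.1 hu with hu | hu
    · rcases Finset.mem_union.1 hv with hv | hv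
      · exact hI.pre u (Finset.mem_union_left _ hu) v (Finset.mem_union_left _ hv) huv
      · exfalso
        obtain ⟨p, hp, x, rfl⟩ := mem_kids.1 hv
        have h1 : u <+: p := List.prefix_of_prefix_length_le huv (List.prefix_append p [x])
          ((hI.lenD u hu).trans (hI.lenP p hp).ge)
        have h2 := hI.pre u (Finset.mem_union_left _ hu) p (Finset.mem_union_right _ hp) h1
        rw [← h2] at hp
        exact Finset.disjoint_left.1 hI.dis hu hp
    · rcases Finset.mem_union.1 hv with hv | hv
      · exfalso
        have h1 := hI.lenD v hv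
        have h2 := hlen u hu
        have h3 := huv.length_le
        omega
      · exact huv.eq_of_length ((hlen u hu).trans (hlen v hv).symm)
  · intro e he
    have h1 := hk e he
    have h2 : coeff e (gf (kids P)) = coeff e (gf (kids P \ E)) + coeff e (gf E) := by
      rw [← coeff_add]
      congr 1
      rw [gf, gf, gf, Finset.sum_sdiff hEk]
    have h3 : coeff e (gf E) = coeff e (gf C) := by
      rw [coeff_gf E, hEe, hS2 e he]
    linarith
  · intro e he
    have hdis : Disjoint D E := by
      rw [Finset.disjoint_left]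
      intro w hw hw2
      have h1 := hI.lenD w hw
      have h2 := hlen w (hEk hw2)
      omega
    have h2 : coeff e (gf (D ∪ E)) = coeff e (gf D) + coeff e (gf E) := by
      rw [← coeff_add]
      congr 1
      rw [gf, gf, gf, Finset.sum_union hdis]
    rw [h2]
    rcases Nat.lt_or_ge n e.degree with h3 | h3
    · have h4 : e.degree = n + 1 := by omega
      rw [coeff_gf E, hEe, hS2 e h4, coeff_gf D, Finset.filter_eq_empty_iff.2, Finset.card_empty]
      · simp
      · intro w hw h5
        have h6 := tc_degree w
        have h7 := hI.lenD w hw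
        rw [h5] at h6
        omega
    · rw [hI.cntD e h3, coeff_gf E, Finset.filter_eq_empty_iff.2, Finset.card_empty]
      · simp
      · intro w hw h5
        have h6 := tc_degree w
        have h7 := hlen w (hEk hw)
        rw [h5] at h6
        omega

end

theorem treeP : STree := by
  intro α _ _ C Q hC hQ h
  have hInv : ∀ n : ℕ, ∃ P D : Finset (List α), Inv C Q n P D := by
    intro n
    induction n with
    | zero => exact ⟨_, _, inv_zero hC h⟩
    | succ n ih =>
      obtain ⟨P, D, hI⟩ := ih
      exact inv_succ hQ h hI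
  obtain ⟨P, D, hI⟩ := hInv (C.sup List.length)
  have hcard : ∀ e : α →₀ ℕ,
      (C.filter fun w => tc w = e).card = (D.filter fun w => tc w = e).card := by
    intro e
    rcases Nat.lt_or_ge (C.sup List.length) e.degree with h1 | h1
    · rw [Finset.filter_eq_empty_iff.2, Finset.filter_eq_empty_iff.2]
      · intro w hw h2
        have h3 := tc_degree w
        have h4 := hI.lenD w hw
        rw [h2] at h3
        omega
      · intro w hw h2
        have h3 := tc_degree w
        have h4 : w.length ≤ C.sup List.length := Finset.le_sup (f := List.length) hw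
        rw [h2] at h3
        omega
    · have h2 := hI.cntD e h1
      rw [coeff_gf, coeff_gf] at h2
      exact_mod_cast h2.symm
  have hb : ∀ e : α →₀ ℕ, ∃ F : List α → List α,
      Set.BijOn F (C.filter fun w => tc w = e : Finset (List α))
        (D.filter fun w => tc w = e : Finset (List α)) := by
    intro e
    have f := Finset.equivOfCardEq (hcard e)
    refine ⟨fun w => if hw : w ∈ C.filter fun w => tc w = e then f ⟨w, hw⟩ else [], ?_, ?_, ?_⟩
    · intro w hw
      have hw' : w ∈ C.filter fun w => tc w = e := hw
      simp only [hw', dif_pos]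
      exact (f ⟨w, hw'⟩).2
    · intro v hv w hw hvw
      have hv' : v ∈ C.filter fun w => tc w = e := hv
      have hw' : w ∈ C.filter fun w => tc w = e := hw
      simp only [hv', hw', dif_pos] at hvw
      have := f.injective (Subtype.ext hvw)
      exact congrArg Subtype.val this
    · intro v hv
      have hv' : v ∈ D.filter fun w => tc w = e := hv
      refine ⟨(f.symm ⟨v, hv'⟩ : List α), (f.symm ⟨v, hv'⟩).2, ?_⟩
      have h1 : (f.symm ⟨v, hv'⟩ : List α) ∈ C.filter fun w => tc w = e := (f.symm ⟨v, hv'⟩).2
      simp only [h1, dif_pos]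
      simp
  choose F hF using hb
  refine ⟨D, ⟨hI.nil, fun u hu v hv => hI.pre u (Finset.mem_union_left _ hu) v
    (Finset.mem_union_left _ hv)⟩, fun w => F (tc w) w, ⟨?_, ?_, ?_⟩, ?_⟩
  · intro w hw
    have h1 : F (tc w) w ∈ D.filter fun v => tc v = tc w :=
      (hF (tc w)).mapsTo (by
        show w ∈ C.filter fun v => tc v = tc w
        exact Finset.mem_filter.2 ⟨hw, rfl⟩)
    exact (Finset.mem_filter.1 h1).1
  · intro v hv w hw hvw
    have h1 : F (tc v) v ∈ D.filter fun u => tc u = tc v :=
      (hF (tc v)).mapsTo (by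
        show v ∈ C.filter fun u => tc u = tc v
        exact Finset.mem_filter.2 ⟨hv, rfl⟩)
    have h2 : F (tc w) w ∈ D.filter fun u => tc u = tc w :=
      (hF (tc w)).mapsTo (by
        show w ∈ C.filter fun u => tc u = tc w
        exact Finset.mem_filter.2 ⟨hw, rfl⟩)
    have h3 : tc v = tc w := by
      rw [← (Finset.mem_filter.1 h1).2, ← (Finset.mem_filter.1 h2).2]
      exact congrArg tc hvw
    refine (hF (tc v)).injOn ?_ ?_ ?_
    · show v ∈ C.filter fun u => tc u = tc v
      exact Finset.mem_filter.2 ⟨hv, rfl⟩
    · show w ∈ C.filter fun u => tc u = tc v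
      exact Finset.mem_filter.2 ⟨hw, h3.symm⟩
    · simp only at hvw
      rw [hvw, h3]
  · intro v hv
    have h1 : v ∈ ((D.filter fun u => tc u = tc v : Finset (List α)) : Set (List α)) := by
      show v ∈ D.filter fun u => tc u = tc v
      exact Finset.mem_filter.2 ⟨hv, rfl⟩
    obtain ⟨w, hw, hwv⟩ := (hF (tc v)).surjOn h1
    have hw' : w ∈ C.filter fun u => tc u = tc v := hw
    rw [Finset.mem_filter] at hw'
    refine ⟨w, hw'.1, ?_⟩
    show F (tc w) w = v
    rw [hw'.2, hwv]
  · intro w hw
    have h1 : F (tc w) w ∈ D.filter fun v => tc v = tc w :=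
      (hF (tc w)).mapsTo (by
        show w ∈ C.filter fun v => tc v = tc w
        exact Finset.mem_filter.2 ⟨hw, rfl⟩)
    exact tc_perm (Finset.mem_filter.1 h1).2

end Pool.Agent.H35.FC
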